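import Mathlib

namespace H35P

variable (L : PeriodPair)

/-! Chunk A1 (M). Copies, for a general PeriodPair L instead of LL (lattice 3O): liouville = A0_liouville in Lib/H55B/A0.lean;
compl_open, ev_compl, tendsto_punct = A1_open, A1_discrete, A1_tendsto in Lib/H55B/A1.lean (L.isClosed_lattice; the lattice is discrete).
wp_zero: u = L.weierstrassPExcept 0, analyticAt_weierstrassPExcept, weierstrassPExcept_add (the term 1/0^2 = 0), u 0 = 0 termwise.
wp_inv_tendsto: near 0, ℘ z z^2 → 1, so (℘ z)^(-1) = z^2 (z^2 ℘ z)^(-1) → 0. -/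

theorem compl_open : IsOpen {z : ℂ | z ∉ L.lattice} :=
  L.isClosed_lattice.isOpen_compl

theorem ev_compl (z₀ : ℂ) : ∀ᶠ z in nhdsWithin z₀ {z₀}ᶜ, z ∉ L.lattice := by
  have h := L.compl_lattice_sdiff_singleton_mem_nhds z₀
  rw [eventually_nhdsWithin_iff]
  filter_upwards [h] with z hz hne hz'
  exact hz ⟨hz', hne⟩

theorem tendsto_punct (f : ℂ → ℂ) (z₀ : ℂ) (hf : ContinuousAt f z₀) (hinj : Function.Injective f) :
    Filter.Tendsto f (nhdsWithin z₀ {z₀}ᶜ) (nhdsWithin (f z₀) {f z₀}ᶜ) := by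
  rw [tendsto_nhdsWithin_iff]
  refine ⟨hf.tendsto.mono_left nhdsWithin_le_nhds, ?_⟩
  filter_upwards [self_mem_nhdsWithin] with z hz
  intro h
  exact hz (hinj h)

theorem wp_zero : ∃ u : ℂ → ℂ, AnalyticAt ℂ u 0 ∧ u 0 = 0 ∧
    ∀ z : ℂ, z ≠ 0 → L.weierstrassP z = (z ^ 2)⁻¹ + u z := by
  refine ⟨L.weierstrassPExcept 0, L.analyticAt_weierstrassPExcept 0, ?_, fun z hz => ?_⟩
  · simp [PeriodPair.weierstrassPExcept]
  · have h := L.weierstrassPExcept_add 0 z
    have h' : L.weierstrassPExcept 0 z + (1 / (z - 0) ^ 2 - 1 / (0 : ℂ) ^ 2) = L.weierstrassP z := h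
    rw [← h', sub_zero]
    simp
    ring

theorem wp_inv_tendsto : Filter.Tendsto (fun z => (L.weierstrassP z)⁻¹) (nhdsWithin (0 : ℂ) {0}ᶜ) (nhds 0) := by
  obtain ⟨u, hu, hu0, h⟩ := wp_zero L
  have h1 : ContinuousAt (fun z : ℂ => 1 + z ^ 2 * u z) 0 := by
    have := hu.continuousAt
    fun_prop
  have h2 : Filter.Tendsto (fun z : ℂ => z ^ 2 * (1 + z ^ 2 * u z)⁻¹) (nhds 0) (nhds 0) := by
    have h3 : ContinuousAt (fun z : ℂ => z ^ 2 * (1 + z ^ 2 * u z)⁻¹) 0 := by
      refine ContinuousAt.mul (by fun_prop) (h1.inv₀ ?_)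
      simp
    have h4 := h3.tendsto
    simpa using h4
  refine (h2.mono_left nhdsWithin_le_nhds).congr' ?_
  filter_upwards [self_mem_nhdsWithin] with z hz
  have hz0 : z ≠ 0 := hz
  rw [h z hz0]
  have h5 : (z ^ 2)⁻¹ + u z = (1 + z ^ 2 * u z) / z ^ 2 := by
    field_simp
  rw [h5, inv_div, div_eq_mul_inv]

/-- Liouville for elliptic functions with removable singularities. -/
theorem liouville (D : ℂ → ℂ) (hper : ∀ z, ∀ l ∈ L.lattice, D (z + l) = D z)
    (hD : ∀ z₀, ∃ a : ℂ → ℂ, AnalyticAt ℂ a z₀ ∧ ∀ᶠ z in nhdsWithin z₀ {z₀}ᶜ, D z = a z) :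
    ∃ c, ∀ (z₀ : ℂ) (a : ℂ → ℂ), ContinuousAt a z₀ →
      (∀ᶠ z in nhdsWithin z₀ {z₀}ᶜ, D z = a z) → a z₀ = c := by
  classical
  set D' : ℂ → ℂ := fun z => (nhdsWithin z {z}ᶜ).limUnder D with hD'
  have hlim : ∀ (z₀ : ℂ) (a : ℂ → ℂ), ContinuousAt a z₀ →
      (∀ᶠ z in nhdsWithin z₀ {z₀}ᶜ, D z = a z) → D' z₀ = a z₀ := by
    intro z₀ a ha h
    have h1 : Filter.Tendsto D (nhdsWithin z₀ {z₀}ᶜ) (nhds (a z₀)) := by
      have h2 : Filter.Tendsto a (nhdsWithin z₀ {z₀}ᶜ) (nhds (a z₀)) :=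
        ha.tendsto.mono_left nhdsWithin_le_nhds
      refine h2.congr' ?_
      filter_upwards [h] with z hz using hz.symm
    exact h1.limUnder_eq
  have han : ∀ z₀, AnalyticAt ℂ D' z₀ := by
    intro z₀
    obtain ⟨a, ha, h⟩ := hD z₀
    refine ha.congr ?_
    have h1 : ∀ᶠ z in nhds z₀, ContinuousAt a z :=
      ha.eventually_analyticAt.mono fun z hz => hz.continuousAt
    rw [eventually_nhdsWithin_iff] at h
    have h2 := h.eventually_nhds
    filter_upwards [h1, h2] with z hz1 hz2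
    symm
    apply hlim z a hz1
    rw [eventually_nhdsWithin_iff]
    by_cases hz : z = z₀
    · rw [hz]
      exact h
    · filter_upwards [hz2, isOpen_ne.mem_nhds hz] with w hw1 hw2 _
      exact hw1 hw2
  have hdiff : Differentiable ℂ D' := fun z => (han z).differentiableAt
  have hper' : ∀ z w, w ∈ L.lattice → D' (z + w) = D' z := by
    intro z w hw
    obtain ⟨a, ha, h⟩ := hD z
    have e1 := hlim z a ha.continuousAt h
    have e2 : D' (z + w) = (fun v => a (v - w)) (z + w) := by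
      apply hlim (z + w) (fun v => a (v - w))
      · have : ContinuousAt a ((z + w) - w) := by
          rw [add_sub_cancel_right]
          exact ha.continuousAt
        exact ContinuousAt.comp (f := fun v => v - w) this (by fun_prop)
      · rw [eventually_nhdsWithin_iff] at h ⊢
        have ht : Filter.Tendsto (fun v => v - w) (nhds (z + w)) (nhds z) := by
          have : ContinuousAt (fun v : ℂ => v - w) (z + w) := by fun_prop
          have h3 := this.tendsto
          rw [add_sub_cancel_right] at h3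
          exact h3
        filter_upwards [ht.eventually h] with v hv hne
        have h4 : v - w ∈ ({z}ᶜ : Set ℂ) := by
          intro h5
          apply hne
          have h6 : v - w = z := h5
          show v = z + w
          rw [← h6]
          ring
        have h7 := hv h4
        have h8 := hper (v - w) w hw
        rw [sub_add_cancel] at h8
        rw [h8, h7]
    rw [e2, e1]
    show a (z + w - w) = a z
    rw [add_sub_cancel_right]
  have hbd : Bornology.IsBounded (Set.range D') :=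
    (IsZLattice.isCompact_range_of_periodic L.lattice _ hdiff.continuous hper').isBounded
  refine ⟨D' 0, ?_⟩
  intro z₀ a ha h
  rw [← hlim z₀ a ha h]
  exact hdiff.apply_eq_apply_of_bounded hbd z₀ 0

end H35P
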