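import Mathlib
import Pool.Agent.Lib.H35P.A1

namespace H35P

variable (L : PeriodPair)

/-! Chunk A2 (M). wp_hasDeriv: Mathlib (deriv_weierstrassP, analyticOnNhd_weierstrassP).
wp_nonconst: the complement of the lattice is preconnected (complement of a countable set:
Set.Countable.isPathConnected_compl_of_one_lt_rank), so if ℘ = c on a sequence tending to z₀ then ℘ = c there
(AnalyticAt.eventually_eq_or_eventually_ne, AnalyticOnNhd.eqOn_of_preconnected_of_frequently_eq); contradiction with
wp_inv_tendsto (if c ≠ 0; if c = 0 use wp_zero: ℘ z ≠ 0 near 0).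
wpd_hasDeriv: h = (℘')' - 6℘^2 + g₂/2 is analytic on the complement U of the lattice (℘' analytic: analyticOnNhd_derivWeierstrassP).
Differentiate derivWeierstrassP_sq: 2 ℘' h = 0 on U. If h(z) ≠ 0 then h ≠ 0 near z, so ℘' = 0 near z, ℘ is constant near z:
contradiction with wp_nonconst. -/

theorem wp_analytic (z : ℂ) (hz : z ∉ L.lattice) : AnalyticAt ℂ L.weierstrassP z := by
  exact L.analyticOnNhd_weierstrassP z hz

theorem wpd_analytic (z : ℂ) (hz : z ∉ L.lattice) : AnalyticAt ℂ L.derivWeierstrassP z := by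
  exact L.analyticOnNhd_derivWeierstrassP z hz

theorem wp_hasDeriv (z : ℂ) (hz : z ∉ L.lattice) : HasDerivAt L.weierstrassP (L.derivWeierstrassP z) z := by
  have h := (wp_analytic L z hz).differentiableAt.hasDerivAt
  rwa [L.deriv_weierstrassP] at h

theorem wp_nonconst (z₀ : ℂ) (hz : z₀ ∉ L.lattice) (c : ℂ) :
    ∀ᶠ z in nhdsWithin z₀ {z₀}ᶜ, L.weierstrassP z ≠ c := by
  by_contra hcon
  have hfr : ∃ᶠ z in nhdsWithin z₀ {z₀}ᶜ, L.weierstrassP z = c := by
    rw [Filter.not_eventually] at hcon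
    exact hcon.mono fun z hz => not_not.1 hz
  have hpre : IsPreconnected ((L.lattice : Set ℂ)ᶜ) := by
    have hcount : (L.lattice : Set ℂ).Countable := countable_of_Lindelof_of_discrete (X := L.lattice)
    exact (hcount.isConnected_compl_of_one_lt_rank (by simp)).isPreconnected
  have heq := L.analyticOnNhd_weierstrassP.eqOn_of_preconnected_of_frequently_eq
    (g := fun _ => c) analyticOnNhd_const hpre hz hfr
  obtain ⟨u, hu, hu0, hwp⟩ := wp_zero L
  have hid : Filter.Tendsto (fun z : ℂ => z) (nhdsWithin (0 : ℂ) {0}ᶜ) (nhds 0) :=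
    tendsto_nhdsWithin_of_tendsto_nhds Filter.tendsto_id
  have hut : Filter.Tendsto u (nhdsWithin (0 : ℂ) {0}ᶜ) (nhds 0) := by
    have := hu.continuousAt.tendsto
    rw [hu0] at this
    exact this.comp hid
  have h1 : Filter.Tendsto (fun z : ℂ => z ^ 2 * c) (nhdsWithin (0 : ℂ) {0}ᶜ) (nhds 0) := by
    have := (hid.pow 2).mul_const c
    simpa using this
  have h2 : Filter.Tendsto (fun z : ℂ => 1 + z ^ 2 * u z) (nhdsWithin (0 : ℂ) {0}ᶜ) (nhds 1) := by
    have := ((hid.pow 2).mul hut).const_add 1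
    simpa using this
  have h3 : (fun z : ℂ => z ^ 2 * c) =ᶠ[nhdsWithin (0 : ℂ) {0}ᶜ] fun z : ℂ => 1 + z ^ 2 * u z := by
    filter_upwards [ev_compl L 0, self_mem_nhdsWithin] with z hz1 hz2
    have hz0 : z ≠ 0 := hz2
    have h4 : L.weierstrassP z = c := heq hz1
    rw [← h4, hwp z hz0, mul_add, mul_inv_cancel₀ (pow_ne_zero 2 hz0)]
  exact zero_ne_one (tendsto_nhds_unique h1 (h2.congr' h3.symm))

theorem wpd_hasDeriv (z : ℂ) (hz : z ∉ L.lattice) :
    HasDerivAt L.derivWeierstrassP (6 * L.weierstrassP z ^ 2 - L.g₂ / 2) z := by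
  have hopen := compl_open L
  have hd : ∀ w, w ∉ L.lattice → HasDerivAt L.derivWeierstrassP (deriv L.derivWeierstrassP w) w := fun w hw =>
    (wpd_analytic L w hw).differentiableAt.hasDerivAt
  -- `2 ℘' h = 0`
  have hprod : ∀ w, w ∉ L.lattice → L.derivWeierstrassP w *
      (deriv L.derivWeierstrassP w - (6 * L.weierstrassP w ^ 2 - L.g₂ / 2)) = 0 := by
    intro w hw
    have hev : (fun z => L.derivWeierstrassP z ^ 2) =ᶠ[nhds w]
        fun z => 4 * L.weierstrassP z ^ 3 - L.g₂ * L.weierstrassP z - L.g₃ := by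
      filter_upwards [hopen.mem_nhds hw] with z hz
      exact L.derivWeierstrassP_sq z hz
    have e1 := (hd w hw).pow 2
    have e2 := ((((wp_hasDeriv L w hw).pow 3).const_mul 4).sub ((wp_hasDeriv L w hw).const_mul L.g₂)).sub_const L.g₃
    have e3 := e1.unique (e2.congr_of_eventuallyEq hev)
    simp only [Nat.cast_ofNat, Nat.add_one_sub_one, pow_one] at e3
    have h2 : (2 : ℂ) ≠ 0 := two_ne_zero
    apply mul_left_cancel₀ h2
    linear_combination e3
  have hcont : ContinuousAt (fun w => deriv L.derivWeierstrassP w - (6 * L.weierstrassP w ^ 2 - L.g₂ / 2)) z :=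
    (wpd_analytic L z hz).deriv.continuousAt.sub
      ((((wp_analytic L z hz).continuousAt.pow 2).const_mul 6).sub continuousAt_const)
  have h0 : deriv L.derivWeierstrassP z - (6 * L.weierstrassP z ^ 2 - L.g₂ / 2) = 0 := by
    by_contra hne
    have hev1 : ∀ᶠ w in nhds z, deriv L.derivWeierstrassP w - (6 * L.weierstrassP w ^ 2 - L.g₂ / 2) ≠ 0 :=
      hcont.eventually_ne hne
    have hev2 : ∀ᶠ w in nhds z, w ∉ L.lattice := hopen.mem_nhds hz
    obtain ⟨r, hr, hball⟩ := Metric.eventually_nhds_iff_ball.1 (hev1.and hev2)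
    have hconst : ∀ w ∈ Metric.ball z r, L.weierstrassP w = L.weierstrassP z := by
      intro w hw
      refine Metric.isOpen_ball.is_const_of_deriv_eq_zero (convex_ball z r).isPreconnected (f := L.weierstrassP)
        (fun v hv => (wp_hasDeriv L v (hball v hv).2).differentiableAt.differentiableWithinAt) (fun v hv => ?_) hw
        (Metric.mem_ball_self hr)
      rw [(wp_hasDeriv L v (hball v hv).2).deriv]
      exact (mul_eq_zero.1 (hprod v (hball v hv).2)).resolve_right (hball v hv).1
    have hnc := wp_nonconst L z hz (L.weierstrassP z)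
    have hev3 : ∀ᶠ w in nhdsWithin z {z}ᶜ, L.weierstrassP w = L.weierstrassP z :=
      nhdsWithin_le_nhds (Filter.mem_of_superset (Metric.ball_mem_nhds z hr) hconst)
    obtain ⟨w, hw1, hw2⟩ := (hnc.and hev3).exists
    exact hw1 hw2
  have := hd z hz
  rwa [sub_eq_zero.1 h0] at this

end H35P
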