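import Mathlib

/-! Definitions of the analytic part, for a general period lattice. -/

namespace H35P

variable (L : PeriodPair)

/-- The first Eisenstein sum of a lattice with a rational cutoff. -/
noncomputable def sL (R : ℝ) (z : ℂ) : ℂ :=
  ∑' l : L.lattice, (z + l)⁻¹ * ((R ^ 2 / (R ^ 2 + ‖z + l‖ ^ 2) : ℝ) : ℂ)

/-- A term of the sum of second differences of 1/z. -/
noncomputable def tT (a w : ℂ) (l : L.lattice) : ℂ := (a + w + l)⁻¹ + (a - w + l)⁻¹ - 2 * (a + l)⁻¹

/-- The sum of second differences of 1/z. -/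
noncomputable def T2 (a w : ℂ) : ℂ := ∑' l : L.lattice, tT L a w l

/-- The slope of the chord. -/
noncomputable def mc (a w : ℂ) : ℂ :=
  (L.derivWeierstrassP a - L.derivWeierstrassP w) / (L.weierstrassP a - L.weierstrassP w)

/-- The slope of the tangent. -/
noncomputable def md (a : ℂ) : ℂ := (6 * L.weierstrassP a ^ 2 - L.g₂ / 2) / L.derivWeierstrassP a

end H35P
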