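import Mathlib
import Pool.Agent.Lib.H35P.E0

namespace H35P

/-! Chunk A3: the Eisenstein sums of a general lattice (after Lib/H55N/E1.lean). -/

/-- The correction term. -/
noncomputable def a3_k (R : ℝ) (y : ℂ) : ℂ := (starRingEnd ℂ) y / ((R ^ 2 + ‖y‖ ^ 2 : ℝ) : ℂ)

theorem a3_term (R : ℝ) (hR : 0 < R) (y : ℂ) :
    y⁻¹ * ((R ^ 2 / (R ^ 2 + ‖y‖ ^ 2) : ℝ) : ℂ) = y⁻¹ - a3_k R y := by
  by_cases hy : y = 0
  · simp [hy, a3_k]
  · have h1 : (R ^ 2 + ‖y‖ ^ 2 : ℝ) ≠ 0 := by positivity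
    have h1' : ((R ^ 2 + ‖y‖ ^ 2 : ℝ) : ℂ) ≠ 0 := by exact_mod_cast h1
    have h2 : y * (starRingEnd ℂ) y = ((‖y‖ ^ 2 : ℝ) : ℂ) := by
      rw [Complex.mul_conj, Complex.normSq_eq_norm_sq]
    unfold a3_k
    rw [Complex.ofReal_div]
    have h3 : ((R ^ 2 : ℝ) : ℂ) = ((R ^ 2 + ‖y‖ ^ 2 : ℝ) : ℂ) - y * (starRingEnd ℂ) y := by
      rw [h2]
      push_cast
      ring
    rw [h3, sub_div, div_self h1']
    field_simp

theorem a3_low (R : ℝ) (hR : 1 ≤ R) (y w : ℂ) :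
    (1 + ‖y‖) ^ 2 ≤ 4 * (1 + ‖w‖ ^ 2) * (R ^ 2 + ‖y + w‖ ^ 2) := by
  have hR1 : 1 ≤ R ^ 2 := by nlinarith
  have h1 : ‖y‖ ≤ ‖y + w‖ + ‖w‖ := by
    have := norm_sub_le (y + w) w
    rwa [add_sub_cancel_right] at this
  have h2 : ‖y‖ ^ 2 ≤ 2 * ‖y + w‖ ^ 2 + 2 * ‖w‖ ^ 2 := by
    calc ‖y‖ ^ 2 ≤ (‖y + w‖ + ‖w‖) ^ 2 := pow_le_pow_left₀ (norm_nonneg y) h1 2
      _ ≤ 2 * ‖y + w‖ ^ 2 + 2 * ‖w‖ ^ 2 := by linarith [sq_nonneg (‖y + w‖ - ‖w‖)]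
  have h3 : (1 + ‖y‖) ^ 2 ≤ 2 * (1 + ‖y‖ ^ 2) := by linarith [sq_nonneg (1 - ‖y‖)]
  have h4 : 0 ≤ ‖w‖ ^ 2 * ‖y + w‖ ^ 2 := by positivity
  have h5 : ‖w‖ ^ 2 * 1 ≤ ‖w‖ ^ 2 * R ^ 2 := by gcongr
  have h6 : 4 * (1 + ‖w‖ ^ 2) * (R ^ 2 + ‖y + w‖ ^ 2) = 4 * R ^ 2 + 4 * ‖y + w‖ ^ 2 +
    4 * (‖w‖ ^ 2 * R ^ 2) + 4 * (‖w‖ ^ 2 * ‖y + w‖ ^ 2) := by ring
  rw [h6]
  have h7 : 0 ≤ ‖y + w‖ ^ 2 := by positivity
  linarith

theorem a3_sd (R : ℝ) (hR : 1 ≤ R) (y w : ℂ) :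
    ‖a3_k R (y + w) + a3_k R (y - w) - 2 * a3_k R y‖ ≤
      (14 * ‖w‖ ^ 2 + 2 * (‖w‖ ^ 2) ^ 2) * (16 * (1 + ‖w‖ ^ 2) ^ 2) * (1 + ‖y‖) ^ (-3 : ℝ) := by
  set q : ℝ := R ^ 2 + ‖y‖ ^ 2 with hq
  set qp : ℝ := R ^ 2 + ‖y + w‖ ^ 2 with hqp
  set qm : ℝ := R ^ 2 + ‖y - w‖ ^ 2 with hqm
  set s : ℝ := 2 * (y * (starRingEnd ℂ) w).re with hs
  set d : ℝ := ‖w‖ ^ 2 with hd
  have hd0 : 0 ≤ d := by positivity
  have hR1 : 1 ≤ R ^ 2 := by nlinarith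
  have q0 : 0 < q := by positivity
  have qp0 : 0 < qp := by positivity
  have qm0 : 0 < qm := by positivity
  have e1 : qp = q + d + s := by
    rw [hqp, hq, hd, hs, Complex.sq_norm, Complex.sq_norm, Complex.sq_norm,
      Complex.normSq_add]
    ring
  have e2 : qm = q + d - s := by
    rw [hqm, hq, hd, hs, Complex.sq_norm, Complex.sq_norm, Complex.sq_norm,
      Complex.normSq_sub]
    ring
  have hsb : |s| ≤ 2 * (‖y‖ * ‖w‖) := by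
    rw [hs, abs_mul, abs_two]
    have := Complex.abs_re_le_norm (y * (starRingEnd ℂ) w)
    rw [norm_mul, Complex.norm_conj] at this
    linarith
  have cq : (q : ℂ) ≠ 0 := by exact_mod_cast q0.ne'
  have cqp : (qp : ℂ) ≠ 0 := by exact_mod_cast qp0.ne'
  have cqm : (qm : ℂ) ≠ 0 := by exact_mod_cast qm0.ne'
  have key : a3_k R (y + w) + a3_k R (y - w) - 2 * a3_k R y =
      (starRingEnd ℂ) y * ((-2 * q * d - 2 * d ^ 2 + 2 * s ^ 2) / (q * qp * qm) : ℝ) -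
        (starRingEnd ℂ) w * ((2 * s / (qp * qm) : ℝ) : ℂ) := by
    unfold a3_k
    rw [← hq, ← hqp, ← hqm]
    rw [map_add, map_sub]
    push_cast
    have c1 : (qp : ℂ) = q + d + s := by rw [e1]; push_cast; ring
    have c2 : (qm : ℂ) = q + d - s := by rw [e2]; push_cast; ring
    rw [c1] at cqp
    rw [c2] at cqm
    rw [c1, c2]
    field_simp
    ring
  rw [key]
  have hy2 : ‖y‖ ^ 2 ≤ q := by rw [hq]; nlinarith
  have hs2 : s ^ 2 ≤ 4 * q * d := by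
    have h1 : s ^ 2 ≤ (2 * (‖y‖ * ‖w‖)) ^ 2 := by
      rw [← sq_abs s]
      exact pow_le_pow_left₀ (abs_nonneg _) hsb 2
    calc s ^ 2 ≤ 4 * (‖y‖ ^ 2) * d := by rw [hd]; nlinarith
      _ ≤ 4 * q * d := by gcongr
  have hq1 : 1 ≤ q := by rw [hq]; nlinarith [sq_nonneg ‖y‖]
  have b1 : |(-2 * q * d - 2 * d ^ 2 + 2 * s ^ 2)| ≤ q * (10 * d + 2 * d ^ 2) := by
    rw [abs_le]
    have h5 : d ^ 2 ≤ q * d ^ 2 := by nlinarith [sq_nonneg d]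
    have h6 : 0 ≤ q * d := by positivity
    have h7 : 0 ≤ s ^ 2 := sq_nonneg s
    constructor
    · nlinarith
    · nlinarith [sq_nonneg d]
  have n1 : ‖(starRingEnd ℂ) y * ((-2 * q * d - 2 * d ^ 2 + 2 * s ^ 2) / (q * qp * qm) : ℝ)‖ ≤
      ‖y‖ * ((10 * d + 2 * d ^ 2) / (qp * qm)) := by
    rw [norm_mul, Complex.norm_conj, Complex.norm_real, Real.norm_eq_abs, abs_div]
    have h8 : 0 < q * qp * qm := by positivity
    rw [abs_of_pos h8]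
    have h9 : (10 * d + 2 * d ^ 2) / (qp * qm) = q * (10 * d + 2 * d ^ 2) / (q * qp * qm) := by
      field_simp
    rw [h9]
    gcongr
  have n2 : ‖(starRingEnd ℂ) w * ((2 * s / (qp * qm) : ℝ) : ℂ)‖ ≤
      ‖y‖ * (4 * d / (qp * qm)) := by
    rw [norm_mul, Complex.norm_conj, Complex.norm_real, Real.norm_eq_abs, abs_div]
    have h8 : 0 < qp * qm := by positivity
    rw [abs_of_pos h8, abs_mul, abs_two]
    have h9 : ‖w‖ * (2 * |s|) ≤ ‖y‖ * (4 * d) := by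
      rw [hd]
      nlinarith [norm_nonneg w, norm_nonneg y]
    calc ‖w‖ * (2 * |s| / (qp * qm)) = ‖w‖ * (2 * |s|) / (qp * qm) := by ring
      _ ≤ ‖y‖ * (4 * d) / (qp * qm) := by gcongr
      _ = _ := by ring
  have low1 : (1 + ‖y‖) ^ 2 ≤ 4 * (1 + d) * qp := a3_low R hR y w
  have low2 : (1 + ‖y‖) ^ 2 ≤ 4 * (1 + d) * qm := by
    have := a3_low R hR y (-w)
    rwa [norm_neg, ← sub_eq_add_neg] at this
  have hy0 : 0 < 1 + ‖y‖ := by positivity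
  have low : (1 + ‖y‖) ^ 4 ≤ 16 * (1 + d) ^ 2 * (qp * qm) := by
    calc (1 + ‖y‖) ^ 4 = (1 + ‖y‖) ^ 2 * (1 + ‖y‖) ^ 2 := by ring
      _ ≤ (4 * (1 + d) * qp) * (4 * (1 + d) * qm) := by gcongr
      _ = _ := by ring
  have hr : (1 + ‖y‖) ^ (-3 : ℝ) = 1 / (1 + ‖y‖) ^ 3 := by
    rw [Real.rpow_neg hy0.le]
    norm_num
  have hfin : ‖y‖ * ((14 * d + 2 * d ^ 2) / (qp * qm)) ≤
      (14 * d + 2 * d ^ 2) * (16 * (1 + d) ^ 2) * (1 + ‖y‖) ^ (-3 : ℝ) := by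
    rw [hr, mul_one_div, ← mul_div_assoc, div_le_div_iff₀ (by positivity) (by positivity)]
    have h5 : ‖y‖ * (1 + ‖y‖) ^ 3 ≤ (1 + ‖y‖) ^ 4 := by
      have : (1 + ‖y‖) ^ 4 = (1 + ‖y‖) * (1 + ‖y‖) ^ 3 := by ring
      rw [this]
      gcongr
      linarith
    have h6 : 0 ≤ 14 * d + 2 * d ^ 2 := by positivity
    calc ‖y‖ * (14 * d + 2 * d ^ 2) * (1 + ‖y‖) ^ 3
        = (14 * d + 2 * d ^ 2) * (‖y‖ * (1 + ‖y‖) ^ 3) := by ring
      _ ≤ (14 * d + 2 * d ^ 2) * (16 * (1 + d) ^ 2 * (qp * qm)) :=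
          mul_le_mul_of_nonneg_left (h5.trans low) h6
      _ = _ := by ring
  calc _ ≤ ‖y‖ * ((10 * d + 2 * d ^ 2) / (qp * qm)) + ‖y‖ * (4 * d / (qp * qm)) :=
        (norm_sub_le _ _).trans (add_le_add n1 n2)
    _ = ‖y‖ * ((14 * d + 2 * d ^ 2) / (qp * qm)) := by ring
    _ ≤ _ := hfin

variable (L : PeriodPair)

theorem a3_fin (r : ℝ) : {l : L.lattice | ‖(l : ℂ)‖ ≤ r}.Finite := by
  refine (isCompact_iff_finite.mp (isCompact_closedBall (0 : L.lattice) r)).subset ?_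
  intro l hl
  rw [Metric.mem_closedBall, dist_zero_right]
  exact hl

theorem a3_base {r : ℝ} (hr : 2 < r) : Summable (fun l : L.lattice => (1 + ‖(l : ℂ)‖) ^ (-r)) := by
  have h1 : Summable fun z : L.lattice => ‖(z : ℂ)‖ ^ (-r) := by
    refine ZLattice.summable_norm_rpow (L := L.lattice) (-r) ?_
    rw [PeriodPair.finrank_lattice]
    push_cast
    linarith
  refine h1.of_norm_bounded_eventually ?_
  rw [Filter.eventually_cofinite]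
  refine Set.Finite.subset (Set.finite_singleton (0 : L.lattice)) ?_
  intro x hx
  rw [Set.mem_singleton_iff]
  by_contra hne
  apply hx
  have h2 : 0 < ‖(x : ℂ)‖ := norm_pos_iff.2 (fun h => hne (Subtype.ext h))
  rw [Real.norm_of_nonneg (by positivity)]
  exact Real.rpow_le_rpow_of_nonpos h2 (by linarith) (by linarith)

theorem a3_lowl (w : ℂ) (x : L.lattice) (h : 2 * ‖w‖ + 1 ≤ ‖(x : ℂ)‖) :
    (1 + ‖(x : ℂ)‖) / 4 ≤ ‖w + x‖ := by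
  have h1 : ‖(x : ℂ)‖ ≤ ‖w + x‖ + ‖w‖ := by
    calc ‖(x : ℂ)‖ = ‖(w + x) - w‖ := by ring_nf
      _ ≤ ‖w + x‖ + ‖w‖ := norm_sub_le _ _
  have h3 : 0 ≤ ‖w‖ := norm_nonneg w
  linarith

/-- Summability along a coset of the lattice. -/
theorem a3_summable (a : ℂ) : Summable fun x : L.lattice => (1 + ‖a + x‖) ^ (-3 : ℝ) := by
  have h1 : Summable (fun x : L.lattice => 64 * (1 + ‖(x : ℂ)‖) ^ (-(3 : ℝ))) :=
    (a3_base L (by norm_num)).mul_left _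
  refine h1.of_norm_bounded_eventually ?_
  rw [Filter.eventually_cofinite]
  refine (a3_fin L (2 * ‖a‖ + 1)).subset ?_
  intro x hx
  simp only [Set.mem_ofPred_eq] at hx ⊢
  by_contra hne
  apply hx
  have h2 := a3_lowl L a x (not_le.mp hne).le
  have h3 : 0 < 1 + ‖(x : ℂ)‖ := by positivity
  rw [Real.norm_eq_abs, abs_of_nonneg (by positivity)]
  have h5 : 64 * (1 + ‖(x : ℂ)‖) ^ (-(3 : ℝ)) = ((1 + ‖(x : ℂ)‖) / 4) ^ (-(3 : ℝ)) := by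
    rw [Real.rpow_neg h3.le, Real.rpow_neg (by positivity)]
    norm_num
    field_simp
    norm_num
  rw [h5]
  exact Real.rpow_le_rpow_of_nonpos (by positivity) (by linarith) (by norm_num)

/-- Second differences of the correction terms. -/
noncomputable def a3_d (R : ℝ) (a w : ℂ) (x : L.lattice) : ℂ :=
  a3_k R (a + w + x) + a3_k R (a - w + x) - 2 * a3_k R (a + x)

theorem a3_d_le (R : ℝ) (hR : 1 ≤ R) (a w : ℂ) (x : L.lattice) : ‖a3_d L R a w x‖ ≤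
    (14 * ‖w‖ ^ 2 + 2 * (‖w‖ ^ 2) ^ 2) * (16 * (1 + ‖w‖ ^ 2) ^ 2) *
      (1 + ‖a + x‖) ^ (-3 : ℝ) := by
  have h := a3_sd R hR (a + x) w
  have e1 : a + x + w = a + w + x := by ring
  have e2 : a + x - w = a - w + x := by ring
  rw [e1, e2] at h
  exact h

theorem a3_d_summable (R : ℝ) (hR : 1 ≤ R) (a w : ℂ) : Summable (a3_d L R a w) :=
  ((a3_summable L a).mul_left _).of_norm_bounded (a3_d_le L R hR a w)

theorem a3_k_tendsto (y : ℂ) : Filter.Tendsto (fun R : ℝ => a3_k R y) Filter.atTop (nhds 0) := by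
  unfold a3_k
  have h1 : Filter.Tendsto (fun R : ℝ => R ^ 2 + ‖y‖ ^ 2) Filter.atTop Filter.atTop :=
    Filter.tendsto_atTop_add_const_right _ _ (Filter.tendsto_pow_atTop two_ne_zero)
  have h2 : Filter.Tendsto (fun R : ℝ => (((R ^ 2 + ‖y‖ ^ 2)⁻¹ : ℝ) : ℂ)) Filter.atTop
      (nhds ((0 : ℝ) : ℂ)) :=
    (Complex.continuous_ofReal.tendsto _).comp (tendsto_inv_atTop_zero.comp h1)
  have h3 := h2.const_mul ((starRingEnd ℂ) y)
  rw [Complex.ofReal_zero, mul_zero] at h3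
  refine h3.congr fun R => ?_
  rw [Complex.ofReal_inv, div_eq_mul_inv]

theorem a3_d_tendsto (a w : ℂ) :
    Filter.Tendsto (fun R : ℝ => ∑' x : L.lattice, a3_d L R a w x) Filter.atTop (nhds 0) := by
  have h0 : (∑' _ : L.lattice, (0 : ℂ)) = 0 := tsum_zero
  rw [← h0]
  refine tendsto_tsum_of_dominated_convergence
    (((a3_summable L a).mul_left _)) (fun x => ?_) ?_ (bound := fun x : L.lattice =>
      (14 * ‖w‖ ^ 2 + 2 * (‖w‖ ^ 2) ^ 2) * (16 * (1 + ‖w‖ ^ 2) ^ 2) *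
      (1 + ‖a + x‖) ^ (-3 : ℝ))
  · have := ((a3_k_tendsto (a + w + x)).add (a3_k_tendsto (a - w + x))).sub
      ((a3_k_tendsto (a + x)).const_mul 2)
    simp only [add_zero, mul_zero, sub_zero] at this
    exact this
  · filter_upwards [Filter.eventually_ge_atTop 1] with R hR x
    exact a3_d_le L R hR a w x

theorem a3_sR_aux (R : ℝ) (hR : 0 < R) (z : ℂ) : Summable fun x : L.lattice =>
    ‖(z + x)⁻¹ * ((R ^ 2 / (R ^ 2 + ‖z + x‖ ^ 2) : ℝ) : ℂ)‖ := by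
  have h1 : Summable (fun x : L.lattice => 64 * R ^ 2 * (1 + ‖(x : ℂ)‖) ^ (-(3 : ℝ))) :=
    (a3_base L (by norm_num)).mul_left _
  refine h1.of_norm_bounded_eventually ?_
  rw [Filter.eventually_cofinite]
  refine (a3_fin L (2 * ‖z‖ + 1)).subset ?_
  intro x hx
  simp only [Set.mem_ofPred_eq] at hx ⊢
  by_contra hne
  apply hx
  have h2 := a3_lowl L z x (not_le.mp hne).le
  have h3 : 0 < 1 + ‖(x : ℂ)‖ := by positivity
  have h4 : 0 < ‖z + x‖ := by linarith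
  rw [norm_norm, norm_mul, norm_inv, Complex.norm_real, Real.norm_eq_abs,
    abs_of_nonneg (by positivity)]
  have h5 : (1 + ‖(x : ℂ)‖) ^ (-(3 : ℝ)) = 1 / (1 + ‖(x : ℂ)‖) ^ 3 := by
    rw [Real.rpow_neg h3.le]
    norm_num
  rw [h5]
  calc ‖z + x‖⁻¹ * (R ^ 2 / (R ^ 2 + ‖z + x‖ ^ 2))
      ≤ ((1 + ‖(x : ℂ)‖) / 4)⁻¹ * (R ^ 2 / (((1 + ‖(x : ℂ)‖) / 4) ^ 2)) := by
        gcongr
        nlinarith [sq_nonneg R]
    _ = 64 * R ^ 2 * (1 / (1 + ‖(x : ℂ)‖) ^ 3) := by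
        field_simp
        norm_num

theorem a3_sR_summable (R : ℝ) (hR : 0 < R) (z : ℂ) : Summable fun x : L.lattice =>
    (z + x)⁻¹ * ((R ^ 2 / (R ^ 2 + ‖z + x‖ ^ 2) : ℝ) : ℂ) :=
  (a3_sR_aux L R hR z).of_norm

theorem a3_split (R : ℝ) (hR : 0 < R) (a w : ℂ) (x : L.lattice) :
    tT L a w x = ((a + w + x)⁻¹ *
        ((R ^ 2 / (R ^ 2 + ‖a + w + x‖ ^ 2) : ℝ) : ℂ) +
      (a - w + x)⁻¹ * ((R ^ 2 / (R ^ 2 + ‖a - w + x‖ ^ 2) : ℝ) : ℂ) -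
      2 * ((a + x)⁻¹ * ((R ^ 2 / (R ^ 2 + ‖a + x‖ ^ 2) : ℝ) : ℂ))) +
      a3_d L R a w x := by
  rw [a3_term R hR, a3_term R hR, a3_term R hR]
  unfold tT a3_d
  ring

theorem tT_summable (a w : ℂ) : Summable (tT L a w) := by
  have h1 := (((a3_sR_summable L 1 one_pos (a + w)).add (a3_sR_summable L 1 one_pos (a - w))).sub
    ((a3_sR_summable L 1 one_pos a).mul_left 2)).add (a3_d_summable L 1 le_rfl a w)
  refine h1.congr fun x => ?_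
  exact (a3_split L 1 one_pos a w x).symm

theorem a3_tsum (R : ℝ) (hR : 1 ≤ R) (a w : ℂ) : ∑' x, tT L a w x =
    sL L R (a + w) + sL L R (a - w) - 2 * sL L R a + ∑' x, a3_d L R a w x := by
  have hR0 : 0 < R := by linarith
  have s1 := a3_sR_summable L R hR0 (a + w)
  have s2 := a3_sR_summable L R hR0 (a - w)
  have s3 := (a3_sR_summable L R hR0 a).mul_left 2
  unfold sL
  rw [← tsum_mul_left, ← s1.tsum_add s2, ← (s1.add s2).tsum_sub s3,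
    ← ((s1.add s2).sub s3).tsum_add (a3_d_summable L R hR a w)]
  exact tsum_congr fun x => a3_split L R hR0 a w x

theorem sL_lim (a w : ℂ) : Filter.Tendsto (fun R : ℝ => sL L R (a + w) + sL L R (a - w) - 2 * sL L R a)
    Filter.atTop (nhds (T2 L a w)) := by
  have h1 : Filter.Tendsto (fun R : ℝ => (∑' x, tT L a w x) - ∑' x, a3_d L R a w x) Filter.atTop
      (nhds ((∑' x, tT L a w x) - 0)) := tendsto_const_nhds.sub (a3_d_tendsto L a w)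
  rw [sub_zero] at h1
  unfold T2
  refine h1.congr' ?_
  filter_upwards [Filter.eventually_ge_atTop 1] with R hR
  rw [a3_tsum L R hR a w]
  ring

theorem sL_per (R : ℝ) (z l : ℂ) (hl : l ∈ L.lattice) : sL L R (z + l) = sL L R z := by
  unfold sL
  rw [← (Equiv.addLeft (⟨l, hl⟩ : L.lattice)).tsum_eq (fun x : L.lattice => (z + x)⁻¹ *
    ((R ^ 2 / (R ^ 2 + ‖z + x‖ ^ 2) : ℝ) : ℂ))]
  refine tsum_congr fun x => ?_
  have e1 : ((Equiv.addLeft (⟨l, hl⟩ : L.lattice)) x : ℂ) = l + x := rfl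
  rw [e1]
  have e2 : z + l + (x : ℂ) = z + (l + x) := by ring
  rw [e2]

theorem sL_neg (R : ℝ) (z : ℂ) : sL L R (-z) = -sL L R z := by
  unfold sL
  rw [← (Equiv.neg L.lattice).tsum_eq (fun x : L.lattice => (-z + x)⁻¹ *
    ((R ^ 2 / (R ^ 2 + ‖-z + x‖ ^ 2) : ℝ) : ℂ)), ← tsum_neg]
  refine tsum_congr fun x => ?_
  have e1 : ((Equiv.neg L.lattice) x : ℂ) = -(x : ℂ) := rfl
  rw [e1]
  have e2 : -z + -(x : ℂ) = -(z + x) := by ring
  rw [e2, norm_neg, inv_neg]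
  ring

end H35P
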