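import Mathlib
import Pool.Agent.Lib.H35P.A2
import Pool.Agent.Lib.H35P.A3

namespace H35P

variable (L : PeriodPair)

/-! Chunk A4 (M). Copy of T_formula in Lib/H55N/E1.lean (second part of the file, from E1_F on) for a general lattice. T2 L a w is
E1_F a w. Periodicity of w ↦ T2 L a w: from sL_lim, sL_per and uniqueness of limits (see E1_F_per). At 0: wp_zero suffices,
T2 = w^2 Rex(w) with Rex(0) = -℘'(a), and w^2 (℘ a - ℘ w) → -1. If 2a lies in the lattice both sides are 0 (E1_half, E1_wpd_half).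
Liouville = liouville of A1. -/

theorem A4_F_per (a w l : ℂ) (hl : l ∈ L.lattice) : T2 L a (w + l) = T2 L a w := by
  refine tendsto_nhds_unique (sL_lim L a (w + l)) ?_
  refine (sL_lim L a w).congr fun R => ?_
  have e1 : a + (w + l) = a + w + l := by ring
  have e2 : a - (w + l) = a - w + -l := by ring
  rw [e1, e2, sL_per L R _ l hl, sL_per L R _ (-l) (neg_mem hl)]

theorem A4_F_neg (a w : ℂ) : T2 L a (-w) = T2 L a w := by
  unfold T2 tT
  refine tsum_congr fun x => ?_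
  rw [sub_neg_eq_add, ← sub_eq_add_neg]
  ring

/-! ### The elliptic function -/

/-- The terms of the sum. -/
noncomputable def A4_tm (a l w : ℂ) : ℂ := 2 / (((a + l) ^ 2 - w ^ 2) * (a + l))

/-- The sum without one term. -/
noncomputable def A4_Rex (a l₀ w : ℂ) : ℂ :=
  ∑' l : L.lattice, if l.1 = l₀ then 0 else A4_tm a l.1 w

theorem A4_bound (a : ℂ) (r : ℝ) (hr : 0 < r) (w : ℂ) (hw : ‖w‖ < r) (l : ℂ)
    (h : 2 * r + 2 * ‖a‖ ≤ ‖l‖) : ‖A4_tm a l w‖ ≤ 16 * ‖l‖ ^ (-3 : ℝ) := by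
  have ha := norm_nonneg a
  have hl : 0 < ‖l‖ := by linarith
  have h1 : ‖l‖ / 2 ≤ ‖a + l‖ := by
    have := norm_sub_norm_le l (-a)
    rw [norm_neg] at this
    have e1 : l - -a = a + l := by ring
    rw [e1] at this
    linarith
  have h2 : ‖l‖ / 2 ≤ ‖a + l - w‖ := by
    have := norm_sub_norm_le l (-a + w)
    have e1 : l - (-a + w) = a + l - w := by ring
    rw [e1] at this
    have h3 : ‖-a + w‖ ≤ ‖a‖ + ‖w‖ := by
      refine (norm_add_le _ _).trans ?_
      rw [norm_neg]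
    linarith
  have h2' : ‖l‖ / 2 ≤ ‖a + l + w‖ := by
    have := norm_sub_norm_le l (-a - w)
    have e1 : l - (-a - w) = a + l + w := by ring
    rw [e1] at this
    have h3 : ‖-a - w‖ ≤ ‖a‖ + ‖w‖ := by
      refine (norm_sub_le _ _).trans ?_
      rw [norm_neg]
    linarith
  unfold A4_tm
  have e2 : ((a + l) ^ 2 - w ^ 2) * (a + l) = (a + l - w) * (a + l + w) * (a + l) := by ring
  rw [e2, norm_div, norm_mul, norm_mul]
  have h4 : (‖l‖ / 2) * (‖l‖ / 2) * (‖l‖ / 2) ≤ ‖a + l - w‖ * ‖a + l + w‖ * ‖a + l‖ := by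
    gcongr
  have h5 : (‖l‖ : ℝ) ^ (-3 : ℝ) = 1 / ‖l‖ ^ 3 := by
    rw [Real.rpow_neg hl.le]
    norm_num
  rw [h5]
  have h6 : 0 < (‖l‖ / 2) * (‖l‖ / 2) * (‖l‖ / 2) := by positivity
  calc ‖(2 : ℂ)‖ / (‖a + l - w‖ * ‖a + l + w‖ * ‖a + l‖)
      ≤ ‖(2 : ℂ)‖ / ((‖l‖ / 2) * (‖l‖ / 2) * (‖l‖ / 2)) := by gcongr
    _ = 16 * (1 / ‖l‖ ^ 3) := by
        rw [Complex.norm_ofNat]
        field_simp
        norm_num

theorem A4_hasSum (a l₀ : ℂ) : HasSumLocallyUniformly
    (fun (l : L.lattice) (w : ℂ) => if l.1 = l₀ then 0 else A4_tm a l.1 w) (A4_Rex L a l₀) := by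
  refine L.hasSumLocallyUniformly_aux (u := fun _ => (16 * ‖·‖ ^ (-3 : ℝ))) _
    (fun _ _ => (ZLattice.summable_norm_rpow _ _ (by simp; norm_num)).mul_left _) fun r hr =>
    Filter.eventually_atTop.mpr ⟨2 * r + 2 * ‖a‖, ?_⟩
  rintro _ h s hs l rfl
  split_ifs
  · rw [norm_zero]
    positivity
  · exact A4_bound a r hr s hs l h

/-- The domain. -/
def A4_U (a l₀ : ℂ) : Set ℂ :=
  {w | w - a ∈ ((L.lattice : Set ℂ) \ {l₀})ᶜ ∧ -w - a ∈ ((L.lattice : Set ℂ) \ {l₀})ᶜ}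

theorem A4_U_open (a l₀ : ℂ) : IsOpen (A4_U L a l₀) := by
  have h1 : IsOpen {w : ℂ | w - a ∈ ((L.lattice : Set ℂ) \ {l₀})ᶜ} :=
    L.isOpen_compl_lattice_sdiff.preimage (by fun_prop)
  have h2 : IsOpen {w : ℂ | -w - a ∈ ((L.lattice : Set ℂ) \ {l₀})ᶜ} :=
    L.isOpen_compl_lattice_sdiff.preimage (by fun_prop)
  exact h1.inter h2

variable {L}

theorem A4_ne {a : ℂ} (ha : a ∉ L.lattice) {l : ℂ} (hl : l ∈ L.lattice) : a + l ≠ 0 := by
  intro h
  apply ha
  have : a = -l := by linear_combination h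
  rw [this]
  exact neg_mem hl

theorem A4_analytic {a : ℂ} (ha : a ∉ L.lattice) (l₀ : ℂ) :
    AnalyticOnNhd ℂ (A4_Rex L a l₀) (A4_U L a l₀) := by
  refine DifferentiableOn.analyticOnNhd ?_ (A4_U_open L a l₀)
  refine (A4_hasSum L a l₀).hasSumLocallyUniformlyOn.differentiableOn
    (.of_forall fun s => .fun_sum fun i hi => ?_) (A4_U_open L a l₀)
  split_ifs with hl
  · exact differentiableOn_const 0
  · unfold A4_tm
    refine .div (by fun_prop) (by fun_prop) ?_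
    intro w hw
    refine mul_ne_zero ?_ (A4_ne ha i.2)
    have e1 : (a + (i : ℂ)) ^ 2 - w ^ 2 = (a + i - w) * (a + i + w) := by ring
    rw [e1]
    refine mul_ne_zero ?_ ?_
    · intro h
      apply hw.1
      have e2 : w - a = i := by linear_combination -h
      rw [e2]
      exact ⟨i.2, hl⟩
    · intro h
      apply hw.2
      have e2 : -w - a = i := by linear_combination -h
      rw [e2]
      exact ⟨i.2, hl⟩

theorem A4_F_eq {a : ℂ} (ha : a ∉ L.lattice) {w : ℂ} (h1 : a + w ∉ L.lattice) (h2 : a - w ∉ L.lattice) :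
    T2 L a w = w ^ 2 * ∑' l : L.lattice, A4_tm a l.1 w := by
  unfold T2
  rw [← tsum_mul_left]
  congr 1
  funext x
  show (a + w + x)⁻¹ + (a - w + x)⁻¹ - 2 * (a + x)⁻¹ =
    w ^ 2 * (2 / (((a + x) ^ 2 - w ^ 2) * (a + x)))
  have n1 : a + w + x ≠ 0 := A4_ne h1 x.2
  have n2 : a - w + x ≠ 0 := A4_ne h2 x.2
  have n3 : a + x ≠ 0 := A4_ne ha x.2
  have e1 : (a + (x : ℂ)) ^ 2 - w ^ 2 = (a + w + x) * (a - w + x) := by ring
  rw [e1]
  field_simp
  ring

theorem A4_F_one {a : ℂ} (ha : a ∉ L.lattice) {w : ℂ} (h1 : a + w ∉ L.lattice) (h2 : a - w ∉ L.lattice) :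
    T2 L a w = w ^ 2 * A4_Rex L a a w := by
  rw [A4_F_eq ha h1 h2]
  congr 1
  unfold A4_Rex
  congr 1
  funext l
  rw [if_neg]
  intro h
  apply ha
  rw [← h]
  exact l.2

theorem A4_Rex_add (a w : ℂ) :
    ∑' l : L.lattice, A4_tm a l.1 w = A4_Rex L a 0 w + A4_tm a 0 w := by
  classical
  have h0 : (∑' l : L.lattice, if l = 0 then A4_tm a 0 w else 0) = A4_tm a 0 w := by
    rw [tsum_ite_eq]
  conv_rhs => rw [← h0]
  unfold A4_Rex
  rw [← Summable.tsum_add]
  · congr 1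
    funext l
    by_cases hl : l.1 = 0
    · have hl' : l = 0 := Subtype.ext hl
      rw [if_pos hl, if_pos hl', zero_add, hl]
    · have hl' : l ≠ 0 := fun h => hl (by rw [h]; rfl)
      rw [if_neg hl, if_neg hl', add_zero]
  · exact ⟨_, (A4_hasSum L a 0).hasSum⟩
  · exact summable_of_hasFiniteSupport ((Set.finite_singleton (0 : L.lattice)).subset (by simp))

theorem A4_F_zero {a : ℂ} (ha : a ∉ L.lattice) {w : ℂ} (h1 : a + w ∉ L.lattice) (h2 : a - w ∉ L.lattice) :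
    T2 L a w = w ^ 2 * (A4_Rex L a 0 w + 2 / ((a ^ 2 - w ^ 2) * a)) := by
  rw [A4_F_eq ha h1 h2, A4_Rex_add]
  congr 2
  unfold A4_tm
  rw [add_zero]

theorem A4_Rex_zero {a : ℂ} (ha : a ∉ L.lattice) : A4_Rex L a a 0 = -L.derivWeierstrassP a := by
  unfold A4_Rex PeriodPair.derivWeierstrassP
  rw [neg_neg, ← (Equiv.neg L.lattice).tsum_eq]
  congr 1
  funext l
  have hl : l.1 ∈ L.lattice := l.2
  rw [if_neg]
  · show A4_tm a (-l.1) 0 = 2 / (a - l.1) ^ 3
    unfold A4_tm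
    congr 1
    ring
  · intro h
    apply ha
    have h' : -l.1 = a := h
    rw [← h']
    exact neg_mem hl

theorem A4_ev (a z₀ : ℂ) : ∀ᶠ z in nhdsWithin z₀ {z₀}ᶜ, a + z ∉ L.lattice ∧ a - z ∉ L.lattice := by
  have h1 := (tendsto_punct (fun z => a + z) z₀ (by fun_prop) (fun b c h => by
    have : a + b = a + c := h
    linear_combination this)).eventually (ev_compl L _)
  have h2 := (tendsto_punct (fun z => a - z) z₀ (by fun_prop) (fun b c h => by
    have : a - b = a - c := h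
    linear_combination -this)).eventually (ev_compl L _)
  filter_upwards [h1, h2] with z h3 h4 using ⟨h3, h4⟩

variable (L)

/-- The elliptic function. -/
noncomputable def A4_D (a w : ℂ) : ℂ := T2 L a w * (L.weierstrassP a - L.weierstrassP w)

/-- Removable singularity. -/
def A4_Rem (a z₀ : ℂ) : Prop := ∃ b : ℂ → ℂ, AnalyticAt ℂ b z₀ ∧
  ∀ᶠ z in nhdsWithin z₀ {z₀}ᶜ, A4_D L a z = b z

theorem A4_D_per (a z : ℂ) (l : ℂ) (hl : l ∈ L.lattice) : A4_D L a (z + l) = A4_D L a z := by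
  unfold A4_D
  rw [A4_F_per L a z l hl, L.weierstrassP_add_coe z ⟨l, hl⟩]

theorem A4_D_neg (a z : ℂ) : A4_D L a (-z) = A4_D L a z := by
  unfold A4_D
  rw [A4_F_neg, L.weierstrassP_neg]

variable {L}

theorem A4_Rem_per {a z₀ : ℂ} (h : A4_Rem L a z₀) {y : ℂ} (hy : y ∈ L.lattice) : A4_Rem L a (z₀ + y) := by
  obtain ⟨b, ha, h⟩ := h
  refine ⟨fun z => b (z - y), ?_, ?_⟩
  · have : AnalyticAt ℂ b ((z₀ + y) - y) := by rw [add_sub_cancel_right]; exact ha
    exact this.comp (f := fun w : ℂ => w - y) (by fun_prop)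
  · have ht := tendsto_punct (fun z => z - y) (z₀ + y) (by fun_prop) (fun a b h => by
      have : a - y = b - y := h
      linear_combination this)
    simp only [add_sub_cancel_right] at ht
    filter_upwards [ht.eventually h] with z h3
    rw [← h3, ← A4_D_per L a (z - y) y hy, sub_add_cancel]

theorem A4_Rem_neg {a z₀ : ℂ} (h : A4_Rem L a z₀) : A4_Rem L a (-z₀) := by
  obtain ⟨b, ha, h⟩ := h
  refine ⟨fun z => b (-z), ?_, ?_⟩
  · have : AnalyticAt ℂ b (-(-z₀)) := by rw [neg_neg]; exact ha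
    exact this.comp (f := fun w : ℂ => -w) (by fun_prop)
  · have ht := tendsto_punct (fun z => -z) (-z₀) (by fun_prop) neg_injective
    simp only [neg_neg] at ht
    filter_upwards [ht.eventually h] with z h3
    rw [← h3, A4_D_neg]

theorem A4_U_one {a z : ℂ} (h1 : a + z ∉ L.lattice) (h2 : a - z ∉ L.lattice) (l₀ : ℂ) : z ∈ A4_U L a l₀ := by
  constructor
  · intro h
    apply h2
    have := neg_mem h.1
    have e1 : -(z - a) = a - z := by ring
    rwa [e1] at this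
  · intro h
    apply h1
    have := neg_mem h.1
    have e1 : -(-z - a) = a + z := by ring
    rwa [e1] at this

theorem A4_D_analytic {a z : ℂ} (ha : a ∉ L.lattice) (h0 : z ∉ L.lattice) (h1 : a + z ∉ L.lattice)
    (h2 : a - z ∉ L.lattice) : AnalyticAt ℂ (A4_D L a) z := by
  have a1 := A4_analytic ha a z (A4_U_one h1 h2 a)
  have a2 := wp_analytic L z h0
  have a3 : AnalyticAt ℂ (fun w => w ^ 2 * A4_Rex L a a w * (L.weierstrassP a - L.weierstrassP w)) z := by
    fun_prop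
  refine a3.congr ?_
  have o1 : ∀ᶠ w in nhds z, a + w ∉ L.lattice :=
    ((compl_open L).preimage (f := fun w : ℂ => a + w) (by fun_prop)).mem_nhds h1
  have o2 : ∀ᶠ w in nhds z, a - w ∉ L.lattice :=
    ((compl_open L).preimage (f := fun w : ℂ => a - w) (by fun_prop)).mem_nhds h2
  filter_upwards [o1, o2] with w h3 h4
  unfold A4_D
  rw [A4_F_one ha h3 h4]

theorem A4_at_zero {a : ℂ} (ha : a ∉ L.lattice) : ∃ b : ℂ → ℂ, AnalyticAt ℂ b 0 ∧
    b 0 = L.derivWeierstrassP a ∧ ∀ᶠ z in nhdsWithin (0 : ℂ) {0}ᶜ, A4_D L a z = b z := by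
  obtain ⟨u, hu, hu0, hexp⟩ := wp_zero L
  have hU : (0 : ℂ) ∈ A4_U L a a := by
    apply A4_U_one
    · rw [add_zero]; exact ha
    · rw [sub_zero]; exact ha
  have a1 := A4_analytic ha a 0 hU
  refine ⟨fun w => A4_Rex L a a w * (w ^ 2 * L.weierstrassP a - 1 - w ^ 2 * u w), by fun_prop, ?_, ?_⟩
  · simp only
    rw [A4_Rex_zero ha]
    ring
  · filter_upwards [A4_ev (L := L) a 0, self_mem_nhdsWithin] with w h2 hw
    have hw' : w ≠ 0 := hw
    unfold A4_D
    rw [A4_F_one ha h2.1 h2.2, hexp w hw']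
    field_simp
    ring

theorem A4_at_a {a : ℂ} (ha : a ∉ L.lattice) (h2a : 2 * a ∉ L.lattice) : A4_Rem L a a := by
  have ha0 : a ≠ 0 := by
    rintro rfl
    exact ha (zero_mem _)
  have hU : a ∈ A4_U L a 0 := by
    constructor
    · intro h
      apply h.2
      rw [sub_self]
      rfl
    · intro h
      apply h2a
      have := neg_mem h.1
      have e1 : -(-a - a) = 2 * a := by ring
      rwa [e1] at this
  have a1 := A4_analytic ha 0 a hU
  have a2 := wp_analytic L a ha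
  have a3 : AnalyticAt ℂ (dslope L.weierstrassP a) a := by
    obtain ⟨p, hp⟩ := a2
    exact ⟨_, hp.has_fpower_series_dslope_fslope⟩
  have a4 : AnalyticAt ℂ (fun w : ℂ => 2 * w ^ 2 / ((a + w) * a)) a := by
    refine AnalyticAt.div (by fun_prop) (by fun_prop) ?_
    refine mul_ne_zero ?_ ha0
    rw [← two_mul]
    exact mul_ne_zero two_ne_zero ha0
  obtain ⟨q, hq⟩ : ∃ q : ℂ → ℂ, q = fun w : ℂ => 2 * w ^ 2 / ((a + w) * a) := ⟨_, rfl⟩
  rw [← hq] at a4
  refine ⟨fun w => w ^ 2 * A4_Rex L a 0 w * (L.weierstrassP a - L.weierstrassP w) +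
    q w * dslope L.weierstrassP a w, by fun_prop, ?_⟩
  filter_upwards [A4_ev (L := L) a a, self_mem_nhdsWithin] with w h2 hw
  have hw' : w ≠ a := hw
  have hw1 : a - w ≠ 0 := sub_ne_zero.2 hw'.symm
  have hw1' : w - a ≠ 0 := sub_ne_zero.2 hw'
  have hw2 : a + w ≠ 0 := by
    intro h
    apply h2.1
    rw [h]
    exact zero_mem _
  unfold A4_D
  rw [A4_F_zero ha h2.1 h2.2, hq, dslope_of_ne _ hw', slope_def_field]
  have e1 : a ^ 2 - w ^ 2 = (a - w) * (a + w) := by ring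
  rw [e1]
  field_simp
  ring

theorem A4_all {a : ℂ} (ha : a ∉ L.lattice) (h2a : 2 * a ∉ L.lattice) (z₀ : ℂ) : A4_Rem L a z₀ := by
  by_cases c0 : z₀ ∈ L.lattice
  · obtain ⟨b, hb, -, h⟩ := A4_at_zero ha
    have h0 : A4_Rem L a 0 := ⟨b, hb, h⟩
    have := A4_Rem_per h0 c0
    rwa [zero_add] at this
  · by_cases c1 : a + z₀ ∈ L.lattice
    · have h1 := A4_Rem_per (A4_Rem_neg (A4_at_a ha h2a)) c1
      have e1 : -a + (a + z₀) = z₀ := by ring
      rwa [e1] at h1
    · by_cases c2 : a - z₀ ∈ L.lattice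
      · have h1 := A4_Rem_per (A4_at_a ha h2a) (neg_mem c2)
        have e1 : a + -(a - z₀) = z₀ := by ring
        rwa [e1] at h1
      · exact ⟨A4_D L a, A4_D_analytic ha c0 c1 c2, Filter.Eventually.of_forall fun z => rfl⟩

/-- The half period case. -/
theorem A4_half {a : ℂ} (h2a : 2 * a ∈ L.lattice) (w : ℂ) : T2 L a w = 0 := by
  have h1 : T2 L a w = -T2 L a w := by
    conv_lhs => unfold T2
    rw [← (Equiv.subLeft (-(⟨2 * a, h2a⟩ : L.lattice))).tsum_eq (tT L a w)]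
    unfold T2
    rw [← tsum_neg]
    refine tsum_congr fun x => ?_
    show tT L a w (-(⟨2 * a, h2a⟩ : L.lattice) - x) = -tT L a w x
    unfold tT
    have e0 : ((-(⟨2 * a, h2a⟩ : L.lattice) - x : L.lattice) : ℂ) = -(2 * a) - x := rfl
    rw [e0]
    have e1 : a + w + (-(2 * a) - (x : ℂ)) = -(a - w + x) := by ring
    have e2 : a - w + (-(2 * a) - (x : ℂ)) = -(a + w + x) := by ring
    have e3 : a + (-(2 * a) - (x : ℂ)) = -(a + x) := by ring
    rw [e1, e2, e3, inv_neg, inv_neg, inv_neg]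
    ring
  have h2 : 2 * T2 L a w = 0 := by linear_combination h1
  rcases mul_eq_zero.1 h2 with h | h
  · norm_num at h
  · exact h

theorem A4_wpd_half {a : ℂ} (h2a : 2 * a ∈ L.lattice) : L.derivWeierstrassP a = 0 := by
  have h3 := L.derivWeierstrassP_add_coe (-a) ⟨2 * a, h2a⟩
  rw [L.derivWeierstrassP_neg] at h3
  have h4 : -a + ((⟨2 * a, h2a⟩ : L.lattice) : ℂ) = a := by
    show -a + 2 * a = a
    ring
  rw [h4] at h3
  have h7 : 2 * L.derivWeierstrassP a = 0 := by linear_combination h3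
  rcases mul_eq_zero.1 h7 with h | h
  · norm_num at h
  · exact h

variable (L)

theorem T_formula (a w : ℂ) (ha : a ∉ L.lattice) (hw : w ∉ L.lattice) (h1 : a + w ∉ L.lattice)
    (h2 : a - w ∉ L.lattice) :
    T2 L a w * (L.weierstrassP a - L.weierstrassP w) = L.derivWeierstrassP a := by
  by_cases h2a : 2 * a ∈ L.lattice
  · rw [A4_half h2a, A4_wpd_half h2a, zero_mul]
  · obtain ⟨c, hc⟩ := liouville L (A4_D L a) (A4_D_per L a) (A4_all ha h2a)
    obtain ⟨b, hb, hb0, h⟩ := A4_at_zero ha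
    have e1 := hc 0 b hb.continuousAt h
    have e2 : A4_D L a w = c := hc w (A4_D L a) (A4_D_analytic ha hw h1 h2).continuousAt
      (Filter.Eventually.of_forall fun z => rfl)
    show A4_D L a w = L.derivWeierstrassP a
    rw [e2, ← e1, hb0]

/-- T2 has a pole at w = a if 2a is not in the lattice. -/
theorem T2_pole (a : ℂ) (ha : a ∉ L.lattice) (h2a : 2 * a ∉ L.lattice) :
    ∀ᶠ w in nhdsWithin a {a}ᶜ, T2 L a w ≠ 0 := by
  have ha0 : a ≠ 0 := by
    rintro rfl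
    exact ha (zero_mem _)
  have hU : a ∈ A4_U L a 0 := by
    constructor
    · intro h
      apply h.2
      rw [sub_self]
      rfl
    · intro h
      apply h2a
      have := neg_mem h.1
      have e1 : -(-a - a) = 2 * a := by ring
      rwa [e1] at this
  have a1 := A4_analytic ha 0 a hU
  have a4 : ContinuousAt (fun w : ℂ => w ^ 2 * ((a ^ 2 - w ^ 2) * A4_Rex L a 0 w + 2 / a)) a := by
    have := a1.continuousAt
    fun_prop
  have hne : (fun w : ℂ => w ^ 2 * ((a ^ 2 - w ^ 2) * A4_Rex L a 0 w + 2 / a)) a ≠ 0 := by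
    simp only [sub_self, zero_mul, zero_add]
    exact mul_ne_zero (pow_ne_zero 2 ha0) (div_ne_zero two_ne_zero ha0)
  have hev : ∀ᶠ w in nhdsWithin a {a}ᶜ, w ^ 2 * ((a ^ 2 - w ^ 2) * A4_Rex L a 0 w + 2 / a) ≠ 0 :=
    (a4.eventually_ne hne).filter_mono nhdsWithin_le_nhds
  filter_upwards [hev, A4_ev (L := L) a a, self_mem_nhdsWithin] with w h1 h2 hw
  have hw' : w ≠ a := hw
  have hw1 : a - w ≠ 0 := sub_ne_zero.2 hw'.symm
  have hw2 : a + w ≠ 0 := by
    intro h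
    apply h2.1
    rw [h]
    exact zero_mem _
  have hq : a ^ 2 - w ^ 2 ≠ 0 := by
    have e1 : a ^ 2 - w ^ 2 = (a - w) * (a + w) := by ring
    rw [e1]
    exact mul_ne_zero hw1 hw2
  intro h0
  apply h1
  rw [A4_F_zero ha h2.1 h2.2] at h0
  have e2 : w ^ 2 * ((a ^ 2 - w ^ 2) * A4_Rex L a 0 w + 2 / a) =
      (a ^ 2 - w ^ 2) * (w ^ 2 * (A4_Rex L a 0 w + 2 / ((a ^ 2 - w ^ 2) * a))) := by
    field_simp
  rw [e2, h0, mul_zero]

end H35P
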