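import Mathlib
import Pool.Agent.Lib.H35P.E0

namespace H35P

variable (L : PeriodPair)

/-! Chunk A5 (M). The Weierstrass zeta function. ζ(z) = ∑' l : L.lattice, ((z - l)⁻¹ + l⁻¹ + z / l^2); for l = 0 the term is z⁻¹ (junk values).
Bound for 2 ‖z‖ ≤ ‖l‖: |(z-l)⁻¹ + l⁻¹ + z/l^2| = |z^2/(l^2 (z-l))| ≤ 2 ‖z‖^2 ‖l‖^(-3). Use L.hasSumLocallyUniformly_aux exactly as
in Mathlib's hasSumLocallyUniformly_weierstrassPExcept / weierstrassP, and differentiate termwise as in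
eqOn_deriv_weierstrassPExcept_derivWeierstrassPExcept (Mathlib/Analysis/SpecialFunctions/Elliptic/Weierstrass.lean), or as in
E1_hasSum / E1_analytic in Lib/H55N/E1.lean: the derivative of the term is -(1/(z-l)^2 - 1/l^2).
The second statement: the linear terms cancel, (a+w-l)⁻¹ + (a-w-l)⁻¹ - 2 (a-l)⁻¹, reindex l → -l. -/

/-- A term of the zeta function. -/
noncomputable def A5_t (l z : ℂ) : ℂ := (z - l)⁻¹ + l⁻¹ + z / l ^ 2

theorem A5_bound (r : ℝ) (hr : 0 < r) (s : ℂ) (hs : ‖s‖ < r) (l : ℂ) (h : 2 * r ≤ ‖l‖) :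
    ‖A5_t l s‖ ≤ 2 * r ^ 2 * ‖l‖ ^ (-3 : ℝ) := by
  have hl0 : 0 < ‖l‖ := by linarith
  have hl : l ≠ 0 := norm_pos_iff.1 hl0
  have h1 : ‖l‖ / 2 ≤ ‖s - l‖ := by
    have := norm_sub_norm_le l s
    rw [norm_sub_rev] at this
    linarith
  have h1' : 0 < ‖s - l‖ := by linarith
  have hsl : s - l ≠ 0 := norm_pos_iff.1 h1'
  have e1 : A5_t l s = s ^ 2 / (l ^ 2 * (s - l)) := by
    unfold A5_t
    field_simp
    ring
  have e2 : ‖l‖ ^ (-3 : ℝ) = 1 / ‖l‖ ^ 3 := by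
    rw [Real.rpow_neg hl0.le]
    norm_num
  rw [e1, e2, norm_div, norm_mul, norm_pow, norm_pow, mul_one_div]
  rw [div_le_div_iff₀ (by positivity) (by positivity)]
  calc ‖s‖ ^ 2 * ‖l‖ ^ 3 ≤ r ^ 2 * ‖l‖ ^ 3 := by gcongr
    _ = 2 * r ^ 2 * (‖l‖ ^ 2 * (‖l‖ / 2)) := by ring
    _ ≤ 2 * r ^ 2 * (‖l‖ ^ 2 * ‖s - l‖) := by gcongr

/-- The zeta function. -/
noncomputable def A5_z (z : ℂ) : ℂ := ∑' l : L.lattice, A5_t l.1 z

theorem A5_unif : HasSumLocallyUniformly (fun (l : L.lattice) (z : ℂ) => A5_t l.1 z) (A5_z L) := by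
  refine L.hasSumLocallyUniformly_aux (u := (2 * · ^ 2 * ‖·‖ ^ (-3 : ℝ))) _
    (fun _ _ => (ZLattice.summable_norm_rpow _ _ (by simp; norm_num)).mul_left _) fun r hr =>
    Filter.eventually_atTop.mpr ⟨2 * r, ?_⟩
  rintro _ h s hs l rfl
  exact A5_bound r hr s hs l h

theorem A5_term_deriv (l z : ℂ) (h : z ≠ l) : HasDerivAt (A5_t l) (-(1 / (z - l) ^ 2 - 1 / l ^ 2)) z := by
  have hz : z - l ≠ 0 := sub_ne_zero.2 h
  have h1 : HasDerivAt (fun z : ℂ => z - l) 1 z := (hasDerivAt_id z).sub_const l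
  have h2 : HasDerivAt (fun z : ℂ => (z - l)⁻¹) (-1 / (z - l) ^ 2) z := h1.inv hz
  have h3 : HasDerivAt (fun z : ℂ => z / l ^ 2) (1 / l ^ 2) z := (hasDerivAt_id z).div_const _
  have h4 := (h2.add_const l⁻¹).add h3
  refine h4.congr_deriv ?_
  ring

theorem A5_diffOn (s : Finset L.lattice) :
    DifferentiableOn ℂ (fun z => ∑ l ∈ s, A5_t l.1 z) (L.lattice : Set ℂ)ᶜ := by
  refine .fun_sum fun i _ => ?_
  intro z hz
  refine (A5_term_deriv i.1 z ?_).differentiableAt.differentiableWithinAt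
  rintro rfl
  exact hz i.2

theorem A5_hasDeriv (z : ℂ) (hz : z ∉ L.lattice) : HasDerivAt (A5_z L) (-L.weierstrassP z) z := by
  have ho : IsOpen ((L.lattice : Set ℂ)ᶜ) := L.isClosed_lattice.isOpen_compl
  have hu : TendstoLocallyUniformlyOn (fun (s : Finset L.lattice) (z : ℂ) => ∑ l ∈ s, A5_t l.1 z) (A5_z L)
      Filter.atTop (L.lattice : Set ℂ)ᶜ := (A5_unif L).tendstoLocallyUniformlyOn
  have hd : ∀ᶠ s : Finset L.lattice in Filter.atTop, DifferentiableOn ℂ (fun z => ∑ l ∈ s, A5_t l.1 z)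
      (L.lattice : Set ℂ)ᶜ := .of_forall fun s => A5_diffOn L s
  have h1 : DifferentiableAt ℂ (A5_z L) z :=
    (hu.differentiableOn hd ho).differentiableAt (ho.mem_nhds hz)
  have h2 := (hu.deriv hd ho).tendsto_at (show z ∈ (L.lattice : Set ℂ)ᶜ from hz)
  have h3 : Filter.Tendsto (fun s : Finset L.lattice => ∑ l ∈ s, (-(1 / (z - l.1) ^ 2 - 1 / l.1 ^ 2)))
      Filter.atTop (nhds (-L.weierstrassP z)) := (L.hasSum_weierstrassP z).neg
  have h4 : deriv (A5_z L) z = -L.weierstrassP z := by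
    refine tendsto_nhds_unique h2 (h3.congr fun s => ?_)
    have h5 : HasDerivAt (fun z : ℂ => ∑ l ∈ s, A5_t (l : L.lattice).1 z)
        (∑ l ∈ s, (-(1 / (z - l.1) ^ 2 - 1 / l.1 ^ 2))) z := by
      refine HasDerivAt.fun_sum fun i _ => A5_term_deriv i.1 z ?_
      rintro rfl
      exact hz i.2
    exact h5.deriv.symm
  rw [← h4]
  exact h1.hasDerivAt

theorem A5_sum (a w : ℂ) : HasSum (tT L a w) (A5_z L (a + w) + A5_z L (a - w) - 2 * A5_z L a) := by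
  have h : ∀ z : ℂ, HasSum (fun l : L.lattice => A5_t l.1 z) (A5_z L z) := fun z => (A5_unif L).hasSum
  have h1 := ((h (a + w)).add (h (a - w))).sub ((h a).mul_left 2)
  rw [← (Equiv.neg L.lattice).hasSum_iff]
  refine h1.congr_fun ?_
  intro l
  show tT L a w (-l) = _
  unfold tT A5_t
  rw [NegMemClass.coe_neg]
  ring

theorem zeta_exists : ∃ ζ : ℂ → ℂ,
    (∀ z : ℂ, z ∉ L.lattice → HasDerivAt ζ (-L.weierstrassP z) z) ∧
    ∀ a w : ℂ, HasSum (tT L a w) (ζ (a + w) + ζ (a - w) - 2 * ζ a) :=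
  ⟨A5_z L, A5_hasDeriv L, A5_sum L⟩

end H35P
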