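import Mathlib
import Pool.Agent.Lib.H35P.A4
import Pool.Agent.Lib.H35P.A5

namespace H35P

variable (L : PeriodPair)

/-! Chunk A6 (M). p = ℘ a, q = ℘ w, p' = ℘' a, q' = ℘' w, δ = p - q. By zeta_exists and T_formula, for all (a, w) in the open set
a, w, a + w, a - w not in the lattice, ℘ a ≠ ℘ w: ζ(a+w) + ζ(a-w) - 2ζ(a) = p'/δ.
Differentiate in a: -℘(a+w) - ℘(a-w) + 2p = (W δ - p'^2)/δ^2 with W = 6p^2 - g₂/2 (wpd_hasDeriv).
Differentiate in w: -℘(a+w) + ℘(a-w) = p' q'/δ^2.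
Sum: 2p - 2℘(a+w) = W/δ - p'^2/δ^2 + p'q'/δ^2, and with p'^2 = 4p^3 - g₂p - g₃, q'^2 = 4q^3 - g₂q - g₃ this is add_x.
add_y: differentiate add_x in w: ℘'(a+w) = (m/2) dm/dw - q', dm/dw = (-(6q^2 - g₂/2) δ + (p' - q') q')/δ^2, and use the
equations again (field_simp, linear_combination). -/

private theorem A6_alg_x (p q p' q' g2 g3 x y : ℂ) (hd : p - q ≠ 0) (hp : p' ^ 2 = 4 * p ^ 3 - g2 * p - g3)
    (hq : q' ^ 2 = 4 * q ^ 3 - g2 * q - g3)
    (h1 : -x + -y - 2 * -p = ((6 * p ^ 2 - g2 / 2) * (p - q) - p' * p') / (p - q) ^ 2)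
    (h2 : -x + - -y - 0 = (0 * (p - q) - p' * (0 - q')) / (p - q) ^ 2) :
    x = ((p' - q') / (p - q)) ^ 2 / 4 - p - q := by
  have e1 : x = p - (((6 * p ^ 2 - g2 / 2) * (p - q) - p' * p') / (p - q) ^ 2
      + (0 * (p - q) - p' * (0 - q')) / (p - q) ^ 2) / 2 := by
    rw [← h1, ← h2]
    ring
  rw [e1]
  field_simp
  linear_combination 4 * hp - 4 * hq

private theorem A6_alg_y (p q p' q' g2 g3 x y m : ℂ) (hd : p - q ≠ 0) (hp : p' ^ 2 = 4 * p ^ 3 - g2 * p - g3)
    (hq : q' ^ 2 = 4 * q ^ 3 - g2 * q - g3) (hm : m = (p' - q') / (p - q))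
    (hx : x = m ^ 2 / 4 - p - q)
    (h1 : y = 2 * m * (((0 - (6 * q ^ 2 - g2 / 2)) * (p - q) - (p' - q') * (0 - q')) / (p - q) ^ 2) / 4 - 0 - q') :
    y = -(q' + m * (x - q)) := by
  have key : (((0 - (6 * q ^ 2 - g2 / 2)) * (p - q) - (p' - q') * (0 - q')) / (p - q) ^ 2) / 2
      + m ^ 2 / 4 - p - 2 * q = 0 := by
    rw [hm]
    field_simp
    linear_combination 4 * hp - 4 * hq
  rw [h1, hx]
  linear_combination m * key

theorem A6_ev (a w : ℂ) (ha : a ∉ L.lattice) (hw : w ∉ L.lattice) (h1 : a + w ∉ L.lattice)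
    (h2 : a - w ∉ L.lattice) (hne : L.weierstrassP a ≠ L.weierstrassP w) :
    (∀ᶠ x in nhds a, x ∉ L.lattice ∧ x + w ∉ L.lattice ∧ x - w ∉ L.lattice ∧
      L.weierstrassP x ≠ L.weierstrassP w) ∧
    ∀ᶠ y in nhds w, y ∉ L.lattice ∧ a + y ∉ L.lattice ∧ a - y ∉ L.lattice ∧
      L.weierstrassP a ≠ L.weierstrassP y := by
  have ho := compl_open L
  have hev : ∀ (f : ℂ → ℂ) (c : ℂ), Continuous f → f c ∉ L.lattice → ∀ᶠ x in nhds c, f x ∉ L.lattice := by
    intro f c hf hc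
    exact hf.continuousAt.eventually (ho.mem_nhds hc)
  constructor
  · have i4 : ∀ᶠ x in nhds a, L.weierstrassP x ≠ L.weierstrassP w :=
      (wp_analytic L a ha).continuousAt.eventually_ne hne
    filter_upwards [hev id a continuous_id ha, hev (fun x => x + w) a (by fun_prop) h1,
      hev (fun x => x - w) a (by fun_prop) h2, i4] with x j1 j2 j3 j4
    exact ⟨j1, j2, j3, j4⟩
  · have i4 : ∀ᶠ x in nhds w, L.weierstrassP x ≠ L.weierstrassP a :=
      (wp_analytic L w hw).continuousAt.eventually_ne hne.symm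
    filter_upwards [hev id w continuous_id hw, hev (fun x => a + x) w (by fun_prop) h1,
      hev (fun x => a - x) w (by fun_prop) h2, i4] with x j1 j2 j3 j4
    exact ⟨j1, j2, j3, j4.symm⟩

theorem add_x (a w : ℂ) (ha : a ∉ L.lattice) (hw : w ∉ L.lattice) (h1 : a + w ∉ L.lattice)
    (h2 : a - w ∉ L.lattice) (hne : L.weierstrassP a ≠ L.weierstrassP w) :
    L.weierstrassP (a + w) = (mc L a w) ^ 2 / 4 - L.weierstrassP a - L.weierstrassP w := by
  obtain ⟨ζ, hζ, hsum⟩ := zeta_exists L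
  have hd : L.weierstrassP a - L.weierstrassP w ≠ 0 := sub_ne_zero.2 hne
  have key : ∀ x y : ℂ, x ∉ L.lattice → y ∉ L.lattice → x + y ∉ L.lattice → x - y ∉ L.lattice →
      L.weierstrassP x ≠ L.weierstrassP y →
      L.derivWeierstrassP x / (L.weierstrassP x - L.weierstrassP y) = ζ (x + y) + ζ (x - y) - 2 * ζ x := by
    intro x y hx hy hxy hxy' hn
    rw [← (hsum x y).tsum_eq, div_eq_iff (sub_ne_zero.2 hn)]
    exact (T_formula L x y hx hy hxy hxy').symm
  obtain ⟨eva, evw⟩ := A6_ev L a w ha hw h1 h2 hne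
  have da : HasDerivAt (fun x => ζ (x + w) + ζ (x - w) - 2 * ζ x)
      (-L.weierstrassP (a + w) + -L.weierstrassP (a - w) - 2 * -L.weierstrassP a) a :=
    (((hζ _ h1).comp_add_const a w).add ((hζ _ h2).comp_sub_const a w)).sub ((hζ a ha).const_mul 2)
  have da' := (wpd_hasDeriv L a ha).div ((wp_hasDeriv L a ha).sub_const (L.weierstrassP w)) hd
  have e1 := da'.unique (da.congr_of_eventuallyEq (by
    filter_upwards [eva] with x hx
    exact key x w hx.1 hw hx.2.1 hx.2.2.1 hx.2.2.2))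
  have dw : HasDerivAt (fun y => ζ (a + y) + ζ (a - y) - 2 * ζ a)
      (-L.weierstrassP (a + w) + - -L.weierstrassP (a - w) - 0) w :=
    (((hζ _ h1).comp_const_add a w).add ((hζ _ h2).comp_const_sub a w)).sub (hasDerivAt_const w _)
  have dw' := (hasDerivAt_const w (L.derivWeierstrassP a)).div
    ((hasDerivAt_const w (L.weierstrassP a)).sub (wp_hasDeriv L w hw)) hd
  have e2 := dw'.unique (dw.congr_of_eventuallyEq (by
    filter_upwards [evw] with x hx
    exact key a x ha hx.1 hx.2.1 hx.2.2.1 hx.2.2.2))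
  exact A6_alg_x _ _ _ _ L.g₂ L.g₃ _ _ hd (L.derivWeierstrassP_sq a ha) (L.derivWeierstrassP_sq w hw) e1.symm e2.symm

theorem add_y (a w : ℂ) (ha : a ∉ L.lattice) (hw : w ∉ L.lattice) (h1 : a + w ∉ L.lattice)
    (h2 : a - w ∉ L.lattice) (hne : L.weierstrassP a ≠ L.weierstrassP w) :
    L.derivWeierstrassP (a + w) =
      -(L.derivWeierstrassP w + mc L a w * (L.weierstrassP (a + w) - L.weierstrassP w)) := by
  have hd : L.weierstrassP a - L.weierstrassP w ≠ 0 := sub_ne_zero.2 hne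
  obtain ⟨-, evw⟩ := A6_ev L a w ha hw h1 h2 hne
  have dl : HasDerivAt (fun y => L.weierstrassP (a + y)) (L.derivWeierstrassP (a + w)) w :=
    (wp_hasDeriv L _ h1).comp_const_add a w
  have dm : HasDerivAt (fun y => mc L a y) _ w :=
    ((hasDerivAt_const w (L.derivWeierstrassP a)).sub (wpd_hasDeriv L w hw)).div
      ((hasDerivAt_const w (L.weierstrassP a)).sub (wp_hasDeriv L w hw)) hd
  have dr := (((dm.pow 2).div_const 4).sub (hasDerivAt_const w (L.weierstrassP a))).sub (wp_hasDeriv L w hw)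
  have e := dl.unique (dr.congr_of_eventuallyEq (by
    filter_upwards [evw] with x hx
    exact add_x L a x ha hx.1 hx.2.1 hx.2.2.1 hx.2.2.2))
  refine A6_alg_y _ _ _ _ L.g₂ L.g₃ _ _ _ hd (L.derivWeierstrassP_sq a ha) (L.derivWeierstrassP_sq w hw) rfl
    (add_x L a w ha hw h1 h2 hne) ?_
  rw [e]
  simp only [Nat.cast_ofNat, Nat.add_one_sub_one, pow_one]
  rfl

end H35P
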