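import Mathlib
import Pool.Agent.Lib.H35P.A6

namespace H35P

variable (L : PeriodPair)

/-- A punctured neighbourhood condition through an injective map. -/
private theorem A7_ev (f : ℂ → ℂ) (z₀ : ℂ) (hf : ContinuousAt f z₀) (hinj : Function.Injective f) :
    ∀ᶠ u in nhdsWithin z₀ {z₀}ᶜ, f u ∉ L.lattice :=
  (tendsto_punct f z₀ hf hinj).eventually (ev_compl L (f z₀))

private theorem A7_ne0 : ∀ᶠ z in nhdsWithin (0 : ℂ) {0}ᶜ, L.weierstrassP z ≠ 0 := by
  obtain ⟨u, hu, hu0, hwp⟩ := wp_zero L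
  have hid : Filter.Tendsto (fun z : ℂ => z) (nhdsWithin (0 : ℂ) {0}ᶜ) (nhds 0) :=
    tendsto_nhdsWithin_of_tendsto_nhds Filter.tendsto_id
  have hut : Filter.Tendsto u (nhdsWithin (0 : ℂ) {0}ᶜ) (nhds 0) := by
    have := hu.continuousAt.tendsto
    rw [hu0] at this
    exact this.comp hid
  have h2 : Filter.Tendsto (fun z : ℂ => 1 + z ^ 2 * u z) (nhdsWithin (0 : ℂ) {0}ᶜ) (nhds 1) := by
    have := ((hid.pow 2).mul hut).const_add 1
    simpa using this
  filter_upwards [h2.eventually_ne one_ne_zero, self_mem_nhdsWithin] with z h3 h4 h5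
  have hz0 : z ≠ 0 := h4
  apply h3
  have h6 := hwp z hz0
  rw [h5] at h6
  have h7 : z ^ 2 * (z ^ 2)⁻¹ = 1 := mul_inv_cancel₀ (pow_ne_zero 2 hz0)
  linear_combination (-(z ^ 2)) * h6 - h7

/-! Chunk A7 (M). wpd_ne: if ℘'(a) = 0 then T2 L a w (℘ a - ℘ w) = 0 for w near a (T_formula); ℘ w ≠ ℘ a near a (wp_nonconst), so T2 L a w = 0
near a: contradiction with T2_pole.
wp_ne: suppose ℘ a = ℘ w. By T_formula (both orders) ℘'(a) = 0 = ℘'(w). For u near -w, u ≠ -w: ℘ u ≠ ℘(-w) = ℘ w = ℘ a, and u, a ± u, w ± u not in the lattice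
(ev_compl, tendsto_punct; near -w the point a + u is near a - w which is not in the lattice, w + u ≠ 0 is small; a - u is near a + w; w - u is near 2w, use ev_compl). By add_x:
℘(a+u) = ℘'(u)^2/(4(℘ a - ℘ u)^2) - ℘ a - ℘ u = ℘(w+u). Let u → -w: the left side tends to ℘(a-w), the right side has inverse tending to 0
(wp_inv_tendsto) and so ℘(w+u) is unbounded: contradiction. -/

theorem wpd_ne (a : ℂ) (ha : a ∉ L.lattice) (h2 : 2 * a ∉ L.lattice) : L.derivWeierstrassP a ≠ 0 := by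
  intro h0
  have hopen := compl_open L
  have hnc := wp_nonconst L a ha (L.weierstrassP a)
  have hpole := T2_pole L a ha h2
  have e1 : ∀ᶠ w in nhdsWithin a {a}ᶜ, w ∉ L.lattice := nhdsWithin_le_nhds (hopen.mem_nhds ha)
  have e2 : ∀ᶠ w in nhdsWithin a {a}ᶜ, a + w ∉ L.lattice :=
    A7_ev L (fun w => a + w) a (by fun_prop) (add_right_injective a)
  have e3 : ∀ᶠ w in nhdsWithin a {a}ᶜ, a - w ∉ L.lattice :=
    A7_ev L (fun w => a - w) a (by fun_prop) (sub_right_injective)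
  obtain ⟨w, hw1, hw2, hw3, hw4, hw5⟩ := (hnc.and (hpole.and (e1.and (e2.and e3)))).exists
  have hT := T_formula L a w ha hw3 hw4 hw5
  rw [h0] at hT
  rcases mul_eq_zero.1 hT with h | h
  · exact hw2 h
  · exact hw1 (sub_eq_zero.1 h).symm

theorem wp_ne (a w : ℂ) (ha : a ∉ L.lattice) (hw : w ∉ L.lattice) (h1 : a + w ∉ L.lattice)
    (h2 : a - w ∉ L.lattice) : L.weierstrassP a ≠ L.weierstrassP w := by
  intro heq
  have hopen := compl_open L
  have h1' : w + a ∉ L.lattice := by rwa [add_comm]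
  have h2' : w - a ∉ L.lattice := fun h => h2 (by simpa using L.lattice.neg_mem h)
  have hpa : L.derivWeierstrassP a = 0 := by
    rw [← T_formula L a w ha hw h1 h2, heq, sub_self, mul_zero]
  have hpw : L.derivWeierstrassP w = 0 := by
    rw [← T_formula L w a hw ha h1' h2', heq, sub_self, mul_zero]
  have hnw : -w ∉ L.lattice := fun h => hw (by simpa using L.lattice.neg_mem h)
  have e1 : ∀ᶠ u in nhdsWithin (-w) {-w}ᶜ, u ∉ L.lattice := nhdsWithin_le_nhds (hopen.mem_nhds hnw)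
  have e2 : ∀ᶠ u in nhdsWithin (-w) {-w}ᶜ, a + u ∉ L.lattice :=
    A7_ev L (fun u => a + u) (-w) (by fun_prop) (add_right_injective a)
  have e3 : ∀ᶠ u in nhdsWithin (-w) {-w}ᶜ, a - u ∉ L.lattice :=
    A7_ev L (fun u => a - u) (-w) (by fun_prop) (sub_right_injective)
  have e4 : ∀ᶠ u in nhdsWithin (-w) {-w}ᶜ, w + u ∉ L.lattice :=
    A7_ev L (fun u => w + u) (-w) (by fun_prop) (add_right_injective w)
  have e5 : ∀ᶠ u in nhdsWithin (-w) {-w}ᶜ, w - u ∉ L.lattice :=
    A7_ev L (fun u => w - u) (-w) (by fun_prop) (sub_right_injective)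
  have e6 := wp_nonconst L (-w) hnw (L.weierstrassP w)
  have htp : Filter.Tendsto (fun u => w + u) (nhdsWithin (-w) {-w}ᶜ) (nhdsWithin (0 : ℂ) {0}ᶜ) := by
    have := tendsto_punct (fun u => w + u) (-w) (by fun_prop) (add_right_injective w)
    simpa using this
  have e7 : ∀ᶠ u in nhdsWithin (-w) {-w}ᶜ, L.weierstrassP (w + u) ≠ 0 := htp.eventually (A7_ne0 L)
  have hev : ∀ᶠ u in nhdsWithin (-w) {-w}ᶜ, L.weierstrassP (a + u) * (L.weierstrassP (w + u))⁻¹ = 1 := by
    filter_upwards [e1, e2, e3, e4, e5, e6, e7] with u u1 u2 u3 u4 u5 u6 u7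
    have hx1 := add_x L a u ha u1 u2 u3 (by rw [heq]; exact fun h => u6 h.symm)
    have hx2 := add_x L w u hw u1 u4 u5 (fun h => u6 h.symm)
    have hmc : mc L a u = mc L w u := by
      unfold mc
      rw [hpa, hpw, heq]
    rw [hx1, hmc, heq, ← hx2, mul_inv_cancel₀ u7]
  have hlim1 : Filter.Tendsto (fun u => L.weierstrassP (a + u)) (nhdsWithin (-w) {-w}ᶜ) (nhds (L.weierstrassP (a - w))) := by
    have hc : ContinuousAt (fun u => L.weierstrassP (a + u)) (-w) := by
      have h5 : ContinuousAt L.weierstrassP (a + -w) := (wp_analytic L (a + -w) (by rwa [← sub_eq_add_neg])).continuousAt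
      exact ContinuousAt.comp (f := fun u => a + u) h5 (by fun_prop)
    have := hc.tendsto.mono_left (nhdsWithin_le_nhds (s := {-w}ᶜ))
    simpa [← sub_eq_add_neg] using this
  have hlim2 := hlim1.mul ((wp_inv_tendsto L).comp htp)
  rw [mul_zero] at hlim2
  have hlim3 : Filter.Tendsto (fun u => L.weierstrassP (a + u) * (L.weierstrassP (w + u))⁻¹)
      (nhdsWithin (-w) {-w}ᶜ) (nhds 1) := (Filter.tendsto_congr' hev).2 tendsto_const_nhds
  exact zero_ne_one (tendsto_nhds_unique hlim2 hlim3)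

end H35P
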