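import Mathlib
import Pool.Agent.Lib.H35P.A7

namespace H35P

variable (L : PeriodPair)

/-! Chunk A8 (M). mc_tendsto: (℘'a - ℘'w)/(℘a - ℘w) = slope of ℘' / slope of ℘, both slopes converge (hasDerivAt_iff_tendsto_slope; wp_hasDeriv, wpd_hasDeriv),
wpd_ne. dbl_x, dbl_y: let w → a in add_x, add_y (valid for w near a, w ≠ a, by ev_compl, tendsto_punct and wp_ne), by continuity of ℘, ℘' at
2a and a. -/

open Filter Topology in
theorem mc_tendsto (a : ℂ) (ha : a ∉ L.lattice) (h2 : 2 * a ∉ L.lattice) :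
    Filter.Tendsto (fun w => mc L a w) (nhdsWithin a {a}ᶜ) (nhds (md L a)) := by
  have t1 := hasDerivAt_iff_tendsto_slope.1 (wpd_hasDeriv L a ha)
  have t2 := hasDerivAt_iff_tendsto_slope.1 (wp_hasDeriv L a ha)
  have t3 := t1.div t2 (wpd_ne L a ha h2)
  refine t3.congr' ?_
  filter_upwards [self_mem_nhdsWithin] with w hw
  have hw' : w - a ≠ 0 := sub_ne_zero.2 hw
  simp only [Pi.div_apply]
  rw [slope_def_field, slope_def_field, div_div_div_cancel_right₀ hw', mc, ← neg_sub,
    ← neg_sub (L.weierstrassP a), neg_div_neg_eq]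

/-- The three conditions of the addition formulas hold near `a`. -/
theorem a8_ev (a : ℂ) (ha : a ∉ L.lattice) (h2 : 2 * a ∉ L.lattice) :
    ∀ᶠ w in nhdsWithin a {a}ᶜ, w ∉ L.lattice ∧ a + w ∉ L.lattice ∧ a - w ∉ L.lattice := by
  have h1 : ∀ᶠ w in nhdsWithin a {a}ᶜ, w ∉ L.lattice := ev_compl L a
  have h3 : ∀ᶠ w in nhdsWithin a {a}ᶜ, a + w ∉ L.lattice := by
    have hc : ContinuousAt (fun w : ℂ => a + w) a := by fun_prop
    have := hc.eventually_mem ((compl_open L).mem_nhds (show a + a ∈ _ by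
      change a + a ∉ L.lattice
      rw [← two_mul]
      exact h2))
    exact this.filter_mono nhdsWithin_le_nhds
  have h4 : ∀ᶠ w in nhdsWithin a {a}ᶜ, a - w ∉ L.lattice := by
    have ht := tendsto_punct (fun w : ℂ => a - w) a (by fun_prop) (fun x y h => by
      simpa using h)
    exact ht.eventually (ev_compl L (a - a))
  filter_upwards [h1, h3, h4] with w q1 q2 q3
  exact ⟨q1, q2, q3⟩

open Filter Topology in
theorem a8_cont (f : ℂ → ℂ) (a : ℂ) (hf : ContinuousAt f (2 * a)) :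
    Filter.Tendsto (fun w => f (a + w)) (nhdsWithin a {a}ᶜ) (nhds (f (2 * a))) := by
  have h1 : ContinuousAt (fun w : ℂ => f (a + w)) a := by
    refine ContinuousAt.comp (g := f) (f := fun w : ℂ => a + w) ?_ (by fun_prop)
    rw [← two_mul]
    exact hf
  have h2 : Filter.Tendsto (fun w => f (a + w)) (nhdsWithin a {a}ᶜ) (nhds (f (a + a))) :=
    h1.tendsto.mono_left nhdsWithin_le_nhds
  rwa [← two_mul] at h2

theorem dbl_x (a : ℂ) (ha : a ∉ L.lattice) (h2 : 2 * a ∉ L.lattice) :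
    L.weierstrassP (2 * a) = (md L a) ^ 2 / 4 - L.weierstrassP a - L.weierstrassP a := by
  have t1 := a8_cont L.weierstrassP a (wp_analytic L _ h2).continuousAt
  have t2 : Filter.Tendsto L.weierstrassP (nhdsWithin a {a}ᶜ) (nhds (L.weierstrassP a)) :=
    (wp_analytic L _ ha).continuousAt.tendsto.mono_left nhdsWithin_le_nhds
  have t3 := (((mc_tendsto L a ha h2).pow 2).div_const 4).sub_const (L.weierstrassP a)
  refine tendsto_nhds_unique_of_eventuallyEq t1 (t3.sub t2) ?_
  filter_upwards [a8_ev L a ha h2] with w hw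
  exact add_x L a w ha hw.1 hw.2.1 hw.2.2 (wp_ne L a w ha hw.1 hw.2.1 hw.2.2)

theorem dbl_y (a : ℂ) (ha : a ∉ L.lattice) (h2 : 2 * a ∉ L.lattice) :
    L.derivWeierstrassP (2 * a) =
      -(L.derivWeierstrassP a + md L a * (L.weierstrassP (2 * a) - L.weierstrassP a)) := by
  have t1 := a8_cont L.derivWeierstrassP a (wpd_analytic L _ h2).continuousAt
  have t0 := a8_cont L.weierstrassP a (wp_analytic L _ h2).continuousAt
  have t2 : Filter.Tendsto L.weierstrassP (nhdsWithin a {a}ᶜ) (nhds (L.weierstrassP a)) :=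
    (wp_analytic L _ ha).continuousAt.tendsto.mono_left nhdsWithin_le_nhds
  have t3 : Filter.Tendsto L.derivWeierstrassP (nhdsWithin a {a}ᶜ) (nhds (L.derivWeierstrassP a)) :=
    (wpd_analytic L _ ha).continuousAt.tendsto.mono_left nhdsWithin_le_nhds
  have t4 := (t3.add ((mc_tendsto L a ha h2).mul (t0.sub t2))).neg
  refine tendsto_nhds_unique_of_eventuallyEq t1 t4 ?_
  filter_upwards [a8_ev L a ha h2] with w hw
  exact add_y L a w ha hw.1 hw.2.1 hw.2.2 (wp_ne L a w ha hw.1 hw.2.1 hw.2.2)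

end H35P
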