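import Mathlib
import Pool.Agent.Lib.H35P.A8

open WeierstrassCurve

namespace H35P

variable (L : PeriodPair)

/-- The curve y^2 = x^3 + A x + B. -/
def WAB {k : Type} [Field k] (A B : k) : WeierstrassCurve k := ⟨0, 0, 0, A, B⟩

private theorem B1_addX {k : Type} [Field k] (A B x₁ x₂ l : k) : (WAB A B).toAffine.addX x₁ x₂ l = l ^ 2 - x₁ - x₂ := by
  unfold Affine.addX WAB
  ring

private theorem B1_negY {k : Type} [Field k] (A B x y : k) : (WAB A B).toAffine.negY x y = -y := by
  unfold Affine.negY WAB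
  ring

private theorem B1_addY {k : Type} [Field k] (A B x₁ x₂ y₁ l : k) : (WAB A B).toAffine.addY x₁ x₂ y₁ l =
    -(l * (l ^ 2 - x₁ - x₂ - x₁) + y₁) := by
  unfold Affine.addY Affine.negAddY
  rw [B1_negY, B1_addX]

private theorem B1_delta {k : Type} [Field k] (A B : k) : (WAB A B).Δ = -16 * (4 * A ^ 3 + 27 * B ^ 2) := by
  unfold WeierstrassCurve.Δ WeierstrassCurve.b₂ WeierstrassCurve.b₄ WeierstrassCurve.b₆ WeierstrassCurve.b₈ WAB
  ring

/-! Chunk B1 (M). eq_pt: derivWeierstrassP_sq. nonsing_pt: WAB has Δ = -16 (4A^3 + 27B^2) ≠ 0, Affine.equation_iff_nonsingular (IsElliptic).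
slope_pt: x = ℘/Om^2, y = ℘'/(2 Om^3). Chord: slope = (mc/2)/Om. Tangent: (3x^2 + A)/(2y) = (md/2)/Om with g₂ = -4 A Om^4.
pt_exists: pt z = if z in the lattice then 0 else some (..). Additivity: cases a in L, w in L (periodicity, weierstrassP_add_coe), a + w in L (then w = -a + l and
pt w = -pt a), a - w in L (w = a + l: doubling, dbl_x, dbl_y, 2a ∉ L), otherwise add_x, add_y, wp_ne. Affine.Point.add_some, addX, addY, negY. -/

theorem eq_pt (A B Om : ℂ) (hO : Om ≠ 0) (g2 : L.g₂ = -4 * A * Om ^ 4) (g3 : L.g₃ = -4 * B * Om ^ 6) (z : ℂ)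
    (hz : z ∉ L.lattice) : (WAB A B).toAffine.Equation (L.weierstrassP z / Om ^ 2) (L.derivWeierstrassP z / (2 * Om ^ 3)) := by
  rw [Affine.equation_iff]
  have h := L.derivWeierstrassP_sq z hz
  rw [g2, g3] at h
  have e : (L.derivWeierstrassP z / (2 * Om ^ 3)) ^ 2 = (L.derivWeierstrassP z) ^ 2 / (4 * Om ^ 6) := by
    rw [div_pow]
    ring
  simp only [WAB]
  rw [e, h]
  field_simp
  ring

theorem slope_chord (A B Om : ℂ) (hO : Om ≠ 0) (a w : ℂ)
    (hne : L.weierstrassP a ≠ L.weierstrassP w) :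
    (WAB A B).toAffine.slope (L.weierstrassP a / Om ^ 2) (L.weierstrassP w / Om ^ 2)
      (L.derivWeierstrassP a / (2 * Om ^ 3)) (L.derivWeierstrassP w / (2 * Om ^ 3)) = mc L a w / 2 / Om := by
  have hx : L.weierstrassP a / Om ^ 2 ≠ L.weierstrassP w / Om ^ 2 := by
    intro h
    rw [div_left_inj' (pow_ne_zero 2 hO)] at h
    exact hne h
  rw [Affine.slope_of_X_ne hx]
  have h0 : L.weierstrassP a - L.weierstrassP w ≠ 0 := sub_ne_zero.2 hne
  unfold mc
  rw [← sub_div, ← sub_div]
  field_simp

theorem slope_tangent (A B Om : ℂ) (hO : Om ≠ 0) (g2 : L.g₂ = -4 * A * Om ^ 4) (a : ℂ)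
    (hne : L.derivWeierstrassP a ≠ 0) :
    (WAB A B).toAffine.slope (L.weierstrassP a / Om ^ 2) (L.weierstrassP a / Om ^ 2)
      (L.derivWeierstrassP a / (2 * Om ^ 3)) (L.derivWeierstrassP a / (2 * Om ^ 3)) = md L a / 2 / Om := by
  have hy : L.derivWeierstrassP a / (2 * Om ^ 3) ≠
      (WAB A B).toAffine.negY (L.weierstrassP a / Om ^ 2) (L.derivWeierstrassP a / (2 * Om ^ 3)) := by
    rw [B1_negY]
    intro h
    have h2 : L.derivWeierstrassP a / (2 * Om ^ 3) = 0 := by linear_combination h / 2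
    rw [div_eq_zero_iff] at h2
    rcases h2 with h2 | h2
    · exact hne h2
    · exact mul_ne_zero two_ne_zero (pow_ne_zero 3 hO) h2
  rw [Affine.slope_of_Y_ne rfl hy, B1_negY]
  unfold md
  rw [g2]
  simp only [WAB]
  field_simp
  ring

/-- The Weierstrass uniformisation. -/
theorem pt_exists (A B Om : ℂ) (hO : Om ≠ 0) (g2 : L.g₂ = -4 * A * Om ^ 4) (g3 : L.g₃ = -4 * B * Om ^ 6)
    (hd : 4 * A ^ 3 + 27 * B ^ 2 ≠ 0) : ∃ pt : ℂ →+ (WAB A B).toAffine.Point,
      (∀ z ∈ L.lattice, pt z = 0) ∧
      ∀ z ∉ L.lattice, ∃ h, pt z = .some (L.weierstrassP z / Om ^ 2) (L.derivWeierstrassP z / (2 * Om ^ 3)) h := by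
  classical
  have hΔ : (WAB A B).Δ ≠ 0 := by
    rw [B1_delta]
    exact mul_ne_zero (by norm_num) hd
  have hns : ∀ z, z ∉ L.lattice → (WAB A B).toAffine.Nonsingular (L.weierstrassP z / Om ^ 2)
      (L.derivWeierstrassP z / (2 * Om ^ 3)) := fun z hz =>
    (Affine.equation_iff_nonsingular_of_Δ_ne_zero (W := (WAB A B).toAffine) hΔ).1 (eq_pt L A B Om hO g2 g3 z hz)
  set pt : ℂ → (WAB A B).toAffine.Point := fun z => if h : z ∈ L.lattice then 0 else
    .some (L.weierstrassP z / Om ^ 2) (L.derivWeierstrassP z / (2 * Om ^ 3)) (hns z h) with hpt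
  have p0 : ∀ z, z ∈ L.lattice → pt z = 0 := fun z hz => by
    simp only [hpt, dif_pos hz]
  have p1 : ∀ z (hz : z ∉ L.lattice), pt z = .some (L.weierstrassP z / Om ^ 2) (L.derivWeierstrassP z / (2 * Om ^ 3)) (hns z hz) :=
    fun z hz => by simp only [hpt, dif_neg hz]
  have hper : ∀ z l, l ∈ L.lattice → pt (z + l) = pt z := by
    intro z l hl
    by_cases hz : z ∈ L.lattice
    · rw [p0 z hz, p0 _ (L.lattice.add_mem hz hl)]
    · have hzl : z + l ∉ L.lattice := fun h => hz (by simpa using L.lattice.sub_mem h hl)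
      rw [p1 z hz, p1 _ hzl, Affine.Point.some.injEq]
      have e1 := L.weierstrassP_add_coe z ⟨l, hl⟩
      have e2 := L.derivWeierstrassP_add_coe z ⟨l, hl⟩
      exact ⟨by rw [e1], by rw [e2]⟩
  have hadd : ∀ a w, pt (a + w) = pt a + pt w := by
    intro a w
    by_cases ha : a ∈ L.lattice
    · rw [p0 a ha, zero_add, add_comm, hper w a ha]
    by_cases hw : w ∈ L.lattice
    · rw [p0 w hw, add_zero, hper a w hw]
    by_cases h1 : a + w ∈ L.lattice
    · rw [p0 _ h1, p1 a ha, p1 w hw]
      have e1 : L.weierstrassP w = L.weierstrassP a := by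
        have := L.weierstrassP_add_coe (-a) ⟨a + w, h1⟩
        rw [L.weierstrassP_neg] at this
        rw [← this]
        congr 1
        simp
      have e2 : L.derivWeierstrassP w = -L.derivWeierstrassP a := by
        have := L.derivWeierstrassP_add_coe (-a) ⟨a + w, h1⟩
        rw [L.derivWeierstrassP_neg] at this
        rw [← this]
        congr 1
        simp
      refine (Affine.Point.add_of_Y_eq ?_ ?_).symm
      · rw [e1]
      · rw [B1_negY, e2]
        ring
    by_cases h2 : a - w ∈ L.lattice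
    · -- doubling
      have hwa : w = a + -(a - w) := by ring
      have hpw : pt w = pt a := by
        rw [hwa]
        exact hper a _ (L.lattice.neg_mem h2)
      have haw : pt (a + w) = pt (2 * a) := by
        have : a + w = 2 * a + -(a - w) := by ring
        rw [this]
        exact hper _ _ (L.lattice.neg_mem h2)
      have h2a : 2 * a ∉ L.lattice := by
        intro h
        apply h1
        have : a + w = 2 * a - (a - w) := by ring
        rw [this]
        exact L.lattice.sub_mem h h2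
      have hne := wpd_ne L a ha h2a
      rw [hpw, haw, p1 _ h2a, p1 a ha]
      have hxy : ¬(L.weierstrassP a / Om ^ 2 = L.weierstrassP a / Om ^ 2 ∧ L.derivWeierstrassP a / (2 * Om ^ 3) =
          (WAB A B).toAffine.negY (L.weierstrassP a / Om ^ 2) (L.derivWeierstrassP a / (2 * Om ^ 3))) := by
        rintro ⟨-, h⟩
        rw [B1_negY] at h
        have h2 : L.derivWeierstrassP a / (2 * Om ^ 3) = 0 := by linear_combination h / 2
        rw [div_eq_zero_iff] at h2
        rcases h2 with h2 | h2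
        · exact hne h2
        · exact mul_ne_zero two_ne_zero (pow_ne_zero 3 hO) h2
      rw [Affine.Point.add_some hxy, Affine.Point.some.injEq, slope_tangent L A B Om hO g2 a hne, B1_addX, B1_addY,
        dbl_y L a ha h2a, dbl_x L a ha h2a]
      constructor
      · field_simp
        ring
      · field_simp
        ring
    · have hne := wp_ne L a w ha hw h1 h2
      have hx : L.weierstrassP a / Om ^ 2 ≠ L.weierstrassP w / Om ^ 2 := by
        intro h
        rw [div_left_inj' (pow_ne_zero 2 hO)] at h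
        exact hne h
      have hmc : mc L a w * (L.weierstrassP a - L.weierstrassP w) = L.derivWeierstrassP a - L.derivWeierstrassP w := by
        unfold mc
        exact div_mul_cancel₀ _ (sub_ne_zero.2 hne)
      rw [p1 _ h1, p1 a ha, p1 w hw, Affine.Point.add_some (fun h => hx h.1), Affine.Point.some.injEq,
        slope_chord L A B Om hO a w hne, B1_addX, B1_addY, add_y L a w ha hw h1 h2 hne, add_x L a w ha hw h1 h2 hne]
      constructor
      · field_simp
        ring
      · have e : L.derivWeierstrassP w = L.derivWeierstrassP a - mc L a w * (L.weierstrassP a - L.weierstrassP w) := by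
          rw [hmc]
          ring
        rw [e]
        field_simp
        ring
  refine ⟨⟨⟨pt, p0 0 L.lattice.zero_mem⟩, hadd⟩, p0, fun z hz => ⟨hns z hz, p1 z hz⟩⟩

end H35P
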