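import Mathlib

/-! Definitions for the reduction of a Weierstrass curve at a valuation ring. -/

open WeierstrassCurve

namespace H35P

/-- The Weierstrass equation has coefficients in the valuation ring. -/
structure IntW {k : Type} [Field k] (W : WeierstrassCurve k) (V : ValuationSubring k) : Prop where
  a1 : W.a₁ ∈ V
  a2 : W.a₂ ∈ V
  a3 : W.a₃ ∈ V
  a4 : W.a₄ ∈ V
  a6 : W.a₆ ∈ V

/-- The Weierstrass equation has good reduction at the valuation ring. -/
structure GoodW {k : Type} [Field k] (W : WeierstrassCurve k) (V : ValuationSubring k) : Prop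
    extends IntW W V where
  disc : V.valuation W.Δ = 1

/-- The kernel of reduction. -/
def Ker {k : Type} [Field k] {W : WeierstrassCurve k} (V : ValuationSubring k) :
    W.toAffine.Point → Prop
  | .zero => True
  | .some x _ _ => 1 < V.valuation x

/-- The local parameter x/y. -/
noncomputable def tt {k : Type} [Field k] {W : WeierstrassCurve k} : W.toAffine.Point → k
  | .zero => 0
  | .some x y _ => x / y

/-- The two points are congruent integral affine points. -/
def Cong {k : Type} [Field k] {W : WeierstrassCurve k} (V : ValuationSubring k)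
    (P Q : W.toAffine.Point) : Prop :=
  ∃ x₁ y₁ h₁ x₂ y₂ h₂, P = .some x₁ y₁ h₁ ∧ Q = .some x₂ y₂ h₂ ∧ x₁ ∈ V ∧ y₁ ∈ V ∧ x₂ ∈ V ∧ y₂ ∈ V ∧
    V.valuation (x₁ - x₂) < 1 ∧ V.valuation (y₁ - y₂) < 1

end H35P
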