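import Mathlib
import Pool.Agent.Lib.H35P.Red

open WeierstrassCurve

namespace H35P

variable {k : Type} [Field k] {W : WeierstrassCurve k} {V : ValuationSubring k}

private theorem R1_le {a : k} (h : a ∈ V) : V.valuation a ≤ 1 := (V.valuation_le_one_iff a).2 h

private theorem R1_cle {a b : k} (h : a ∈ V) {g : V.ValueGroup} (hb : V.valuation b ≤ g) : V.valuation (a * b) ≤ g := by
  rw [map_mul]
  exact (mul_le_of_le_one_left' (R1_le h)).trans hb

/-! Chunk R1 (S/M). Write v = V.valuation. v c ≤ 1 for the coefficients (ValuationSubring.valuation_le_one_iff or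
mem_valuation...). Equation: y^2 + a1 x y + a3 y = x^3 + a2 x^2 + a4 x + a6 (Affine.equation_iff).
val_y: if v x > 1 the right side has value v(x)^3 (Valuation.map_add_eq_of_lt_left etc.); if v y ≤ v x the left side
is ≤ v(x)^2, contradiction; so v y > v x > 1 and the left side has value v(y)^2.
int_y: v x ≤ 1 and v y > 1 would give v(y)^2 = v(lhs) ≤ 1.
tt_sq: v(x/y)^2 = v(x)^2 / v(x)^3. -/

theorem val_y (hI : IntW W V) {x y : k} (h : W.toAffine.Equation x y) (hx : 1 < V.valuation x) :
    V.valuation y ^ 2 = V.valuation x ^ 3 ∧ V.valuation x < V.valuation y := by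
  rw [Affine.equation_iff] at h
  set c := V.valuation x with hc
  set d := V.valuation y with hd
  have hc1 : (1 : V.ValueGroup) ≤ c := hx.le
  have c0 : c ≠ 0 := fun h0 => by
    rw [h0] at hx
    exact absurd hx (not_lt.2 zero_le_one)
  have h23 : c ^ 2 < c ^ 3 := pow_lt_pow_right₀ hx (by norm_num)
  have hr1 : V.valuation (W.a₂ * x ^ 2 + W.a₄ * x + W.a₆) ≤ c ^ 2 := by
    refine V.valuation.map_add_le (V.valuation.map_add_le (R1_cle hI.a2 ?_) (R1_cle hI.a4 ?_)) ?_
    · rw [map_pow]
    · calc V.valuation x = c ^ 1 := by rw [pow_one]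
        _ ≤ c ^ 2 := pow_le_pow_right₀ hc1 (by norm_num)
    · exact (R1_le hI.a6).trans (one_le_pow₀ hc1)
  have hr : V.valuation (x ^ 3 + W.a₂ * x ^ 2 + W.a₄ * x + W.a₆) = c ^ 3 := by
    have e : x ^ 3 + W.a₂ * x ^ 2 + W.a₄ * x + W.a₆ = x ^ 3 + (W.a₂ * x ^ 2 + W.a₄ * x + W.a₆) := by ring
    rw [e, V.valuation.map_add_eq_of_lt_left, map_pow]
    rw [map_pow]
    exact hr1.trans_lt h23
  have hl : V.valuation (y ^ 2 + W.a₁ * x * y + W.a₃ * y) = c ^ 3 := by
    rw [h, hr]
  have hcd : c < d := by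
    by_contra hcon
    rw [not_lt] at hcon
    have h2 : V.valuation (y ^ 2 + W.a₁ * x * y + W.a₃ * y) ≤ c ^ 2 := by
      refine V.valuation.map_add_le (V.valuation.map_add_le ?_ ?_) (R1_cle hI.a3 ?_)
      · rw [map_pow]
        exact pow_le_pow_left' hcon 2
      · rw [mul_assoc]
        refine R1_cle hI.a1 ?_
        rw [map_mul, pow_two]
        exact mul_le_mul' le_rfl hcon
      · calc d ≤ c := hcon
          _ = c ^ 1 := by rw [pow_one]
          _ ≤ c ^ 2 := pow_le_pow_right₀ hc1 (by norm_num)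
    rw [hl] at h2
    exact absurd h2 (not_le.2 h23)
  refine ⟨?_, hcd⟩
  have hd1 : 1 < d := hx.trans hcd
  have d0 : 0 < d := zero_lt_one.trans hd1
  have h3 : V.valuation (W.a₁ * x * y + W.a₃ * y) < V.valuation (y ^ 2) := by
    rw [map_pow, pow_two]
    refine lt_of_le_of_lt (b := c * d) ?_ (mul_lt_mul_of_pos_right hcd d0)
    refine V.valuation.map_add_le ?_ (R1_cle hI.a3 ?_)
    · rw [mul_assoc]
      exact R1_cle hI.a1 (map_mul _ _ _).le
    · exact le_mul_of_one_le_left' hc1
  have e : y ^ 2 + W.a₁ * x * y + W.a₃ * y = y ^ 2 + (W.a₁ * x * y + W.a₃ * y) := by ring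
  rw [e, V.valuation.map_add_eq_of_lt_left h3, map_pow] at hl
  exact hl

theorem int_y (hI : IntW W V) {x y : k} (h : W.toAffine.Equation x y) (hx : V.valuation x ≤ 1) :
    V.valuation y ≤ 1 := by
  rw [Affine.equation_iff] at h
  by_contra hcon
  rw [not_le] at hcon
  set d := V.valuation y with hd
  have d0 : 0 < d := zero_lt_one.trans hcon
  have hr : V.valuation (x ^ 3 + W.a₂ * x ^ 2 + W.a₄ * x + W.a₆) ≤ 1 := by
    refine V.valuation.map_add_le (V.valuation.map_add_le (V.valuation.map_add_le ?_ (R1_cle hI.a2 ?_))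
      (R1_cle hI.a4 hx)) (R1_le hI.a6)
    · rw [map_pow]
      exact pow_le_one' hx 3
    · rw [map_pow]
      exact pow_le_one' hx 2
  have h3 : V.valuation (W.a₁ * x * y + W.a₃ * y) < V.valuation (y ^ 2) := by
    rw [map_pow, pow_two]
    refine lt_of_le_of_lt (b := 1 * d) ?_ (mul_lt_mul_of_pos_right hcon d0)
    rw [one_mul]
    refine V.valuation.map_add_le ?_ (R1_cle hI.a3 le_rfl)
    rw [mul_assoc]
    refine R1_cle hI.a1 ?_
    rw [map_mul]
    exact mul_le_of_le_one_left' hx
  have e : y ^ 2 + (W.a₁ * x * y + W.a₃ * y) = x ^ 3 + W.a₂ * x ^ 2 + W.a₄ * x + W.a₆ := by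
    linear_combination h
  rw [← e, V.valuation.map_add_eq_of_lt_left h3, map_pow] at hr
  exact absurd hr (not_le.2 (one_lt_pow₀ hcon (by norm_num)))

theorem tt_sq (hI : IntW W V) {x y : k} (h : W.toAffine.Nonsingular x y) (hx : 1 < V.valuation x) :
    V.valuation (tt (W := W) (.some x y h)) ^ 2 * V.valuation x = 1 := by
  obtain ⟨h1, h2⟩ := val_y hI h.1 hx
  have x0 : V.valuation x ≠ 0 := (zero_lt_one.trans hx).ne'
  have y0 : V.valuation y ≠ 0 := (zero_lt_one.trans (hx.trans h2)).ne'
  change V.valuation (x / y) ^ 2 * V.valuation x = 1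
  rw [map_div₀, div_pow, h1]
  field_simp

theorem tt_lt (hI : IntW W V) (P : W.toAffine.Point) (h : Ker V P) : V.valuation (tt P) < 1 := by
  match P, h with
  | .zero, _ =>
    change V.valuation 0 < 1
    rw [map_zero]
    exact zero_lt_one
  | .some x y hn, h =>
    have hx : 1 < V.valuation x := h
    obtain ⟨h1, h2⟩ := val_y hI hn.1 hx
    change V.valuation (x / y) < 1
    rw [map_div₀]
    exact (div_lt_one₀ (zero_lt_one.trans (hx.trans h2))).2 h2

theorem tt_eq_zero (hI : IntW W V) (P : W.toAffine.Point) (h : Ker V P) : tt P = 0 ↔ P = 0 := by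
  match P, h with
  | .zero, _ => exact ⟨fun _ => rfl, fun _ => rfl⟩
  | .some x y hn, h =>
    have hx : 1 < V.valuation x := h
    obtain ⟨h1, h2⟩ := val_y hI hn.1 hx
    have x0 : x ≠ 0 := fun h0 => by
      rw [h0, map_zero] at hx
      exact absurd hx (not_lt.2 zero_le_one)
    have y0 : y ≠ 0 := fun h0 => by
      have := hx.trans h2
      rw [h0, map_zero] at this
      exact absurd this (not_lt.2 zero_le_one)
    constructor
    · intro h3
      exact absurd h3 (div_ne_zero x0 y0)
    · intro h3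
      exact absurd h3 (by simp)

/-- t(-P) = -t(P) up to t(P)^2. -/
theorem tt_neg (hI : IntW W V) (P : W.toAffine.Point) (h : Ker V P) :
    V.valuation (tt (-P) + tt P) ≤ V.valuation (tt P) ^ 2 := by
  match P, h with
  | .zero, _ =>
    change V.valuation (0 + 0) ≤ V.valuation 0 ^ 2
    simp
  | .some x y hn, h =>
    have hx : 1 < V.valuation x := h
    obtain ⟨h1, h2⟩ := val_y hI hn.1 hx
    have x0 : x ≠ 0 := fun h0 => by
      rw [h0, map_zero] at hx
      exact absurd hx (not_lt.2 zero_le_one)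
    have hy1 : 1 < V.valuation y := hx.trans h2
    have y0 : y ≠ 0 := fun h0 => by
      rw [h0, map_zero] at hy1
      exact absurd hy1 (not_lt.2 zero_le_one)
    rw [Affine.Point.neg_some]
    change V.valuation (x / W.toAffine.negY x y + x / y) ≤ V.valuation (x / y) ^ 2
    -- the value of the negative
    have h3 : V.valuation (W.a₁ * x + W.a₃) < V.valuation y := by
      refine lt_of_le_of_lt (V.valuation.map_add_le (R1_cle hI.a1 le_rfl) ((R1_le hI.a3).trans hx.le)) h2
    have hneg : V.valuation (W.toAffine.negY x y) = V.valuation y := by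
      have e : W.toAffine.negY x y = -(y + (W.a₁ * x + W.a₃)) := by
        unfold Affine.negY
        ring
      rw [e, Valuation.map_neg, V.valuation.map_add_eq_of_lt_left h3]
    have n0 : W.toAffine.negY x y ≠ 0 := fun h0 => by
      rw [h0, map_zero] at hneg
      exact (zero_lt_one.trans hy1).ne hneg
    have e : x / W.toAffine.negY x y + x / y = -(x * (W.a₁ * x + W.a₃)) / (W.toAffine.negY x y * y) := by
      rw [div_add_div _ _ n0 y0]
      congr 1
      unfold Affine.negY
      ring
    have hb : V.valuation (W.a₁ * x + W.a₃) ≤ V.valuation x :=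
      V.valuation.map_add_le (R1_cle hI.a1 le_rfl) ((R1_le hI.a3).trans hx.le)
    rw [e, map_div₀, Valuation.map_neg, map_mul, map_mul, hneg, map_div₀, div_pow, pow_two, pow_two]
    exact div_le_div_of_nonneg_right (mul_le_mul' le_rfl hb) zero_le

theorem ker_neg (P : W.toAffine.Point) : Ker V (-P) ↔ Ker V P := by
  match P with
  | .zero => exact Iff.rfl
  | .some x y hn =>
    rw [Affine.Point.neg_some]
    exact Iff.rfl

end H35P
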