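import Mathlib

open WeierstrassCurve

namespace H35P

variable {k : Type} [Field k] [DecidableEq k] {W : WeierstrassCurve k}

/-! Chunk R2 (S/M). Vieta for the intersection with the chord or tangent: Mathlib's
WeierstrassCurve.Affine.addPolynomial_slope together with addPolynomial_eq and Cubic.prod_X_sub_C_eq,
Cubic.toPoly_injective (look at the proof of addPolynomial_slope in
Mathlib/AlgebraicGeometry/EllipticCurve/Affine/Formula.lean: it proves exactly the equality of the coefficients).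
The fourth claim: if x₁ ≠ x₂ it is the definition of the slope; if x₁ = x₂ then y₁ = y₂ (Y_eq_of_Y_ne).
The last one is a polynomial consequence of the first three: with e1, e2, e3 the symmetric functions the left side is
3 l^2 e3 + 2 l m e2 + m^2 e1 (linear_combination 3 l^2 * e3 + 2 l m * e2 + m^2 * e1). -/

/-- The line through two points: slope l, intercept m, third point (x₃, l x₃ + m). -/
theorem vieta {x₁ x₂ y₁ y₂ : k} (h₁ : W.toAffine.Equation x₁ y₁) (h₂ : W.toAffine.Equation x₂ y₂)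
    (hxy : ¬(x₁ = x₂ ∧ y₁ = W.toAffine.negY x₂ y₂)) (l m x₃ : k)
    (hl : l = W.toAffine.slope x₁ x₂ y₁ y₂) (hm : m = y₁ - l * x₁) (hx₃ : x₃ = W.toAffine.addX x₁ x₂ l) :
    x₁ + x₂ + x₃ = l ^ 2 + W.a₁ * l - W.a₂ ∧
    x₁ * x₂ + x₁ * x₃ + x₂ * x₃ = W.a₄ - 2 * l * m - W.a₁ * m - W.a₃ * l ∧
    x₁ * x₂ * x₃ = m ^ 2 + W.a₃ * m - W.a₆ ∧
    y₁ = l * x₁ + m ∧ y₂ = l * x₂ + m ∧ W.toAffine.negAddY x₁ x₂ y₁ l = l * x₃ + m ∧
    x₁ * (l * x₂ + m) * (l * x₃ + m) + x₂ * (l * x₁ + m) * (l * x₃ + m) + x₃ * (l * x₁ + m) * (l * x₂ + m) =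
      W.a₃ * l ^ 2 * m - 3 * W.a₆ * l ^ 2 + 2 * W.a₄ * l * m - W.a₁ * l * m ^ 2 - W.a₂ * m ^ 2 := by
  have hA := Affine.addPolynomial_slope h₁ h₂ hxy
  rw [← hl, ← hx₃, Affine.addPolynomial_eq, neg_inj, Cubic.prod_X_sub_C_eq, Cubic.toPoly_injective, Cubic.mk.injEq] at hA
  obtain ⟨-, hb, hc, hd⟩ := hA
  have e1 : x₁ + x₂ + x₃ = l ^ 2 + W.a₁ * l - W.a₂ := by linear_combination hb
  have e2 : x₁ * x₂ + x₁ * x₃ + x₂ * x₃ = W.a₄ - 2 * l * m - W.a₁ * m - W.a₃ * l := by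
    rw [hm]
    linear_combination -hc
  have e3 : x₁ * x₂ * x₃ = m ^ 2 + W.a₃ * m - W.a₆ := by
    rw [hm]
    linear_combination hd
  refine ⟨e1, e2, e3, by rw [hm]; ring, ?_, ?_, ?_⟩
  · by_cases hx : x₁ = x₂
    · have hy : y₁ ≠ W.toAffine.negY x₂ y₂ := fun h => hxy ⟨hx, h⟩
      have := Affine.Y_eq_of_Y_ne h₁ h₂ hx hy
      rw [hm, ← this, ← hx]
      ring
    · rw [Affine.slope_of_X_ne hx] at hl
      have h0 : x₁ - x₂ ≠ 0 := sub_ne_zero.2 hx
      have h3 : l * (x₁ - x₂) = y₁ - y₂ := by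
        rw [hl, div_mul_cancel₀ _ h0]
      rw [hm]
      linear_combination h3
  · unfold Affine.negAddY
    rw [← hx₃, hm]
    ring
  · linear_combination 3 * l ^ 2 * e3 + 2 * l * m * e2 + m ^ 2 * e1

end H35P
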