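import Mathlib

open WeierstrassCurve

namespace H35P

variable {k : Type} [Field k] {V : ValuationSubring k}

/-! Chunk R3 (M). Pure valuation theory. v = V.valuation, a = v x₁, b = v x₂, d = v x₃, a, b > 1.
v(l)^2 ≤ max(a, b, d, 1): if v l ≤ 1 clear, else v(l)^2 = v(l^2 + a1 l) = v(x₁+x₂+x₃+a2). Likewise
v(m)^2 ≤ max(1, a b d).
(1) d > 1: suppose d ≤ 1. v(x₁x₂ + x₃(x₁+x₂)) = ab (as d max(a,b) < ab), so
ab ≤ max(1, v(l)v(m), v(m), v(l)). But v(l)^2 ≤ max(a,b) < (ab)^2, v(m)^2 ≤ ab < (ab)^2,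
(v(l)v(m))^2 ≤ max(a,b) ab < (ab)^2, 1 < ab: contradiction.
(2) put M = max(a,b,d) ≤ abd. v(l)^2 ≤ M, v(m)^2 ≤ abd. With y_i = l x_i + m, v(y_i)^2 = v(x_i)^3 (hypothesis) we have
v(y₁y₂y₃)^2 = (abd)^3 and (x₁/y₁ + x₂/y₂ + x₃/y₃) y₁y₂y₃ = N, the left side of hN, so v(N)^2 ≤ max of
M^2 abd, M^2, M abd, M (abd)^2, (abd)^2, hence v(sum)^2 ≤ M/(abd). And c^2 ≥ 1/a, 1/b (hypotheses hca, hcb: c ≥ v(x₁/y₁),
v(x₂/y₂), and v(x_i/y_i)^2 = 1/v(x_i)); M/(abd) is one of 1/(bd), 1/(ad), 1/(ab), each < 1/a or < 1/b, so v(sum)^2 < c^2. -/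

theorem r3_mem {a : k} (h : a ∈ V) : V.valuation a ≤ 1 := (V.valuation_le_one_iff a).2 h

theorem r3_nat (n : ℕ) : V.valuation (n : k) ≤ 1 :=
  (V.valuation_le_one_iff _).2 (natCast_mem V n)

theorem r3_mul_le {Γ : Type*} [LinearOrderedCommGroupWithZero Γ] {a b c d : Γ} (h1 : a ≤ b) (h2 : c ≤ d) :
    a * c ≤ b * d := mul_le_mul' h1 h2

theorem r3_lt {Γ : Type*} [LinearOrderedCommGroupWithZero Γ] {a b : Γ} (ha : 0 < a) (hb : 1 < b) :
    a < a * b := by
  calc a = a * 1 := (mul_one a).symm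
    _ < a * b := mul_lt_mul_of_pos_left hb ha

theorem r3_le {a S l : k} (h1 : a ∈ V) (h : l ^ 2 + a * l = S) :
    V.valuation l ^ 2 ≤ max (V.valuation S) 1 := by
  by_cases hl : V.valuation l ≤ 1
  · exact (pow_le_one' hl 2).trans (le_max_right _ _)
  · push Not at hl
    have h2 : V.valuation (a * l) < V.valuation (l ^ 2) := by
      rw [map_mul, map_pow]
      calc V.valuation a * V.valuation l ≤ 1 * V.valuation l := r3_mul_le (r3_mem h1) le_rfl
        _ = V.valuation l := one_mul _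
        _ < V.valuation l * V.valuation l := r3_lt (zero_lt_one.trans hl) hl
        _ = V.valuation l ^ 2 := (sq _).symm
    rw [← h, Valuation.map_add_eq_of_lt_left _ h2, map_pow]
    exact le_max_left _ _

theorem r3_add {x y : k} {c : V.ValueGroup} (hx : V.valuation x ≤ c) (hy : V.valuation y ≤ c) :
    V.valuation (x + y) ≤ c := Valuation.map_add_le _ hx hy

theorem r3_sub {x y : k} {c : V.ValueGroup} (hx : V.valuation x ≤ c) (hy : V.valuation y ≤ c) :
    V.valuation (x - y) ≤ c := Valuation.map_sub_le _ hx hy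

theorem third_big {a₁ a₂ a₃ a₄ a₆ x₁ x₂ x₃ l m : k} (h1 : a₁ ∈ V) (h2 : a₂ ∈ V) (h3 : a₃ ∈ V) (h4 : a₄ ∈ V)
    (h6 : a₆ ∈ V) (s1 : x₁ + x₂ + x₃ = l ^ 2 + a₁ * l - a₂)
    (s2 : x₁ * x₂ + x₁ * x₃ + x₂ * x₃ = a₄ - 2 * l * m - a₁ * m - a₃ * l)
    (s3 : x₁ * x₂ * x₃ = m ^ 2 + a₃ * m - a₆) (ha : 1 < V.valuation x₁) (hb : 1 < V.valuation x₂) :
    1 < V.valuation x₃ := by
  by_contra hd
  push Not at hd
  have ha0 : 0 < V.valuation x₁ := zero_lt_one.trans ha
  have hb0 : 0 < V.valuation x₂ := zero_lt_one.trans hb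
  have hab : 1 < V.valuation x₁ * V.valuation x₂ := ha.trans (r3_lt ha0 hb)
  have hab0 : 0 < V.valuation x₁ * V.valuation x₂ := zero_lt_one.trans hab
  have hM : max (V.valuation x₁) (V.valuation x₂) < V.valuation x₁ * V.valuation x₂ := by
    refine max_lt (r3_lt ha0 hb) ?_
    rw [mul_comm]
    exact r3_lt hb0 ha
  have h1M : 1 ≤ max (V.valuation x₁) (V.valuation x₂) := ha.le.trans (le_max_left _ _)
  have hl : V.valuation l ^ 2 ≤ max (V.valuation x₁) (V.valuation x₂) := by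
    have e : l ^ 2 + a₁ * l = x₁ + x₂ + x₃ + a₂ := by rw [s1]; ring
    refine (r3_le h1 e).trans (max_le ?_ h1M)
    exact r3_add (r3_add (r3_add (le_max_left _ _) (le_max_right _ _)) (hd.trans h1M))
      ((r3_mem h2).trans h1M)
  have hm : V.valuation m ^ 2 ≤ V.valuation x₁ * V.valuation x₂ := by
    have e : m ^ 2 + a₃ * m = x₁ * x₂ * x₃ + a₆ := by rw [s3]; ring
    refine (r3_le h3 e).trans (max_le ?_ hab.le)
    refine r3_add ?_ ((r3_mem h6).trans hab.le)
    rw [map_mul, map_mul]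
    calc _ ≤ V.valuation x₁ * V.valuation x₂ * 1 := r3_mul_le le_rfl hd
      _ = _ := mul_one _
  have key : V.valuation (x₁ * x₂ + x₁ * x₃ + x₂ * x₃) = V.valuation x₁ * V.valuation x₂ := by
    have e : V.valuation (x₁ * x₃ + x₂ * x₃) < V.valuation (x₁ * x₂) := by
      rw [map_mul _ x₁ x₂]
      refine lt_of_le_of_lt ?_ hM
      refine r3_add ?_ ?_
      · rw [map_mul]
        calc _ ≤ V.valuation x₁ * 1 := r3_mul_le le_rfl hd
          _ = V.valuation x₁ := mul_one _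
          _ ≤ _ := le_max_left _ _
      · rw [map_mul]
        calc _ ≤ V.valuation x₂ * 1 := r3_mul_le le_rfl hd
          _ = V.valuation x₂ := mul_one _
          _ ≤ _ := le_max_right _ _
    rw [add_assoc, Valuation.map_add_eq_of_lt_left _ e, map_mul]
  have hsq : V.valuation x₁ * V.valuation x₂ < (V.valuation x₁ * V.valuation x₂) ^ 2 := by
    rw [sq]
    exact r3_lt hab0 hab
  have hvl : V.valuation l < V.valuation x₁ * V.valuation x₂ :=
    lt_of_pow_lt_pow_left₀ 2 hab0.le (hl.trans_lt (hM.trans hsq))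
  have hvm : V.valuation m < V.valuation x₁ * V.valuation x₂ :=
    lt_of_pow_lt_pow_left₀ 2 hab0.le (hm.trans_lt hsq)
  have hvlm : V.valuation l * V.valuation m < V.valuation x₁ * V.valuation x₂ := by
    refine lt_of_pow_lt_pow_left₀ 2 hab0.le ?_
    rw [mul_pow, sq (V.valuation x₁ * V.valuation x₂)]
    calc V.valuation l ^ 2 * V.valuation m ^ 2
        ≤ max (V.valuation x₁) (V.valuation x₂) * (V.valuation x₁ * V.valuation x₂) := r3_mul_le hl hm
      _ < (V.valuation x₁ * V.valuation x₂) * (V.valuation x₁ * V.valuation x₂) :=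
        mul_lt_mul_of_pos_right hM hab0
  have hR : V.valuation (a₄ - 2 * l * m - a₁ * m - a₃ * l) < V.valuation x₁ * V.valuation x₂ := by
    have t0 : V.valuation a₄ < V.valuation x₁ * V.valuation x₂ := (r3_mem h4).trans_lt hab
    have t1 : V.valuation (2 * l * m) < V.valuation x₁ * V.valuation x₂ := by
      refine lt_of_le_of_lt ?_ hvlm
      rw [map_mul, map_mul]
      have h2' : V.valuation (2 : k) ≤ 1 := by
        have := r3_nat (V := V) 2
        rwa [Nat.cast_ofNat] at this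
      calc _ ≤ 1 * V.valuation l * V.valuation m := r3_mul_le (r3_mul_le h2' le_rfl) le_rfl
        _ = _ := by rw [one_mul]
    have t2 : V.valuation (a₁ * m) < V.valuation x₁ * V.valuation x₂ := by
      refine lt_of_le_of_lt ?_ hvm
      rw [map_mul]
      calc _ ≤ 1 * V.valuation m := r3_mul_le (r3_mem h1) le_rfl
        _ = _ := one_mul _
    have t3 : V.valuation (a₃ * l) < V.valuation x₁ * V.valuation x₂ := by
      refine lt_of_le_of_lt ?_ hvl
      rw [map_mul]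
      calc _ ≤ 1 * V.valuation l := r3_mul_le (r3_mem h3) le_rfl
        _ = _ := one_mul _
    exact Valuation.map_sub_lt _ (Valuation.map_sub_lt _ (Valuation.map_sub_lt _ t0 t1) t2) t3
  rw [← s2, key] at hR
  exact lt_irrefl _ hR

theorem third_tt {a₁ a₂ a₃ a₄ a₆ x₁ x₂ x₃ l m : k} (h1 : a₁ ∈ V) (h2 : a₂ ∈ V) (h3 : a₃ ∈ V) (h4 : a₄ ∈ V)
    (h6 : a₆ ∈ V) (s1 : x₁ + x₂ + x₃ = l ^ 2 + a₁ * l - a₂)
    (s2 : x₁ * x₂ + x₁ * x₃ + x₂ * x₃ = a₄ - 2 * l * m - a₁ * m - a₃ * l)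
    (s3 : x₁ * x₂ * x₃ = m ^ 2 + a₃ * m - a₆)
    (hN : x₁ * (l * x₂ + m) * (l * x₃ + m) + x₂ * (l * x₁ + m) * (l * x₃ + m) +
      x₃ * (l * x₁ + m) * (l * x₂ + m) =
      a₃ * l ^ 2 * m - 3 * a₆ * l ^ 2 + 2 * a₄ * l * m - a₁ * l * m ^ 2 - a₂ * m ^ 2)
    (ha : 1 < V.valuation x₁) (hb : 1 < V.valuation x₂)
    (y1 : V.valuation (l * x₁ + m) ^ 2 = V.valuation x₁ ^ 3)
    (y2 : V.valuation (l * x₂ + m) ^ 2 = V.valuation x₂ ^ 3)
    (y3 : V.valuation (l * x₃ + m) ^ 2 = V.valuation x₃ ^ 3)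
    (c : V.ValueGroup) (hca : V.valuation (x₁ / (l * x₁ + m)) ≤ c) (hcb : V.valuation (x₂ / (l * x₂ + m)) ≤ c) :
    V.valuation (x₁ / (l * x₁ + m) + x₂ / (l * x₂ + m) + x₃ / (l * x₃ + m)) < c := by
  have hd : 1 < V.valuation x₃ := third_big h1 h2 h3 h4 h6 s1 s2 s3 ha hb
  have ha0 : 0 < V.valuation x₁ := zero_lt_one.trans ha
  have hb0 : 0 < V.valuation x₂ := zero_lt_one.trans hb
  have hd0 : 0 < V.valuation x₃ := zero_lt_one.trans hd
  set M : V.ValueGroup := max (max (V.valuation x₁) (V.valuation x₂)) (V.valuation x₃) with hM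
  set P : V.ValueGroup := V.valuation x₁ * V.valuation x₂ * V.valuation x₃ with hP
  have h1M : 1 ≤ M := ha.le.trans ((le_max_left _ _).trans (le_max_left _ _))
  have hP0 : 0 < P := mul_pos (mul_pos ha0 hb0) hd0
  have hMP : M ≤ P := by
    refine max_le (max_le ?_ ?_) ?_
    · calc V.valuation x₁ = V.valuation x₁ * 1 * 1 := by rw [mul_one, mul_one]
        _ ≤ P := r3_mul_le (r3_mul_le le_rfl hb.le) hd.le
    · calc V.valuation x₂ = 1 * V.valuation x₂ * 1 := by rw [one_mul, mul_one]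
        _ ≤ P := r3_mul_le (r3_mul_le ha.le le_rfl) hd.le
    · calc V.valuation x₃ = 1 * 1 * V.valuation x₃ := by rw [one_mul, one_mul]
        _ ≤ P := r3_mul_le (r3_mul_le ha.le hb.le) le_rfl
  have h1P : 1 ≤ P := h1M.trans hMP
  have hl : V.valuation l ^ 2 ≤ M := by
    have e : l ^ 2 + a₁ * l = x₁ + x₂ + x₃ + a₂ := by rw [s1]; ring
    refine (r3_le h1 e).trans (max_le ?_ h1M)
    exact r3_add (r3_add (r3_add ((le_max_left _ _).trans (le_max_left _ _))
      ((le_max_right _ _).trans (le_max_left _ _))) (le_max_right _ _)) ((r3_mem h2).trans h1M)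
  have hm : V.valuation m ^ 2 ≤ P := by
    have e : m ^ 2 + a₃ * m = x₁ * x₂ * x₃ + a₆ := by rw [s3]; ring
    refine (r3_le h3 e).trans (max_le ?_ h1P)
    refine r3_add ?_ ((r3_mem h6).trans h1P)
    rw [map_mul, map_mul]
  -- the numerator
  have n2 : V.valuation (2 : k) ≤ 1 := by
    have := r3_nat (V := V) 2
    rwa [Nat.cast_ofNat] at this
  have n3 : V.valuation (3 : k) ≤ 1 := by
    have := r3_nat (V := V) 3
    rwa [Nat.cast_ofNat] at this
  set L : V.ValueGroup := V.valuation l with hL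
  set K : V.ValueGroup := V.valuation m with hK
  have hsq : ∀ z : V.ValueGroup, z ^ 2 ≤ M * P ^ 2 → ∀ w : k, V.valuation w ≤ z →
      V.valuation w ^ 2 ≤ M * P ^ 2 := fun z hz w hw => (pow_le_pow_left' hw 2).trans hz
  have hPP : P ≤ P ^ 2 := by
    rw [sq]
    calc P = 1 * P := (one_mul _).symm
      _ ≤ P * P := r3_mul_le h1P le_rfl
  have hNsq : V.valuation (a₃ * l ^ 2 * m - 3 * a₆ * l ^ 2 + 2 * a₄ * l * m - a₁ * l * m ^ 2 -
      a₂ * m ^ 2) ^ 2 ≤ M * P ^ 2 := by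
    have t1 : V.valuation (a₃ * l ^ 2 * m) ^ 2 ≤ M * P ^ 2 := by
      refine hsq (L ^ 2 * K) ?_ _ ?_
      · calc (L ^ 2 * K) ^ 2 = (L ^ 2 * L ^ 2) * K ^ 2 := by rw [mul_pow, sq (L ^ 2)]
          _ ≤ (M * P) * P := r3_mul_le (r3_mul_le hl (hl.trans hMP)) hm
          _ = M * P ^ 2 := by rw [sq, mul_assoc]
      · rw [map_mul, map_mul, map_pow]
        calc _ ≤ 1 * L ^ 2 * K := r3_mul_le (r3_mul_le (r3_mem h3) le_rfl) le_rfl
          _ = _ := by rw [one_mul]
    have t2 : V.valuation (3 * a₆ * l ^ 2) ^ 2 ≤ M * P ^ 2 := by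
      refine hsq (L ^ 2) ?_ _ ?_
      · calc (L ^ 2) ^ 2 = L ^ 2 * L ^ 2 := sq _
          _ ≤ M * P := r3_mul_le hl (hl.trans hMP)
          _ ≤ M * P ^ 2 := r3_mul_le le_rfl hPP
      · rw [map_mul, map_mul, map_pow]
        calc _ ≤ 1 * 1 * L ^ 2 := r3_mul_le (r3_mul_le n3 (r3_mem h6)) le_rfl
          _ = _ := by rw [one_mul, one_mul]
    have t3 : V.valuation (2 * a₄ * l * m) ^ 2 ≤ M * P ^ 2 := by
      refine hsq (L * K) ?_ _ ?_
      · calc (L * K) ^ 2 = L ^ 2 * K ^ 2 := mul_pow _ _ _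
          _ ≤ M * P := r3_mul_le hl hm
          _ ≤ M * P ^ 2 := r3_mul_le le_rfl hPP
      · rw [map_mul, map_mul, map_mul]
        calc _ ≤ 1 * 1 * L * K := r3_mul_le (r3_mul_le (r3_mul_le n2 (r3_mem h4)) le_rfl) le_rfl
          _ = _ := by rw [one_mul, one_mul]
    have t4 : V.valuation (a₁ * l * m ^ 2) ^ 2 ≤ M * P ^ 2 := by
      refine hsq (L * K ^ 2) ?_ _ ?_
      · calc (L * K ^ 2) ^ 2 = L ^ 2 * (K ^ 2 * K ^ 2) := by rw [mul_pow, sq (K ^ 2)]
          _ ≤ M * (P * P) := r3_mul_le hl (r3_mul_le hm hm)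
          _ = M * P ^ 2 := by rw [sq]
      · rw [map_mul, map_mul, map_pow]
        calc _ ≤ 1 * L * K ^ 2 := r3_mul_le (r3_mul_le (r3_mem h1) le_rfl) le_rfl
          _ = _ := by rw [one_mul]
    have t5 : V.valuation (a₂ * m ^ 2) ^ 2 ≤ M * P ^ 2 := by
      refine hsq (K ^ 2) ?_ _ ?_
      · calc (K ^ 2) ^ 2 = K ^ 2 * K ^ 2 := sq _
          _ ≤ P * P := r3_mul_le hm hm
          _ = 1 * P ^ 2 := by rw [sq, one_mul]
          _ ≤ M * P ^ 2 := r3_mul_le h1M le_rfl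
      · rw [map_mul, map_pow]
        calc _ ≤ 1 * K ^ 2 := r3_mul_le (r3_mem h2) le_rfl
          _ = _ := by rw [one_mul]
    have comb : ∀ x y : k, V.valuation x ^ 2 ≤ M * P ^ 2 → V.valuation y ^ 2 ≤ M * P ^ 2 →
        V.valuation (x - y) ^ 2 ≤ M * P ^ 2 ∧ V.valuation (x + y) ^ 2 ≤ M * P ^ 2 := by
      intro x y hx hy
      have e : max (V.valuation x) (V.valuation y) ^ 2 ≤ M * P ^ 2 := by
        rcases max_choice (V.valuation x) (V.valuation y) with h | h <;> rw [h] <;> assumption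
      exact ⟨(pow_le_pow_left' (r3_sub (le_max_left _ _) (le_max_right _ _)) 2).trans e,
        (pow_le_pow_left' (r3_add (le_max_left _ _) (le_max_right _ _)) 2).trans e⟩
    exact (comb _ _ (comb _ _ (comb _ _ (comb _ _ t1 t2).1 t3).2 t4).1 t5).1
  -- the three y
  have yn : ∀ x : k, 1 < V.valuation x → V.valuation (l * x + m) ^ 2 = V.valuation x ^ 3 →
      l * x + m ≠ 0 := by
    intro x hx hy h0
    rw [h0, map_zero, zero_pow two_ne_zero] at hy
    exact (pow_ne_zero 3 (zero_lt_one.trans hx).ne') hy.symm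
  have q1 := yn x₁ ha y1
  have q2 := yn x₂ hb y2
  have q3 := yn x₃ hd y3
  have hsum : (x₁ / (l * x₁ + m) + x₂ / (l * x₂ + m) + x₃ / (l * x₃ + m)) *
      ((l * x₁ + m) * (l * x₂ + m) * (l * x₃ + m)) =
      a₃ * l ^ 2 * m - 3 * a₆ * l ^ 2 + 2 * a₄ * l * m - a₁ * l * m ^ 2 - a₂ * m ^ 2 := by
    rw [← hN]
    generalize l * x₁ + m = A at q1 ⊢
    generalize l * x₂ + m = B at q2 ⊢
    generalize l * x₃ + m = C at q3 ⊢
    field_simp
  set S : V.ValueGroup := V.valuation (x₁ / (l * x₁ + m) + x₂ / (l * x₂ + m) + x₃ / (l * x₃ + m))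
    with hS
  have hSP : S ^ 2 * P ≤ M := by
    have e1 : S ^ 2 * P ^ 3 ≤ M * P ^ 2 := by
      rw [← hsum, map_mul, map_mul, map_mul, mul_pow, mul_pow, mul_pow, y1, y2, y3, ← mul_pow,
        ← mul_pow] at hNsq
      exact hNsq
    have e2 : S ^ 2 * P * P ^ 2 ≤ M * P ^ 2 := by
      calc S ^ 2 * P * P ^ 2 = S ^ 2 * P ^ 3 := by rw [mul_assoc, ← pow_succ']
        _ ≤ _ := e1
    exact le_of_mul_le_mul_right e2 (pow_pos hP0 2)
  have hc : ∀ x : k, 1 < V.valuation x → V.valuation (l * x + m) ^ 2 = V.valuation x ^ 3 →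
      V.valuation (x / (l * x + m)) ≤ c → 1 ≤ c ^ 2 * V.valuation x := by
    intro x hx hy hxc
    have hx0 : V.valuation x ≠ 0 := (zero_lt_one.trans hx).ne'
    have e : V.valuation (x / (l * x + m)) ^ 2 * V.valuation x = 1 := by
      rw [map_div₀, div_pow, hy]
      field_simp
    calc (1 : V.ValueGroup) = V.valuation (x / (l * x + m)) ^ 2 * V.valuation x := e.symm
      _ ≤ c ^ 2 * V.valuation x := r3_mul_le (pow_le_pow_left' hxc 2) le_rfl
  have ca := hc x₁ ha y1 hca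
  have cb := hc x₂ hb y2 hcb
  by_contra hcon
  push Not at hcon
  have hcM : c ^ 2 * P ≤ M := (r3_mul_le (pow_le_pow_left' hcon 2) le_rfl).trans hSP
  rcases max_choice (max (V.valuation x₁) (V.valuation x₂)) (V.valuation x₃) with h | h
  · rcases max_choice (V.valuation x₁) (V.valuation x₂) with h' | h'
    · rw [hM, h, h'] at hcM
      have e : (c ^ 2 * V.valuation x₂ * V.valuation x₃) * V.valuation x₁ ≤ 1 * V.valuation x₁ := by
        calc _ = c ^ 2 * P := by rw [hP]; ac_rfl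
          _ ≤ _ := hcM
          _ = _ := (one_mul _).symm
      have e' := le_of_mul_le_mul_right e ha0
      have : V.valuation x₃ ≤ 1 := by
        calc V.valuation x₃ = 1 * V.valuation x₃ := (one_mul _).symm
          _ ≤ c ^ 2 * V.valuation x₂ * V.valuation x₃ := r3_mul_le cb le_rfl
          _ ≤ 1 := e'
      exact absurd this (not_le.2 hd)
    · rw [hM, h, h'] at hcM
      have e : (c ^ 2 * V.valuation x₁ * V.valuation x₃) * V.valuation x₂ ≤ 1 * V.valuation x₂ := by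
        calc _ = c ^ 2 * P := by rw [hP]; ac_rfl
          _ ≤ _ := hcM
          _ = _ := (one_mul _).symm
      have e' := le_of_mul_le_mul_right e hb0
      have : V.valuation x₃ ≤ 1 := by
        calc V.valuation x₃ = 1 * V.valuation x₃ := (one_mul _).symm
          _ ≤ c ^ 2 * V.valuation x₁ * V.valuation x₃ := r3_mul_le ca le_rfl
          _ ≤ 1 := e'
      exact absurd this (not_le.2 hd)
  · rw [hM, h] at hcM
    have e : (c ^ 2 * V.valuation x₁ * V.valuation x₂) * V.valuation x₃ ≤ 1 * V.valuation x₃ := by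
      calc _ = c ^ 2 * P := by rw [hP]; ac_rfl
        _ ≤ _ := hcM
        _ = _ := (one_mul _).symm
    have e' := le_of_mul_le_mul_right e hd0
    have : V.valuation x₂ ≤ 1 := by
      calc V.valuation x₂ = 1 * V.valuation x₂ := (one_mul _).symm
        _ ≤ c ^ 2 * V.valuation x₁ * V.valuation x₂ := r3_mul_le ca le_rfl
        _ ≤ 1 := e'
    exact absurd this (not_le.2 hb)

end H35P
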