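import Mathlib
import Pool.Agent.Lib.H35P.R1
import Pool.Agent.Lib.H35P.R2
import Pool.Agent.Lib.H35P.R3

open WeierstrassCurve

namespace H35P

variable {k : Type} [Field k] [DecidableEq k] {W : WeierstrassCurve k} {V : ValuationSubring k}

/-! Chunk R4 (M). The kernel of reduction is a subgroup and x/y is almost additive.
ker_add: P, Q = 0 trivial. Both affine: if x₁ = x₂ and y₁ = negY the sum is 0. Otherwise Point.add_some, vieta, third_big
(the x-coordinate of P + Q is x₃).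
tt_add: P = 0 or Q = 0: the value is 0 < c. P = -Q: tt(-Q) + tt Q, tt_neg, c < 1. Otherwise let
R = (x₃, l x₃ + m) (nonsingular_negAdd); P + Q = -R; third_tt: v(t(P) + t(Q) + t(R)) < c, so v(t(R)) ≤ c and
v(t(-R) + t(R)) ≤ v(t(R))^2 ≤ c^2 < c.
(val_y applies to R by ker.) -/

theorem ker_add (hI : IntW W V) (P Q : W.toAffine.Point) (hP : Ker V P) (hQ : Ker V Q) : Ker V (P + Q) := by
  rcases P with _ | ⟨x₁, y₁, h₁⟩
  · change Ker V (0 + Q)
    rwa [zero_add]
  rcases Q with _ | ⟨x₂, y₂, h₂⟩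
  · change Ker V (_ + 0)
    rwa [add_zero]
  by_cases hxy : x₁ = x₂ ∧ y₁ = W.toAffine.negY x₂ y₂
  · rw [Affine.Point.add_of_Y_eq hxy.1 hxy.2]
    exact trivial
  · rw [Affine.Point.add_some hxy]
    obtain ⟨s1, s2, s3, -⟩ := vieta h₁.1 h₂.1 hxy _ _ _ rfl rfl rfl
    exact third_big hI.a1 hI.a2 hI.a3 hI.a4 hI.a6 s1 s2 s3 hP hQ

theorem r4_sq {Γ : Type*} [LinearOrderedCommGroupWithZero Γ] {c : Γ} (h0 : 0 < c) (h1 : c < 1) :
    c ^ 2 < c := by
  rw [sq]
  calc c * c < c * 1 := mul_lt_mul_of_pos_left h1 h0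
    _ = c := mul_one c

theorem tt_add (hI : IntW W V) (P Q : W.toAffine.Point) (hP : Ker V P) (hQ : Ker V Q) (c : V.ValueGroup)
    (h0 : 0 < c) (h1 : c < 1) (hPc : V.valuation (tt P) ≤ c) (hQc : V.valuation (tt Q) ≤ c) :
    V.valuation (tt (P + Q) - tt P - tt Q) < c := by
  rcases P with _ | ⟨x₁, y₁, h₁⟩
  · have e : tt (W := W) (Affine.Point.zero + Q) - tt (W := W) Affine.Point.zero - tt Q = 0 := by
      change tt (0 + Q) - 0 - tt Q = 0
      rw [zero_add, sub_zero, sub_self]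
    rw [e, map_zero]
    exact h0
  rcases Q with _ | ⟨x₂, y₂, h₂⟩
  · have e : tt (W := W) (Affine.Point.some x₁ y₁ h₁ + Affine.Point.zero) -
        tt (W := W) (Affine.Point.some x₁ y₁ h₁) - tt (W := W) Affine.Point.zero = 0 := by
      change tt (Affine.Point.some x₁ y₁ h₁ + 0) - tt (W := W) (Affine.Point.some x₁ y₁ h₁) - 0 = 0
      rw [add_zero, sub_zero, sub_self]
    rw [e, map_zero]
    exact h0
  by_cases hxy : x₁ = x₂ ∧ y₁ = W.toAffine.negY x₂ y₂
  · have e0 : (Affine.Point.some x₁ y₁ h₁ : W.toAffine.Point) + Affine.Point.some x₂ y₂ h₂ = 0 :=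
      Affine.Point.add_of_Y_eq hxy.1 hxy.2
    have e1 : (Affine.Point.some x₁ y₁ h₁ : W.toAffine.Point) = -Affine.Point.some x₂ y₂ h₂ :=
      eq_neg_of_add_eq_zero_left e0
    have e2 := tt_neg hI _ hQ
    have e3 : tt (0 : W.toAffine.Point) = 0 := rfl
    rw [e0, e1, e3, zero_sub, sub_eq_add_neg, ← neg_add, Valuation.map_neg]
    exact (e2.trans (pow_le_pow_left' hQc 2)).trans_lt (r4_sq h0 h1)
  · obtain ⟨s1, s2, s3, p1, p2, p3, hN⟩ := vieta h₁.1 h₂.1 hxy _ _ _ rfl rfl rfl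
    set l : k := W.toAffine.slope x₁ x₂ y₁ y₂ with hl
    set x₃ : k := W.toAffine.addX x₁ x₂ l with hx₃
    set m : k := y₁ - l * x₁ with hm
    set y₃ : k := W.toAffine.negAddY x₁ x₂ y₁ l with hy₃
    have h₃ : W.toAffine.Nonsingular x₃ y₃ := Affine.nonsingular_negAdd h₁ h₂ hxy
    have hd : 1 < V.valuation x₃ := third_big hI.a1 hI.a2 hI.a3 hI.a4 hI.a6 s1 s2 s3 hP hQ
    have v1 := (val_y hI h₁.1 hP).1
    have v2 := (val_y hI h₂.1 hQ).1
    have v3 := (val_y hI h₃.1 hd).1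
    have hR : Ker V (Affine.Point.some x₃ y₃ h₃ : W.toAffine.Point) := hd
    have hsum : (Affine.Point.some x₁ y₁ h₁ : W.toAffine.Point) + Affine.Point.some x₂ y₂ h₂ =
        -Affine.Point.some x₃ y₃ h₃ := by
      rw [Affine.Point.add_some hxy, Affine.Point.neg_some]
      rfl
    have key : V.valuation (tt (W := W) (Affine.Point.some x₁ y₁ h₁) +
        tt (W := W) (Affine.Point.some x₂ y₂ h₂) + tt (W := W) (Affine.Point.some x₃ y₃ h₃)) < c := by
      have hPc' : V.valuation (x₁ / y₁) ≤ c := hPc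
      have hQc' : V.valuation (x₂ / y₂) ≤ c := hQc
      change V.valuation (x₁ / y₁ + x₂ / y₂ + x₃ / y₃) < c
      rw [p1] at v1 hPc'
      rw [p2] at v2 hQc'
      rw [p3] at v3
      rw [p1, p2, p3]
      exact third_tt hI.a1 hI.a2 hI.a3 hI.a4 hI.a6 s1 s2 s3 hN hP hQ v1 v2 v3 c hPc' hQc'
    have hRc : V.valuation (tt (W := W) (Affine.Point.some x₃ y₃ h₃)) ≤ c := by
      have e : tt (W := W) (Affine.Point.some x₃ y₃ h₃) =
          (tt (W := W) (Affine.Point.some x₁ y₁ h₁) + tt (W := W) (Affine.Point.some x₂ y₂ h₂) +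
            tt (W := W) (Affine.Point.some x₃ y₃ h₃)) - tt (W := W) (Affine.Point.some x₁ y₁ h₁) -
              tt (W := W) (Affine.Point.some x₂ y₂ h₂) := by ring
      rw [e]
      exact Valuation.map_sub_le _ (Valuation.map_sub_le _ key.le hPc) hQc
    have hneg := tt_neg hI _ hR
    have e : tt (W := W) (-Affine.Point.some x₃ y₃ h₃) - tt (W := W) (Affine.Point.some x₁ y₁ h₁) -
        tt (W := W) (Affine.Point.some x₂ y₂ h₂) =
        (tt (W := W) (-Affine.Point.some x₃ y₃ h₃) + tt (W := W) (Affine.Point.some x₃ y₃ h₃)) -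
          (tt (W := W) (Affine.Point.some x₁ y₁ h₁) + tt (W := W) (Affine.Point.some x₂ y₂ h₂) +
            tt (W := W) (Affine.Point.some x₃ y₃ h₃)) := by ring
    rw [hsum, e]
    exact Valuation.map_sub_lt _ ((hneg.trans (pow_le_pow_left' hRc 2)).trans_lt (r4_sq h0 h1)) key

end H35P
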