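import Mathlib
import Pool.Agent.Lib.H35P.R4

open WeierstrassCurve

namespace H35P

variable {k : Type} [Field k] [DecidableEq k] {W : WeierstrassCurve k} {V : ValuationSubring k}

/-! Chunk FG (S/M). Induction on n with c = v(t(T)), T ≠ 0 (so 0 < c < 1, tt_eq_zero, tt_lt): Ker V (n T) and
v(t(n T) - n t(T)) < c. Step: t((n+1)T) - (n+1) t(T) = (t(nT + T) - t(nT) - t(T)) + (t(nT) - n t(T)), and v(t(nT)) ≤ c.
For v(n) = 1 and n T = 0: v(n t(T)) = c < c, contradiction.
torsion_int: contrapositive with int_y. -/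

omit [DecidableEq k] in
theorem FG_zero : tt (0 : W.toAffine.Point) = 0 := rfl

omit [DecidableEq k] in
theorem FG_nat (n : ℕ) : V.valuation (n : k) ≤ 1 := by
  rw [V.valuation_le_one_iff]
  exact natCast_mem V n

theorem FG_ind (hI : IntW W V) (T : W.toAffine.Point) (hK : Ker V T) (hT : T ≠ 0) (n : ℕ) :
    Ker V (n • T) ∧ V.valuation (tt (n • T) - n * tt T) < V.valuation (tt T) := by
  have h0 : 0 < V.valuation (tt T) := by
    rw [zero_lt_iff, Valuation.ne_zero_iff]
    exact fun h => hT ((tt_eq_zero hI T hK).1 h)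
  have h1 := tt_lt hI T hK
  induction n with
  | zero =>
    refine ⟨?_, ?_⟩
    · rw [zero_smul]
      exact True.intro
    · rw [zero_smul, FG_zero, Nat.cast_zero, zero_mul, sub_zero, map_zero]
      exact h0
  | succ n ih =>
    obtain ⟨hk, hv⟩ := ih
    have hc : V.valuation (tt (n • T)) ≤ V.valuation (tt T) := by
      have e : tt (n • T) = (tt (n • T) - n * tt T) + n * tt T := by ring
      rw [e]
      refine (Valuation.map_add _ _ _).trans (max_le hv.le ?_)
      rw [map_mul]
      exact mul_le_of_le_one_left' (FG_nat n)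
    rw [succ_nsmul]
    refine ⟨ker_add hI _ _ hk hK, ?_⟩
    have h2 := tt_add hI (n • T) T hk hK _ h0 h1 hc le_rfl
    have e : tt (n • T + T) - ((n + 1 : ℕ) : k) * tt T =
        (tt (n • T + T) - tt (n • T) - tt T) + (tt (n • T) - n * tt T) := by
      rw [Nat.cast_add, Nat.cast_one]
      ring
    rw [e]
    exact (Valuation.map_add _ _ _).trans_lt (max_lt h2 hv)

/-- The kernel of reduction has no torsion prime to the residue characteristic. -/
theorem fg (hI : IntW W V) (T : W.toAffine.Point) (n : ℕ) (hn : V.valuation (n : k) = 1) (hT : n • T = 0)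
    (hK : Ker V T) : T = 0 := by
  by_contra h
  obtain ⟨-, h1⟩ := FG_ind hI T hK h n
  rw [hT, FG_zero, zero_sub, Valuation.map_neg, map_mul, hn, one_mul] at h1
  exact lt_irrefl _ h1

/-- Torsion points prime to the residue characteristic are integral. -/
theorem torsion_int (hI : IntW W V) (T : W.toAffine.Point) (n : ℕ) (hn : V.valuation (n : k) = 1)
    (hT : n • T = 0) (h0 : T ≠ 0) : ∃ x y h, T = .some x y h ∧ x ∈ V ∧ y ∈ V := by
  rcases T with _ | ⟨x, y, h⟩
  · exact absurd rfl h0
  · refine ⟨x, y, h, rfl, ?_⟩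
    have hx : V.valuation x ≤ 1 := by
      by_contra hx
      exact h0 (fg hI _ n hn hT (not_le.1 hx))
    have hy := int_y hI h.1 hx
    rw [V.valuation_le_one_iff] at hx hy
    exact ⟨hx, hy⟩

theorem ker_sub (hI : IntW W V) (P Q : W.toAffine.Point) (hP : Ker V P) (hQ : Ker V Q) : Ker V (P - Q) := by
  rw [sub_eq_add_neg]
  exact ker_add hI P (-Q) hP ((ker_neg Q).2 hQ)

end H35P
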