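import Mathlib
import Pool.Agent.Lib.H35P.Red

open WeierstrassCurve

namespace H35P

variable {k : Type} [Field k] [DecidableEq k] {W : WeierstrassCurve k} {V : ValuationSubring k}

omit [DecidableEq k] in
private theorem RD_le {a : k} (h : a ∈ V) : V.valuation a ≤ 1 := (V.valuation_le_one_iff a).2 h

/-- An integral combination with one factor of value less than one. -/
private theorem RD_mul_lt {a b : k} (h : a ∈ V) (hb : V.valuation b < 1) : V.valuation (a * b) < 1 := by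
  rw [map_mul]
  exact (mul_le_of_le_one_left' (RD_le h)).trans_lt hb

private theorem RD_big (hI : IntW W V) {x₁ x₂ l : k} (h1 : x₁ ∈ V) (h2 : x₂ ∈ V) (hl : 1 < V.valuation l) :
    1 < V.valuation (W.toAffine.addX x₁ x₂ l) := by
  have e : W.toAffine.addX x₁ x₂ l = l ^ 2 + (W.a₁ * l - (W.a₂ + x₁ + x₂)) := by
    unfold Affine.addX
    ring
  have hll : V.valuation l < V.valuation (l ^ 2) := by
    rw [map_pow, pow_two]
    exact lt_mul_of_one_lt_left (zero_lt_one.trans hl) hl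
  have h3 : V.valuation (W.a₁ * l - (W.a₂ + x₁ + x₂)) < V.valuation (l ^ 2) := by
    refine lt_of_le_of_lt (V.valuation.map_sub_le ?_ ?_) hll
    · rw [map_mul]
      exact mul_le_of_le_one_left' (RD_le hI.a1)
    · exact (RD_le (V.add_mem _ _ (V.add_mem _ _ hI.a2 h1) h2)).trans hl.le
  rw [e, V.valuation.map_add_eq_of_lt_left h3]
  exact hl.trans hll

omit [DecidableEq k] in
private theorem RD_div {a b : k} (ha : V.valuation a = 1) (hb : V.valuation b < 1) (hb0 : b ≠ 0) :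
    1 < V.valuation (a / b) := by
  rw [map_div₀, ha, one_div]
  exact (one_lt_inv₀ ((V.valuation.pos_iff).2 hb0)).2 hb

/-! Chunk RD (M). v = V.valuation. nonsing: the polynomials F_y = 2y + a1 x + a3 and F_x = a1 y - 3x^2 - 2 a2 x - a4 are
not both of value < 1 at an integral point: reduce to the residue field V/m, where the reduced curve has Δ ≠ 0
(WeierstrassCurve.map_Δ, IsElliptic), so the reduced point is nonsingular
(Affine.equation_iff_nonsingular, nonsingular_iff); or use an explicit Bezout identity for Δ.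
rd: P - Q = P + (-Q), -Q = (x₂, -y₂ - a1 x₂ - a3). Put n1 = y₁ + y₂ + a1 x₂ + a3. Identity:
n1 (y₁ - y₂) = (x₁ - x₂)(x₁^2 + x₁x₂ + x₂^2 + a2(x₁+x₂) + a4 - a1 y₁).
x₁ ≠ x₂: slope l = n1/(x₁ - x₂). If v(F_y(P)) = 1 then v(n1) = 1, v(l) > 1. If v(F_y(P)) < 1 then v(F_x(P)) = 1, the second factor
has value 1, y₁ ≠ y₂ and l = (second factor)/(y₁ - y₂), v(l) > 1. In both cases x₃ = l^2 + a1 l - a2 - x₁ - x₂ has value
v(l)^2 > 1.
x₁ = x₂: y₁ = y₂ (then P - Q = 0) or y₁ = negY x₂ y₂ and y₁ ≠ y₂: P - Q = 2P, slope -F_x/F_y with F_y(P) = y₁ - y₂ of value < 1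
and nonzero, so v(F_x) = 1, v(l) > 1. -/

theorem nonsing (hG : GoodW W V) {x y : k} (h : W.toAffine.Equation x y) (hx : x ∈ V) (hy : y ∈ V)
    (h1 : V.valuation (2 * y + W.a₁ * x + W.a₃) < 1) :
    V.valuation (3 * x ^ 2 + 2 * W.a₂ * x + W.a₄ - W.a₁ * y) = 1 := by
  set W' : WeierstrassCurve V := ⟨⟨W.a₁, hG.a1⟩, ⟨W.a₂, hG.a2⟩, ⟨W.a₃, hG.a3⟩, ⟨W.a₄, hG.a4⟩, ⟨W.a₆, hG.a6⟩⟩ with hW'
  have hmap : W'.map V.subtype = W := by
    ext <;> rfl
  have hΔ : V.valuation ((W'.Δ : V) : k) = 1 := by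
    have h2 : ((W'.Δ : V) : k) = W.Δ := by
      conv_rhs => rw [← hmap]
      rw [WeierstrassCurve.map_Δ]
      rfl
    rw [h2]
    exact hG.disc
  have hu : IsUnit W'.Δ := (V.valuation_eq_one_iff _).2 hΔ
  have hΔ2 : (W'.map (IsLocalRing.residue V)).Δ ≠ 0 := by
    rw [WeierstrassCurve.map_Δ]
    exact (hu.map (IsLocalRing.residue V)).ne_zero
  have hE : W'.toAffine.Equation (⟨x, hx⟩ : V) ⟨y, hy⟩ := by
    rw [Affine.equation_iff] at h ⊢
    exact Subtype.ext h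
  have hE2 := hE.map (IsLocalRing.residue V)
  have hN := ((Affine.equation_iff_nonsingular_of_Δ_ne_zero (W := (W'.map (IsLocalRing.residue V)).toAffine) hΔ2).1 hE2)
  rw [Affine.nonsingular_iff'] at hN
  obtain ⟨-, hN⟩ := hN
  set Fy : V := 2 * ⟨y, hy⟩ + W'.a₁ * ⟨x, hx⟩ + W'.a₃ with hFy
  set Fx : V := W'.a₁ * ⟨y, hy⟩ - (3 * ⟨x, hx⟩ ^ 2 + 2 * W'.a₂ * ⟨x, hx⟩ + W'.a₄) with hFx
  have e1 : 2 * (IsLocalRing.residue V) ⟨y, hy⟩ + (W'.map (IsLocalRing.residue V)).a₁ * (IsLocalRing.residue V) ⟨x, hx⟩ +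
      (W'.map (IsLocalRing.residue V)).a₃ = IsLocalRing.residue V Fy := by
    rw [hFy]
    simp only [map_add, map_mul, map_ofNat]
    rfl
  have e2 : (W'.map (IsLocalRing.residue V)).a₁ * (IsLocalRing.residue V) ⟨y, hy⟩ -
      (3 * (IsLocalRing.residue V) ⟨x, hx⟩ ^ 2 + 2 * (W'.map (IsLocalRing.residue V)).a₂ * (IsLocalRing.residue V) ⟨x, hx⟩ +
      (W'.map (IsLocalRing.residue V)).a₄) = IsLocalRing.residue V Fx := by
    rw [hFx]
    simp only [map_add, map_mul, map_sub, map_pow, map_ofNat]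
    rfl
  have h0 : IsLocalRing.residue V Fy = 0 := by
    rw [IsLocalRing.residue_eq_zero_iff, V.valuation_lt_one_iff]
    exact h1
  have h3 : IsLocalRing.residue V Fx ≠ 0 := by
    rcases hN with hN | hN
    · rw [← e2]
      exact hN
    · exact absurd (e1.trans h0) hN
  have h4 : ¬ V.valuation ((Fx : V) : k) < 1 := by
    rw [← V.valuation_lt_one_iff, ← IsLocalRing.residue_eq_zero_iff]
    exact h3
  have h5 : V.valuation ((Fx : V) : k) = 1 := le_antisymm (V.valuation_le_one Fx) (not_lt.1 h4)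
  have h6 : V.subtype Fx = -(3 * x ^ 2 + 2 * W.a₂ * x + W.a₄ - W.a₁ * y) := by
    rw [hFx]
    simp only [map_sub, map_add, map_mul, map_pow, map_ofNat]
    simp only [hW', ValuationSubring.subtype_apply]
    ring
  change V.valuation (V.subtype Fx) = 1 at h5
  rw [h6, Valuation.map_neg] at h5
  exact h5

/-- The difference of two congruent points lies in the kernel of reduction. -/
theorem rd (hG : GoodW W V) (P Q : W.toAffine.Point) (h : Cong V P Q) : Ker V (P - Q) := by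
  obtain ⟨x₁, y₁, h₁, x₂, y₂, h₂, rfl, rfl, hx1, hy1, hx2, hy2, hx, hy⟩ := h
  have hI : IntW W V := hG.toIntW
  rw [sub_eq_add_neg, Affine.Point.neg_some]
  by_cases hc : x₁ = x₂ ∧ y₁ = W.toAffine.negY x₂ (W.toAffine.negY x₂ y₂)
  · rw [Affine.Point.add_of_Y_eq hc.1 hc.2]
    trivial
  rw [Affine.Point.add_some hc]
  change 1 < V.valuation (W.toAffine.addX x₁ x₂ (W.toAffine.slope x₁ x₂ y₁ (W.toAffine.negY x₂ y₂)))
  refine RD_big hI hx1 hx2 ?_
  have hE1 := (Affine.equation_iff ..).1 h₁.1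
  have hE2 := (Affine.equation_iff ..).1 h₂.1
  by_cases hxx : x₁ = x₂
  · -- tangent
    have hyy : y₁ ≠ y₂ := fun h => hc ⟨hxx, by rw [Affine.negY_negY]; exact h⟩
    have hneg : y₁ = W.toAffine.negY x₂ y₂ := (Affine.Y_eq_of_X_eq h₁.1 h₂.1 hxx).resolve_left hyy
    have hy' : y₁ ≠ W.toAffine.negY x₂ (W.toAffine.negY x₂ y₂) := fun h => hc ⟨hxx, h⟩
    rw [Affine.slope_of_Y_ne hxx hy']
    have e : y₁ - W.toAffine.negY x₁ y₁ = y₁ - y₂ := by
      congr 1
      rw [hneg, hxx, Affine.negY_negY]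
    have e2 : 2 * y₁ + W.a₁ * x₁ + W.a₃ = y₁ - y₂ := by
      rw [← e]
      unfold Affine.negY
      ring
    rw [e]
    exact RD_div (nonsing hG h₁.1 hx1 hy1 (by rw [e2]; exact hy)) hy (sub_ne_zero.2 hyy)
  · -- chord
    have hxx0 : x₁ - x₂ ≠ 0 := sub_ne_zero.2 hxx
    rw [Affine.slope_of_X_ne hxx]
    have hFy1 : V.valuation (2 * y₁ + W.a₁ * x₁ + W.a₃) ≤ 1 :=
      RD_le (V.add_mem _ _ (V.add_mem _ _ (V.mul_mem _ _ (by simp) hy1) (V.mul_mem _ _ hG.a1 hx1)) hG.a3)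
    have hnegY : y₁ - W.toAffine.negY x₂ y₂ = y₁ + y₂ + W.a₁ * x₂ + W.a₃ := by
      unfold Affine.negY
      ring
    rcases hFy1.lt_or_eq with hF | hF
    · have hFx := nonsing hG h₁.1 hx1 hy1 hF
      have hG1 : V.valuation (x₁ ^ 2 + x₁ * x₂ + x₂ ^ 2 + W.a₂ * (x₁ + x₂) + W.a₄ - W.a₁ * y₁) = 1 := by
        have e : x₁ ^ 2 + x₁ * x₂ + x₂ ^ 2 + W.a₂ * (x₁ + x₂) + W.a₄ - W.a₁ * y₁ =
            (3 * x₁ ^ 2 + 2 * W.a₂ * x₁ + W.a₄ - W.a₁ * y₁) + -((x₂ + 2 * x₁ + W.a₂) * (x₁ - x₂)) := by ring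
        rw [e, V.valuation.map_add_eq_of_lt_left, hFx]
        rw [hFx, Valuation.map_neg]
        exact RD_mul_lt (V.add_mem _ _ (V.add_mem _ _ hx2 (V.mul_mem _ _ (by simp) hx1)) hG.a2) hx
      have hid : (y₁ - W.toAffine.negY x₂ y₂) * (y₁ - y₂) =
          (x₁ - x₂) * (x₁ ^ 2 + x₁ * x₂ + x₂ ^ 2 + W.a₂ * (x₁ + x₂) + W.a₄ - W.a₁ * y₁) := by
        rw [hnegY]
        linear_combination hE1 - hE2
      have hyy : y₁ - y₂ ≠ 0 := by
        intro h0
        rw [h0, mul_zero] at hid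
        rcases mul_eq_zero.1 hid.symm with h | h
        · exact hxx0 h
        · rw [h, map_zero] at hG1
          exact zero_ne_one hG1
      have e : (y₁ - W.toAffine.negY x₂ y₂) / (x₁ - x₂) =
          (x₁ ^ 2 + x₁ * x₂ + x₂ ^ 2 + W.a₂ * (x₁ + x₂) + W.a₄ - W.a₁ * y₁) / (y₁ - y₂) := by
        rw [div_eq_div_iff hxx0 hyy, hid]
        ring
      rw [e]
      exact RD_div hG1 hy hyy
    · have hn : V.valuation (y₁ - W.toAffine.negY x₂ y₂) = 1 := by
        have e : y₁ - W.toAffine.negY x₂ y₂ = (2 * y₁ + W.a₁ * x₁ + W.a₃) + -((y₁ - y₂) + W.a₁ * (x₁ - x₂)) := by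
          rw [hnegY]
          ring
        rw [e, V.valuation.map_add_eq_of_lt_left, hF]
        rw [hF, Valuation.map_neg]
        exact V.valuation.map_add_lt hy (RD_mul_lt hG.a1 hx)
      exact RD_div hn hx hxx0

end H35P
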