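import Mathlib
import Pool.Agent.Lib.H35P.A7

namespace H35P

variable (L : PeriodPair)

/-! Chunk A9 (M). sL_add: sL_lim at (a, w) and at (w, a), sL_neg (sL (w - a) = -sL (a - w)): the sum of both is
2 sL(a+w) - 2 sL(a) - 2 sL(w) → T2 L a w + T2 L w a = (℘'a - ℘'w)/(℘a - ℘w) by T_formula and wp_ne.
sL_dbl: for w near 0, w ≠ 0: 2a = (a+w) + (a-w), so by sL_add and sL_lim
sL(2a) - 2 sL(a) → f(w) = mc L (a+w) (a-w) / 2 + ℘'a/(℘a - ℘w). The limit does not depend on w, so f is constant near 0 (fix w₀, tendsto_nhds_unique).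
Now let w → 0: (℘'(a+w) - ℘'(a-w))/(2w) → 6℘a^2 - g₂/2, (℘(a+w) - ℘(a-w))/(2w) → ℘'a ≠ 0 (wpd_ne), and ℘'a/(℘a - ℘w) → 0 (wp_inv_tendsto). -/

theorem sL_add (a w : ℂ) (ha : a ∉ L.lattice) (hw : w ∉ L.lattice) (h1 : a + w ∉ L.lattice)
    (h2 : a - w ∉ L.lattice) :
    Filter.Tendsto (fun R : ℝ => sL L R (a + w) - sL L R a - sL L R w) Filter.atTop (nhds (mc L a w / 2)) := by
  have h1' : w + a ∉ L.lattice := by rwa [add_comm]
  have h2' : w - a ∉ L.lattice := by
    intro h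
    apply h2
    rw [← neg_sub]
    exact neg_mem h
  have hne := wp_ne L a w ha hw h1 h2
  have f1 := T_formula L a w ha hw h1 h2
  have f2 := T_formula L w a hw ha h1' h2'
  have t1 := (sL_lim L a w).add (sL_lim L w a)
  have e : T2 L a w + T2 L w a = mc L a w := by
    have hd : L.weierstrassP a - L.weierstrassP w ≠ 0 := sub_ne_zero.2 hne
    rw [mc, eq_div_iff hd]
    linear_combination f1 - f2
  rw [e] at t1
  have t2 := t1.div_const 2
  refine t2.congr fun R => ?_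
  have hs : sL L R (w - a) = -sL L R (a - w) := by rw [← sL_neg, neg_sub]
  rw [hs, add_comm w a]
  ring

/-- The reciprocal of the difference of the values tends to zero at the origin. -/
theorem a9_inv (c : ℂ) : Filter.Tendsto (fun w => (c - L.weierstrassP w)⁻¹) (nhdsWithin (0 : ℂ) {0}ᶜ)
    (nhds 0) := by
  obtain ⟨u, hu, -, hu2⟩ := wp_zero L
  have hc : ContinuousAt (fun w : ℂ => w ^ 2 / (w ^ 2 * (c - u w) - 1)) 0 := by
    refine ContinuousAt.div (by fun_prop) ?_ (by simp)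
    have := hu.continuousAt
    fun_prop
  have h0 : Filter.Tendsto (fun w : ℂ => w ^ 2 / (w ^ 2 * (c - u w) - 1)) (nhdsWithin (0 : ℂ) {0}ᶜ)
      (nhds 0) := by
    have := hc.tendsto.mono_left (nhdsWithin_le_nhds (s := ({0}ᶜ : Set ℂ)))
    simpa using this
  refine h0.congr' ?_
  filter_upwards [self_mem_nhdsWithin] with w hw
  have hw0 : w ≠ 0 := hw
  rw [hu2 w hw0]
  have e : c - ((w ^ 2)⁻¹ + u w) = (w ^ 2 * (c - u w) - 1) / w ^ 2 := by
    field_simp
    ring
  rw [e, inv_div]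

theorem a9_diff (f : ℂ → ℂ) (a f' : ℂ) (hf : HasDerivAt f f' a) :
    Filter.Tendsto (fun w => (f (a + w) - f (a - w)) / w) (nhdsWithin (0 : ℂ) {0}ᶜ) (nhds (2 * f')) := by
  have h1 : HasDerivAt (fun w : ℂ => f (a + w)) f' 0 :=
    HasDerivAt.comp_const_add a 0 (by rwa [add_zero])
  have h2 : HasDerivAt (fun w : ℂ => f (a - w)) (-f') 0 :=
    HasDerivAt.comp_const_sub a 0 (by rwa [sub_zero])
  have h3 := hasDerivAt_iff_tendsto_slope.1 (h1.fun_sub h2)
  have e : f' - -f' = 2 * f' := by ring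
  rw [e] at h3
  refine h3.congr' ?_
  filter_upwards [self_mem_nhdsWithin] with w hw
  rw [slope_def_field]
  simp

/-- The conditions near the origin. -/
theorem a9_ev (a : ℂ) (ha : a ∉ L.lattice) :
    ∀ᶠ w in nhdsWithin (0 : ℂ) {0}ᶜ, w ∉ L.lattice ∧ a + w ∉ L.lattice ∧ a - w ∉ L.lattice ∧
      2 * w ∉ L.lattice := by
  have h1 : ∀ᶠ w in nhdsWithin (0 : ℂ) {0}ᶜ, w ∉ L.lattice := ev_compl L 0
  have h2 : ∀ᶠ w in nhdsWithin (0 : ℂ) {0}ᶜ, a + w ∉ L.lattice := by
    have hc : ContinuousAt (fun w : ℂ => a + w) 0 := by fun_prop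
    have := hc.eventually_mem ((compl_open L).mem_nhds (show a + 0 ∈ _ by
      change a + 0 ∉ L.lattice
      rwa [add_zero]))
    exact this.filter_mono nhdsWithin_le_nhds
  have h3 : ∀ᶠ w in nhdsWithin (0 : ℂ) {0}ᶜ, a - w ∉ L.lattice := by
    have hc : ContinuousAt (fun w : ℂ => a - w) 0 := by fun_prop
    have := hc.eventually_mem ((compl_open L).mem_nhds (show a - 0 ∈ _ by
      change a - 0 ∉ L.lattice
      rwa [sub_zero]))
    exact this.filter_mono nhdsWithin_le_nhds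
  have h4 : ∀ᶠ w in nhdsWithin (0 : ℂ) {0}ᶜ, 2 * w ∉ L.lattice := by
    have ht := tendsto_punct (fun w : ℂ => 2 * w) 0 (by fun_prop) (fun x y h => by
      simpa using h)
    exact ht.eventually (ev_compl L (2 * 0))
  filter_upwards [h1, h2, h3, h4] with w q1 q2 q3 q4
  exact ⟨q1, q2, q3, q4⟩

theorem sL_dbl (a : ℂ) (ha : a ∉ L.lattice) (h2 : 2 * a ∉ L.lattice) :
    Filter.Tendsto (fun R : ℝ => sL L R (2 * a) - sL L R a - sL L R a) Filter.atTop (nhds (md L a / 2)) := by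
  -- the limit for every small w
  have key : ∀ w : ℂ, w ∉ L.lattice → a + w ∉ L.lattice → a - w ∉ L.lattice → 2 * w ∉ L.lattice →
      Filter.Tendsto (fun R : ℝ => sL L R (2 * a) - sL L R a - sL L R a) Filter.atTop
        (nhds (mc L (a + w) (a - w) / 2 + L.derivWeierstrassP a * (L.weierstrassP a - L.weierstrassP w)⁻¹)) := by
    intro w hw h3 h4 h5
    have e1 : a + w + (a - w) = 2 * a := by ring
    have e2 : a + w - (a - w) = 2 * w := by ring
    have t1 := sL_add L (a + w) (a - w) h3 h4 (by rwa [e1]) (by rwa [e2])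
    rw [e1] at t1
    have hne := wp_ne L a w ha hw h3 h4
    have hd : L.weierstrassP a - L.weierstrassP w ≠ 0 := sub_ne_zero.2 hne
    have t2 := sL_lim L a w
    have e3 : T2 L a w = L.derivWeierstrassP a * (L.weierstrassP a - L.weierstrassP w)⁻¹ := by
      rw [← div_eq_mul_inv, eq_div_iff hd]
      exact T_formula L a w ha hw h3 h4
    rw [e3] at t2
    refine (t1.add t2).congr fun R => ?_
    ring
  obtain ⟨w₀, hw₀⟩ := (a9_ev L a ha).exists
  have k0 := key w₀ hw₀.1 hw₀.2.1 hw₀.2.2.1 hw₀.2.2.2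
  -- the limit of the right side
  have l1 := a9_diff L.derivWeierstrassP a _ (wpd_hasDeriv L a ha)
  have l2 := a9_diff L.weierstrassP a _ (wp_hasDeriv L a ha)
  have hd : (2 : ℂ) * L.derivWeierstrassP a ≠ 0 := mul_ne_zero two_ne_zero (wpd_ne L a ha h2)
  have l3 := ((l1.div l2 hd).div_const 2).add ((a9_inv L (L.weierstrassP a)).const_mul (L.derivWeierstrassP a))
  have e4 : 2 * (6 * L.weierstrassP a ^ 2 - L.g₂ / 2) / (2 * L.derivWeierstrassP a) / 2 +
      L.derivWeierstrassP a * 0 = md L a / 2 := by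
    rw [mul_zero, add_zero, mul_div_mul_left _ _ two_ne_zero, md]
  rw [e4] at l3
  have e5 : md L a / 2 = mc L (a + w₀) (a - w₀) / 2 +
      L.derivWeierstrassP a * (L.weierstrassP a - L.weierstrassP w₀)⁻¹ := by
    refine tendsto_nhds_unique_of_eventuallyEq l3 tendsto_const_nhds ?_
    filter_upwards [a9_ev L a ha, self_mem_nhdsWithin] with w hw hw0
    have hw0' : w ≠ 0 := hw0
    rw [tendsto_nhds_unique k0 (key w hw.1 hw.2.1 hw.2.2.1 hw.2.2.2), mc]
    simp only [Pi.div_apply]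
    rw [div_div_div_cancel_right₀ hw0']
  rw [e5]
  exact k0

end H35P
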