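import Mathlib
import Pool.Agent.Lib.H35P.FG
import Pool.Agent.Lib.H35P.RD

open WeierstrassCurve

namespace H35P

variable {k : Type} [Field k] [DecidableEq k] {W : WeierstrassCurve k} {V : ValuationSubring k}

/-! Chunk SL (S/M). inj: rd and fg for P - Q. cong_neg: trivial.
slope_int: P = (x₁, y₁), Q = (x₂, y₂) integral (torsion_int). P = Q: slope = (3x^2 + 2 a2 x + a4 - a1 y)/(y - negY x y); if v(y - negY x y) < 1
then P and -P are congruent, so P = -P, P + Q = 0. P ≠ Q: x₁ ≠ x₂ (Y_eq_of_X_eq). If v(x₁ - x₂) < 1 the identity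
(y₁ - y₂)(y₁ - negY x₂ y₂) = (x₁ - x₂)(..) (see RD) gives v(y₁ - y₂) < 1 or v(y₁ - negY x₂ y₂) < 1, so P = Q or P = -Q by inj,
contradiction; so v(x₁ - x₂) = 1. -/

/-- Reduction is injective on torsion prime to the residue characteristic. -/
theorem inj (hG : GoodW W V) (P Q : W.toAffine.Point) (n : ℕ) (hn : V.valuation (n : k) = 1) (hP : n • P = 0)
    (hQ : n • Q = 0) (h : Cong V P Q) : P = Q := by
  have h1 := rd hG P Q h
  have h2 : n • (P - Q) = 0 := by rw [nsmul_sub, hP, hQ, sub_zero]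
  exact sub_eq_zero.mp (fg hG.toIntW (P - Q) n hn h2 h1)

theorem SL_mem {x₁ y₁ : k} (hG : GoodW W V) (h₁ : W.toAffine.Nonsingular x₁ y₁) (n : ℕ)
    (hn : V.valuation (n : k) = 1)
    (hP : n • (Affine.Point.some x₁ y₁ h₁ : W.toAffine.Point) = 0) : x₁ ∈ V ∧ y₁ ∈ V := by
  obtain ⟨x, y, h, h0, hx, hy⟩ := torsion_int hG.toIntW _ n hn hP (Affine.Point.some_ne_zero h₁)
  simp only [Affine.Point.some.injEq] at h0
  rw [h0.1, h0.2]
  exact ⟨hx, hy⟩

/-- The slope of the line through two torsion points is integral. -/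
theorem slope_int (hG : GoodW W V) {x₁ y₁ x₂ y₂ : k} (h₁ : W.toAffine.Nonsingular x₁ y₁)
    (h₂ : W.toAffine.Nonsingular x₂ y₂) (n : ℕ) (hn : V.valuation (n : k) = 1)
    (hP : n • (Affine.Point.some x₁ y₁ h₁ : W.toAffine.Point) = 0)
    (hQ : n • (Affine.Point.some x₂ y₂ h₂ : W.toAffine.Point) = 0)
    (hxy : ¬(x₁ = x₂ ∧ y₁ = W.toAffine.negY x₂ y₂)) :
    V.valuation (W.toAffine.slope x₁ x₂ y₁ y₂) ≤ 1 := by
  obtain ⟨hx1, hy1⟩ := SL_mem hG h₁ n hn hP
  obtain ⟨hx2, hy2⟩ := SL_mem hG h₂ n hn hQ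
  have ha1 := hG.a1
  have ha2 := hG.a2
  have ha3 := hG.a3
  have ha4 := hG.a4
  have hneg : ∀ x y : k, x ∈ V → y ∈ V → W.toAffine.negY x y ∈ V := fun x y hx hy => by
    rw [Affine.negY]
    exact sub_mem (sub_mem (neg_mem hy) (mul_mem ha1 hx)) ha3
  have hQn : n • (-(Affine.Point.some x₂ y₂ h₂) : W.toAffine.Point) = 0 := by
    rw [smul_neg, hQ, neg_zero]
  by_cases hx : x₁ = x₂
  · have hy : y₁ ≠ W.toAffine.negY x₂ y₂ := fun h => hxy ⟨hx, h⟩
    have hyy : y₁ = y₂ := Affine.Y_eq_of_Y_ne h₁.1 h₂.1 hx hy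
    rw [Affine.slope_of_Y_ne hx hy]
    subst hx
    subst hyy
    have hd : V.valuation (y₁ - W.toAffine.negY x₁ y₁) = 1 := by
      refine le_antisymm ((V.valuation_le_one_iff _).mpr (sub_mem hy1 (hneg _ _ hx1 hy1))) ?_
      by_contra hlt
      push Not at hlt
      have hc : Cong V (Affine.Point.some x₁ y₁ h₁ : W.toAffine.Point)
          (-(Affine.Point.some x₁ y₁ h₂)) := by
        refine ⟨x₁, y₁, h₁, x₁, W.toAffine.negY x₁ y₁, (Affine.nonsingular_neg ..).mpr h₂, rfl, ?_,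
          hx1, hy1, hx1, hneg _ _ hx1 hy1, ?_, hlt⟩
        · exact Affine.Point.neg_some h₂
        · rw [sub_self, map_zero]
          exact zero_lt_one
      have he := inj hG _ _ n hn hP hQn hc
      rw [Affine.Point.neg_some] at he
      simp only [Affine.Point.some.injEq] at he
      exact hy he.2
    rw [map_div₀, hd, div_one]
    refine (V.valuation_le_one_iff _).mpr ?_
    have h3 : (3 : k) ∈ V := by exact_mod_cast natCast_mem V 3
    have h2 : (2 : k) ∈ V := by exact_mod_cast natCast_mem V 2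
    exact sub_mem (add_mem (add_mem (mul_mem h3 (pow_mem hx1 2)) (mul_mem (mul_mem h2 ha2) hx1)) ha4)
      (mul_mem ha1 hy1)
  · rw [Affine.slope_of_X_ne hx]
    have hd : V.valuation (x₁ - x₂) = 1 := by
      refine le_antisymm ((V.valuation_le_one_iff _).mpr (sub_mem hx1 hx2)) ?_
      by_contra hlt
      push Not at hlt
      have e1 := (Affine.equation_iff _ _).mp h₁.1
      have e2 := (Affine.equation_iff _ _).mp h₂.1
      have hid : (y₁ - W.toAffine.negY x₂ y₂) * (y₁ - y₂) =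
          (x₁ - x₂) * (x₁ ^ 2 + x₁ * x₂ + x₂ ^ 2 + W.a₂ * (x₁ + x₂) + W.a₄ - W.a₁ * y₁) := by
        rw [Affine.negY]
        linear_combination e1 - e2
      have hmem : x₁ ^ 2 + x₁ * x₂ + x₂ ^ 2 + W.a₂ * (x₁ + x₂) + W.a₄ - W.a₁ * y₁ ∈ V :=
        sub_mem (add_mem (add_mem (add_mem (add_mem (pow_mem hx1 2) (mul_mem hx1 hx2)) (pow_mem hx2 2))
          (mul_mem ha2 (add_mem hx1 hx2))) ha4) (mul_mem ha1 hy1)
      have hv : V.valuation (y₁ - W.toAffine.negY x₂ y₂) * V.valuation (y₁ - y₂) < 1 := by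
        rw [← map_mul, hid, map_mul]
        exact mul_lt_one_of_lt_of_le hlt ((V.valuation_le_one_iff _).mpr hmem)
      have hor : V.valuation (y₁ - W.toAffine.negY x₂ y₂) < 1 ∨ V.valuation (y₁ - y₂) < 1 := by
        by_contra hc
        push Not at hc
        exact absurd hv (not_lt.mpr (one_le_mul hc.1 hc.2))
      rcases hor with h | h
      · have hc : Cong V (Affine.Point.some x₁ y₁ h₁ : W.toAffine.Point)
            (-(Affine.Point.some x₂ y₂ h₂)) :=
          ⟨x₁, y₁, h₁, x₂, W.toAffine.negY x₂ y₂, (Affine.nonsingular_neg ..).mpr h₂, rfl,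
            Affine.Point.neg_some h₂, hx1, hy1, hx2, hneg _ _ hx2 hy2, hlt, h⟩
        have he := inj hG _ _ n hn hP hQn hc
        rw [Affine.Point.neg_some] at he
        simp only [Affine.Point.some.injEq] at he
        exact hx he.1
      · have hc : Cong V (Affine.Point.some x₁ y₁ h₁ : W.toAffine.Point)
            (Affine.Point.some x₂ y₂ h₂) :=
          ⟨x₁, y₁, h₁, x₂, y₂, h₂, rfl, rfl, hx1, hy1, hx2, hy2, hlt, h⟩
        have he := inj hG _ _ n hn hP hQ hc
        simp only [Affine.Point.some.injEq] at he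
        exact hx he.1
    rw [map_div₀, hd, div_one]
    exact (V.valuation_le_one_iff _).mpr (sub_mem hy1 hy2)

end H35P
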