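import Mathlib
import Pool.Agent.Lib.H35P.A9
import Pool.Agent.Lib.H35P.B1
import Pool.Agent.Lib.H35P.SL

open WeierstrassCurve

namespace H35P

variable (L : PeriodPair)

/-! Chunk B2 (M). Let r₀ = the least n > 0 with n z in the lattice (Nat.find); r₀ divides r, r₀ ≥ 2, and k z ∈ L iff r₀ ∣ k. r₀ = 2: sL R z = 0 for all R (sL_neg, sL_per), S = 0.
r₀ ≥ 3: for 1 ≤ k ≤ r₀ - 2 put l_k = md z (k = 1), mc (k z) z (k ≥ 2): sL((k+1)z) - sL(kz) - sL(z) → l_k/2 (sL_dbl, sL_add: k z - z, k z + z ∉ L). Summing over k and sL((r₀-1)z) = sL(-z + r₀ z) =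
-sL(z): -r₀ sL(z) → Σ l_k/2, so S = -(Σ l_k/2)/r₀.
Integrality: the discriminant is ≠ 0, pt_exists, n = r: r • pt(k z) = pt(k (r z)) = 0; slope_int for the points pt(k z), pt(z) (V.valuation r = 1) gives
V(l_k/2/Om) ≤ 1 by slope_chord (wp_ne), slope_tangent (wpd_ne); V(r₀) = 1 because V(r) = V(r₀) V(r/r₀) and both are ≤ 1 (naturals lie in V).
GoodW (WAB A B) V: Δ = -16(4A^3+27B^2), V(2) = 1. The condition ¬(x₁ = x₂ ∧ y₁ = negY x₂ y₂): it would give pt(k z) + pt(z) = 0 = pt((k+1)z), but (k+1) z ∉ L and pt is then affine. -/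

theorem B2_good {A B : ℂ} {V : ValuationSubring ℂ} (hA : A ∈ V) (hB : B ∈ V) (h2 : V.valuation 2 = 1)
    (hD : V.valuation (4 * A ^ 3 + 27 * B ^ 2) = 1) : GoodW (WAB A B) V where
  a1 := V.zero_mem
  a2 := V.zero_mem
  a3 := V.zero_mem
  a4 := hA
  a6 := hB
  disc := by
    have e : (WAB A B).Δ = -(2 ^ 4 * (4 * A ^ 3 + 27 * B ^ 2)) := by
      unfold WAB WeierstrassCurve.Δ WeierstrassCurve.b₂ WeierstrassCurve.b₄ WeierstrassCurve.b₆
        WeierstrassCurve.b₈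
      ring
    rw [e, Valuation.map_neg, map_mul, map_pow, h2, hD, one_pow, one_mul]

/-- The condition on the valuation ring. -/
def B2_G (A B : ℂ) (r : ℕ) (V : ValuationSubring ℂ) : Prop :=
  A ∈ V ∧ B ∈ V ∧ V.valuation 2 = 1 ∧ V.valuation (4 * A ^ 3 + 27 * B ^ 2) = 1 ∧ V.valuation (r : ℂ) = 1

variable {L}

theorem B2_tors {A B : ℂ} (pt : ℂ →+ (WAB A B).toAffine.Point) (h0 : ∀ z ∈ L.lattice, pt z = 0)
    (r k : ℕ) (z : ℂ) (hrz : (r : ℂ) * z ∈ L.lattice) : r • pt ((k : ℂ) * z) = 0 := by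
  rw [← map_nsmul]
  apply h0
  have e : r • ((k : ℂ) * z) = k • ((r : ℂ) * z) := by
    rw [nsmul_eq_mul, nsmul_eq_mul]
    ring
  rw [e]
  exact nsmul_mem hrz k

/-- One step. -/
theorem B2_step (A B Om : ℂ) (hO : Om ≠ 0) (g2 : L.g₂ = -4 * A * Om ^ 4) (g3 : L.g₃ = -4 * B * Om ^ 6) (z : ℂ)
    (r : ℕ) (hrz : (r : ℂ) * z ∈ L.lattice) (r₀ : ℕ)
    (hmin : ∀ m : ℕ, 0 < m → m < r₀ → (m : ℂ) * z ∉ L.lattice) (k : ℕ) (hk : 0 < k) (hk1 : k + 1 < r₀) :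
    ∃ l : ℂ, Filter.Tendsto (fun R : ℝ => sL L R (((k + 1 : ℕ) : ℂ) * z) - sL L R ((k : ℂ) * z) - sL L R z)
      Filter.atTop (nhds l) ∧ ∀ V : ValuationSubring ℂ, B2_G A B r V → V.valuation (l / Om) ≤ 1 := by
  have hz : z ∉ L.lattice := by
    have := hmin 1 one_pos (by omega)
    rwa [Nat.cast_one, one_mul] at this
  have hkz := hmin k hk (by omega)
  have hk1z := hmin (k + 1) (by omega) hk1
  rcases Nat.lt_or_ge k 2 with h | h
  · have hk' : k = 1 := by omega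
    subst hk'
    have e2 : ((1 + 1 : ℕ) : ℂ) * z = 2 * z := by norm_num
    rw [e2] at hk1z
    refine ⟨md L z / 2, ?_, ?_⟩
    · have := sL_dbl L z hz hk1z
      rw [e2, Nat.cast_one, one_mul]
      exact this
    · rintro V ⟨hA, hB, hV2, hD, hr⟩
      have hd : 4 * A ^ 3 + 27 * B ^ 2 ≠ 0 := by
        intro h0
        rw [h0, map_zero] at hD
        exact zero_ne_one hD
      obtain ⟨pt, hp0, hp1⟩ := pt_exists L A B Om hO g2 g3 hd
      obtain ⟨hns, hns'⟩ := hp1 z hz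
      have hy := wpd_ne L z hz hk1z
      rw [← slope_tangent L A B Om hO g2 z hy]
      have ht : r • pt z = 0 := by
        have := B2_tors (L := L) pt hp0 r 1 z hrz
        rwa [Nat.cast_one, one_mul] at this
      rw [hns'] at ht
      refine slope_int (B2_good hA hB hV2 hD) hns hns r hr ht ht ?_
      rintro ⟨_, h3⟩
      apply hy
      unfold Affine.negY at h3
      have e3 : (WAB A B).toAffine.a₁ = 0 := rfl
      have e4 : (WAB A B).toAffine.a₃ = 0 := rfl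
      rw [e3, e4] at h3
      have h4 : L.derivWeierstrassP z / (2 * Om ^ 3) = 0 := by linear_combination h3 / 2
      rcases div_eq_zero_iff.1 h4 with h5 | h5
      · exact h5
      · exact absurd h5 (mul_ne_zero two_ne_zero (pow_ne_zero _ hO))
  · have e1 : ((k + 1 : ℕ) : ℂ) * z = (k : ℂ) * z + z := by push_cast; ring
    have e2 : ((k - 1 : ℕ) : ℂ) * z = (k : ℂ) * z - z := by
      rw [Nat.cast_sub (by omega)]
      push_cast
      ring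
    have hm := hmin (k - 1) (by omega) (by omega)
    rw [e2] at hm
    rw [e1] at hk1z ⊢
    have hx := wp_ne L ((k : ℂ) * z) z hkz hz hk1z hm
    refine ⟨mc L ((k : ℂ) * z) z / 2, sL_add L _ _ hkz hz hk1z hm, ?_⟩
    rintro V ⟨hA, hB, hV2, hD, hr⟩
    have hd : 4 * A ^ 3 + 27 * B ^ 2 ≠ 0 := by
      intro h0
      rw [h0, map_zero] at hD
      exact zero_ne_one hD
    obtain ⟨pt, hp0, hp1⟩ := pt_exists L A B Om hO g2 g3 hd
    obtain ⟨hns, hns'⟩ := hp1 z hz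
    obtain ⟨hnk, hnk'⟩ := hp1 _ hkz
    rw [← slope_chord L A B Om hO _ _ hx]
    have ht : r • pt z = 0 := by
      have := B2_tors (L := L) pt hp0 r 1 z hrz
      rwa [Nat.cast_one, one_mul] at this
    have ht' := B2_tors (L := L) pt hp0 r k z hrz
    rw [hns'] at ht
    rw [hnk'] at ht'
    refine slope_int (B2_good hA hB hV2 hD) hnk hns r hr ht' ht ?_
    rintro ⟨h3, _⟩
    exact hx ((div_left_inj' (pow_ne_zero 2 hO)).1 h3)

theorem B2_ind (A B Om : ℂ) (hO : Om ≠ 0) (g2 : L.g₂ = -4 * A * Om ^ 4) (g3 : L.g₃ = -4 * B * Om ^ 6) (z : ℂ)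
    (r : ℕ) (hrz : (r : ℂ) * z ∈ L.lattice) (r₀ : ℕ)
    (hmin : ∀ m : ℕ, 0 < m → m < r₀ → (m : ℂ) * z ∉ L.lattice) (m : ℕ) (hm : m + 1 < r₀) :
    ∃ T : ℂ, Filter.Tendsto (fun R : ℝ => sL L R (((m + 1 : ℕ) : ℂ) * z) - ((m + 1 : ℕ) : ℂ) * sL L R z)
      Filter.atTop (nhds T) ∧ ∀ V : ValuationSubring ℂ, B2_G A B r V → V.valuation (T / Om) ≤ 1 := by
  induction m with
  | zero =>
    refine ⟨0, ?_, fun V _ => by rw [zero_div, map_zero]; exact zero_le_one⟩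
    refine tendsto_const_nhds.congr fun R => ?_
    norm_num
  | succ m ih =>
    obtain ⟨T, hT, hV⟩ := ih (by omega)
    obtain ⟨l, hl, hV'⟩ := B2_step A B Om hO g2 g3 z r hrz r₀ hmin (m + 1) (by omega) hm
    refine ⟨l + T, (hl.add hT).congr fun R => ?_, fun V hG => ?_⟩
    · push_cast
      ring
    · rw [add_div]
      exact V.valuation.map_add_le (hV' V hG) (hV V hG)

theorem B2_nat (V : ValuationSubring ℂ) (n : ℕ) : V.valuation (n : ℂ) ≤ 1 :=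
  (V.valuation_le_one_iff _).2 (natCast_mem V n)

theorem B2_dvd {V : ValuationSubring ℂ} {r r₀ : ℕ} (h : r₀ ∣ r) (hr : V.valuation (r : ℂ) = 1) :
    V.valuation (r₀ : ℂ) = 1 := by
  obtain ⟨c, rfl⟩ := h
  rw [Nat.cast_mul, map_mul] at hr
  refine le_antisymm (B2_nat V r₀) ?_
  rw [← hr]
  exact mul_le_of_le_one_right' (B2_nat V c)

variable (L)

theorem sL_exists (A B Om : ℂ) (hO : Om ≠ 0) (g2 : L.g₂ = -4 * A * Om ^ 4) (g3 : L.g₃ = -4 * B * Om ^ 6) (z : ℂ)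
    (r : ℕ) (hr : 0 < r) (hz : z ∉ L.lattice) (hrz : (r : ℂ) * z ∈ L.lattice) :
    ∃ S : ℂ, Filter.Tendsto (fun R : ℝ => sL L R z) Filter.atTop (nhds S) ∧
      ∀ V : ValuationSubring ℂ, A ∈ V → B ∈ V → V.valuation 2 = 1 → V.valuation (4 * A ^ 3 + 27 * B ^ 2) = 1 →
        V.valuation (r : ℂ) = 1 → V.valuation (S / Om) ≤ 1 := by
  classical
  have hex : ∃ n : ℕ, 0 < n ∧ (n : ℂ) * z ∈ L.lattice := ⟨r, hr, hrz⟩
  obtain ⟨r₀, hr₀, hr₀z, hmin⟩ : ∃ r₀ : ℕ, 0 < r₀ ∧ (r₀ : ℂ) * z ∈ L.lattice ∧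
      ∀ m : ℕ, 0 < m → m < r₀ → (m : ℂ) * z ∉ L.lattice :=
    ⟨Nat.find hex, (Nat.find_spec hex).1, (Nat.find_spec hex).2, fun m h1 h2 h3 => Nat.find_min hex h2 ⟨h1, h3⟩⟩
  have h2 : 2 ≤ r₀ := by
    by_contra hc
    have : r₀ = 1 := by omega
    subst this
    rw [Nat.cast_one, one_mul] at hr₀z
    exact hz hr₀z
  have hdvd : r₀ ∣ r := by
    rw [Nat.dvd_iff_mod_eq_zero]
    by_contra hc
    apply hmin (r % r₀) (Nat.pos_of_ne_zero hc) (Nat.mod_lt _ hr₀)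
    have e : ((r % r₀ : ℕ) : ℂ) * z = (r : ℂ) * z - (r / r₀ : ℕ) • ((r₀ : ℂ) * z) := by
      have h3 : ((r : ℕ) : ℂ) = ((r % r₀ : ℕ) : ℂ) + (r₀ : ℂ) * ((r / r₀ : ℕ) : ℂ) := by
        exact_mod_cast (Nat.mod_add_div r r₀).symm
      rw [nsmul_eq_mul, h3]
      ring
    rw [e]
    exact sub_mem hrz (nsmul_mem hr₀z _)
  obtain ⟨T, hT, hV⟩ := B2_ind A B Om hO g2 g3 z r hrz r₀ hmin (r₀ - 2) (by omega)
  have e1 : r₀ - 2 + 1 = r₀ - 1 := by omega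
  rw [e1] at hT
  have hr0 : (r₀ : ℂ) ≠ 0 := by exact_mod_cast hr₀.ne'
  have e2 : ∀ R : ℝ, sL L R (((r₀ - 1 : ℕ) : ℂ) * z) = -sL L R z := by
    intro R
    have e3 : ((r₀ - 1 : ℕ) : ℂ) * z = -z + (r₀ : ℂ) * z := by
      rw [Nat.cast_sub (by omega)]
      push_cast
      ring
    rw [e3, sL_per L R (-z) _ hr₀z, sL_neg]
  refine ⟨-(r₀ : ℂ)⁻¹ * T, ?_, ?_⟩
  · refine (hT.const_mul (-(r₀ : ℂ)⁻¹)).congr fun R => ?_
    rw [e2 R, Nat.cast_sub (by omega)]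
    push_cast
    field_simp
    ring
  · intro V hA hB hV2 hD hrV
    have h5 := hV V ⟨hA, hB, hV2, hD, hrV⟩
    have e4 : -(r₀ : ℂ)⁻¹ * T / Om = -((r₀ : ℂ)⁻¹ * (T / Om)) := by ring
    rw [e4, Valuation.map_neg, map_mul, map_inv₀, B2_dvd hdvd hrV, inv_one, one_mul]
    exact h5

end H35P
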