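import Mathlib
import Pool.Agent.Lib.H55P.EDef
import Pool.Agent.Lib.H35P.B2

/-! The target of the elliptic part, from the general lattice. -/

open NumberField IsDedekindDomain

namespace H55P

theorem sR_eq (F : Type) [Field F] [NumberField F] [IQ F] (R : ℝ) (z : ℂ) : sR F R z = H35P.sL (LF F) R z := by
  unfold sR H35P.sL
  rw [← (LF_equiv F).tsum_eq]
  rfl

/-- The values of the Eisenstein sum at points of order prime to the residue characteristic. -/
theorem s_exists (F : Type) [Field F] [NumberField F] [IQ F] (A B Om : ℂ) (h : Per F A B Om) (z : ℂ)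
    (r : ℕ) (hr : 0 < r) (hz : ¬ ∃ y : 𝓞 F, z = eF F y) (hrz : ∃ y : 𝓞 F, (r : ℂ) * z = eF F y) :
    ∃ S : ℂ, Filter.Tendsto (fun R : ℝ => sR F R z) Filter.atTop (nhds S) ∧
      ∀ V : ValuationSubring ℂ, GoodV A B V → V.valuation (r : ℂ) = 1 → V.valuation (S / Om) ≤ 1 := by
  obtain ⟨S, hS, hV⟩ := H35P.sL_exists (LF F) A B Om h.ne h.g2 h.g3 z r hr
    (fun hc => hz ((mem_LF z).1 hc)) ((mem_LF _).2 hrz)
  refine ⟨S, ?_, fun V hG hrV => hV V hG.a hG.b hG.two hG.disc hrV⟩
  simpa only [sR_eq] using hS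

end H55P
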